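import Pool.Agent.MP_ff3a4f_co.AD.Spec

/-! The vertices of the arrangement exist. -/

namespace Pool.Agent.MP_ff3a4f_co.AD

open Finset
open scoped Classical

namespace RAff

theorem one (hL : LIN) {ι : Type} [DecidableEq ι] (d : ℕ) (v : ι → Vec d) (Y : Finset ι) (α : ι)
    (hG : GP v Y) (hα : α ∈ Y) (U : Finset ι) (hU : U ⊆ Y.erase α) (hc : #U = d) :
    ∃ φ : Vec d →ₗ[ℝ] ℝ, φ (v α) = 1 ∧ (∀ u ∈ U, φ (v u) = 0) ∧
      ∀ x ∈ Y, x ∉ U → φ (v x) ≠ 0 := by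
  have hαU : α ∉ U := fun h => (mem_erase.1 (hU h)).1 rfl
  have hUY : U ⊆ Y := hU.trans (erase_subset _ _)
  obtain ⟨φ, hφ⟩ := hL.pre ι d v Y (insert α U) (fun x => if x = α then 1 else 0) hG
    (insert_subset hα hUY) (by rw [card_insert_of_notMem hαU, hc])
  have h1 : φ (v α) = 1 := by simpa using hφ α (mem_insert_self _ _)
  have h0 : ∀ u ∈ U, φ (v u) = 0 := by
    intro u hu
    have hne : u ≠ α := fun h => hαU (h ▸ hu)
    simpa [hne] using hφ u (mem_insert_of_mem hu)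
  refine ⟨φ, h1, h0, fun x hx hxU h => ?_⟩
  have hxα : x ≠ α := by
    rintro rfl
    rw [h1] at h
    exact one_ne_zero h
  have hαx : α ∉ insert x U := by
    rw [mem_insert, not_or]
    exact ⟨hxα.symm, hαU⟩
  have hcx : #(insert x U) = d + 1 := by rw [card_insert_of_notMem hxU, hc]
  obtain ⟨l, ⟨z, hz, hlz⟩, hl⟩ := hL.dex ι d v (insert α (insert x U))
    (by rw [card_insert_of_notMem hαx, hcx])
  rw [sum_insert hαx] at hl
  have h2 := congrArg φ hl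
  rw [map_add, map_sum, map_zero, map_smul, h1, smul_eq_mul, mul_one,
    Finset.sum_eq_zero, add_zero] at h2
  · rw [h2, zero_smul, zero_add] at hl
    have h3 := hG (insert x U) (insert_subset hx hUY) hcx.le l hl
    rcases mem_insert.1 hz with rfl | hz'
    · exact hlz h2
    · exact hlz (h3 z hz')
  · intro y hy
    rw [map_smul, smul_eq_mul]
    rcases mem_insert.1 hy with rfl | hy'
    · rw [h, mul_zero]
    · rw [h0 y hy', mul_zero]

end RAff

theorem raff : LIN → AFF := by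
  intro hL ι _ d v Y α hG hα
  have h : ∀ U : Finset ι, ∃ φ : Vec d →ₗ[ℝ] ℝ, U ⊆ Y.erase α → #U = d →
      φ (v α) = 1 ∧ (∀ u ∈ U, φ (v u) = 0) ∧ ∀ x ∈ Y, x ∉ U → φ (v x) ≠ 0 := by
    intro U
    by_cases hU : U ⊆ Y.erase α ∧ #U = d
    · obtain ⟨φ, hφ⟩ := RAff.one hL d v Y α hG hα U hU.1 hU.2
      exact ⟨φ, fun _ _ => hφ⟩
    · exact ⟨0, fun h1 h2 => absurd ⟨h1, h2⟩ hU⟩
  choose φ hφ using h
  exact ⟨φ, fun U h1 h2 => hφ U h1 h2⟩

end Pool.Agent.MP_ff3a4f_co.AD
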