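import Pool.Agent.MP_ff3a4f_co.AD.Spec

/-! The Beta integral at natural exponents. -/

namespace Pool.Agent.MP_ff3a4f_co.AD

open Finset
open scoped Classical

namespace RBet

theorem step (a b : ℕ) : ∫ s in (0 : ℝ)..1, s ^ a * (1 - s) ^ (b + 1) =
    (∫ s in (0 : ℝ)..1, s ^ a * (1 - s) ^ b) - ∫ s in (0 : ℝ)..1, s ^ (a + 1) * (1 - s) ^ b := by
  rw [← intervalIntegral.integral_sub]
  · congr 1
    funext s
    ring
  · exact Continuous.intervalIntegrable (by fun_prop) _ _
  · exact Continuous.intervalIntegrable (by fun_prop) _ _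

end RBet

theorem rbet : BET := by
  intro a b
  induction b generalizing a with
  | zero =>
    simp only [pow_zero, mul_one, integral_pow, one_pow, Nat.factorial_zero, Nat.cast_one,
      Nat.add_zero, Nat.factorial_succ]
    have h : (a.factorial : ℝ) ≠ 0 := by exact_mod_cast a.factorial_ne_zero
    have h2 : ((a : ℝ) + 1) ≠ 0 := by positivity
    push_cast
    field_simp
    simp
  | succ b ih =>
    rw [RBet.step, ih a, ih (a + 1)]
    have e1 : a + 1 + b + 1 = (a + b + 1) + 1 := by ring
    have e2 : a + (b + 1) + 1 = (a + b + 1) + 1 := by ring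
    rw [e1, e2, Nat.factorial_succ (a + b + 1), Nat.factorial_succ a, Nat.factorial_succ b]
    have h : ((a + b + 1).factorial : ℝ) ≠ 0 := by exact_mod_cast (a + b + 1).factorial_ne_zero
    have h2 : ((a : ℝ) + b + 1 + 1) ≠ 0 := by positivity
    push_cast
    field_simp
    ring

end Pool.Agent.MP_ff3a4f_co.AD
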