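import Pool.Agent.MP_ff3a4f_co.AD.Spec

/-! Row BLK: a large subset of the degenerate configuration contains a block. -/

namespace Pool.Agent.MP_ff3a4f_co.AD

open Finset
open scoped Classical

namespace RBlk

theorem ex_mem {S U J : Finset ℕ} {K : ℕ} (hSU : S ⊆ U) (hK : K ≤ #S) (h : #(U \ J) < K) :
    ∃ x ∈ S, x ∈ J := by
  by_contra hn
  push Not at hn
  have : S ⊆ U \ J := fun x hx => mem_sdiff.2 ⟨hSU hx, hn x hx⟩
  have := card_le_card this
  omega

theorem sgn (T : Finset ℕ) (i : ℕ) :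
    0 < (-1 : ℝ) ^ #{j ∈ T | i < j} * ∏ j ∈ T.erase i, ((i : ℝ) - j) := by
  rw [← prod_filter_mul_prod_filter_not (T.erase i) (fun j => i < j)]
  have h1 : (T.erase i).filter (fun j => i < j) = T.filter (fun j => i < j) := by
    ext j
    simp only [mem_filter, mem_erase]
    exact ⟨fun h => ⟨h.1.2, h.2⟩, fun h => ⟨⟨by omega, h.1⟩, h.2⟩⟩
  rw [h1, ← mul_assoc, ← prod_neg]
  refine mul_pos (prod_pos fun j hj => ?_) (prod_pos fun j hj => ?_)
  · have : (i : ℝ) < j := by exact_mod_cast (mem_filter.1 hj).2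
    linarith
  · obtain ⟨h2, h3⟩ := mem_filter.1 hj
    have h4 := (mem_erase.1 h2).1
    have : (j : ℝ) < i := by exact_mod_cast (by omega : j < i)
    linarith

theorem mom (e : ℕ) (T : Finset ℕ) (hT : #T = e + 1) (j : ℕ) (hj : j ≤ e) :
    ∑ i ∈ T, (i : ℝ) ^ j / ∏ k ∈ T.erase i, ((i : ℝ) - k) = if j = e then 1 else 0 := by
  have h := Lagrange.coeff_eq_sum (s := T) (v := fun i : ℕ => (i : ℝ))
    (Nat.cast_injective.injOn) (P := Polynomial.X ^ j) (by
      rw [Polynomial.degree_X_pow, hT]; exact_mod_cast Nat.lt_succ_of_le hj)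
  simp only [hT, Nat.add_sub_cancel, Polynomial.coeff_X_pow, Polynomial.eval_pow,
    Polynomial.eval_X] at h
  rw [← h]
  by_cases k : j = e
  · simp [k]
  · simp [k, Ne.symm k]

theorem pairs (e K N : ℕ) (J : Finset ℕ) (hN : 2 * (K + e + 1) ≤ N) (h : #(range N \ J) < K) :
    ∃ T ⊆ J, #T = e + 1 ∧ (∀ i ∈ T, i < 2 * (K + e + 1)) ∧ wrong T := by
  have h1 : (range (K + e + 1)).filter (fun a => ¬(2 * a ∈ J ∧ 2 * a + 1 ∈ J)) ⊆
      (range N \ J).image (· / 2) := by
    intro a ha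
    obtain ⟨h2, h3⟩ := mem_filter.1 ha
    have h4 := mem_range.1 h2
    by_cases k : 2 * a ∈ J
    · exact mem_image.2 ⟨2 * a + 1, mem_sdiff.2 ⟨mem_range.2 (by omega), fun k' => h3 ⟨k, k'⟩⟩,
        by omega⟩
    · exact mem_image.2 ⟨2 * a, mem_sdiff.2 ⟨mem_range.2 (by omega), k⟩, by omega⟩
  have h2 := (card_le_card h1).trans card_image_le
  have h3 := card_filter_add_card_filter_not (s := range (K + e + 1))
    (fun a => 2 * a ∈ J ∧ 2 * a + 1 ∈ J)
  rw [card_range] at h3
  obtain ⟨P, hP, hc⟩ := exists_subset_card_eq (s := (range (K + e + 1)).filter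
    fun a => 2 * a ∈ J ∧ 2 * a + 1 ∈ J) (n := e + 1) (by omega)
  set t : ℕ → ℕ := fun a => 2 * a + (#{b ∈ P | a < b} + 1) % 2 with ht
  have t1 : ∀ a, 2 * a ≤ t a ∧ t a ≤ 2 * a + 1 := fun a => by simp only [ht]; omega
  have tl : ∀ a b, t a < t b ↔ a < b ∨ (a = b ∧ t a < t b) := fun a b => by
    have := t1 a; have := t1 b; omega
  have tm : ∀ a b, t a < t b ↔ a < b := fun a b => by
    rw [tl]
    exact ⟨fun k => k.elim id fun k' => absurd k'.2 (by rw [k'.1]; exact lt_irrefl _), Or.inl⟩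
  have ti : Function.Injective t := fun a b k => by
    have := t1 a; have := t1 b; omega
  refine ⟨P.image t, fun i hi => ?_, by rw [card_image_of_injective _ ti, hc], fun i hi => ?_,
    fun i hi => ?_⟩
  · obtain ⟨a, ha, rfl⟩ := mem_image.1 hi
    obtain ⟨-, k1, k2⟩ := mem_filter.1 (hP ha)
    have := t1 a
    rcases (by omega : t a = 2 * a ∨ t a = 2 * a + 1) with k | k <;> rw [k] <;> assumption
  · obtain ⟨a, ha, rfl⟩ := mem_image.1 hi
    have := mem_range.1 (mem_filter.1 (hP ha)).1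
    have := t1 a
    omega
  · obtain ⟨a, ha, rfl⟩ := mem_image.1 hi
    have : (P.image t).filter (fun j => t a < j) = (P.filter fun b => a < b).image t := by
      rw [filter_image]
      congr 1
      exact filter_congr fun b _ => tm a b
    rw [this, card_image_of_injective _ ti, Nat.odd_iff]
    simp only [ht]
    omega

end RBlk

open RBlk in
theorem rblk : BLK := by
  intro e K N J hN h1 h2
  obtain ⟨T, hTJ, hT, hTm, hw⟩ := pairs e K N J (by omega) h1
  obtain ⟨o, ho, hoJ⟩ := ex_mem (S := Ico N (N + K)) (Ico_subset_Ico_right (by omega))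
    (by rw [Nat.card_Ico]; omega) h2
  obtain ⟨b, hb, hbJ⟩ := ex_mem (S := Ico (2 * (K + e + 1)) N)
    (fun x hx => mem_range.2 (mem_Ico.1 hx).2) (by rw [Nat.card_Ico]; omega) h1
  rw [mem_Ico] at ho hb
  have hbT : b ∉ T := fun k => by have := hTm b k; omega
  set H : ℝ := 2 * (2 * (K + e + 1) : ℝ) ^ e + 2 with hH
  have H0 : 0 < H := by positivity
  have cT : ∀ i ∈ T, ∀ j : Fin (e + 1), cfg e K N i j = (-1 : ℝ) ^ i * (i : ℝ) ^ (j : ℕ) :=
    fun i hi j => by simp only [cfg, if_pos (hTm i hi)]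
  have cb : ∀ j : Fin (e + 1), cfg e K N b j = if (j : ℕ) = e then H else 0 := fun j => by
    simp only [cfg, if_neg (by omega : ¬ b < 2 * (K + e + 1)), if_pos hb.2, one_mul, hH]
  refine ⟨insert b T, insert_subset hbJ hTJ, o, hoJ, by omega, insert_nonempty _ _,
    fun i hi => ?_, ho.1, ?_, ?_, fun w hw' => ?_⟩
  · rcases mem_insert.1 hi with rfl | k
    · exact hb.2
    · have := hTm i k; omega
  · ext j
    simp only [cfg, if_neg (by omega : ¬ o < 2 * (K + e + 1)), if_neg (by omega : ¬ o < N),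
      if_pos ho.2, zero_mul, ite_self, PiLp.zero_apply]
  · refine ⟨fun i => if i = b then H⁻¹ else
      -((-1 : ℝ) ^ i / ∏ k ∈ T.erase i, ((i : ℝ) - k)), fun i hi => ?_, ?_⟩
    · rcases mem_insert.1 hi with rfl | k
      · simp only [if_true]; positivity
      · have hib : i ≠ b := fun q => hbT (q ▸ k)
        simp only [if_neg hib]
        have s1 := sgn T i
        have s2 : (-1 : ℝ) ^ i * (-1) ^ #{j ∈ T | i < j} = -1 := by
          rw [← pow_add]; exact (hw i k).neg_one_pow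
        have s3 : ((-1 : ℝ) ^ #{j ∈ T | i < j}) * (-1) ^ #{j ∈ T | i < j} = 1 := by
          rw [← mul_pow]; simp
        have s4 : (-1 : ℝ) ^ i = -(-1) ^ #{j ∈ T | i < j} := by
          linear_combination (-1) ^ #{j ∈ T | i < j} * s2 - (-1 : ℝ) ^ i * s3
        rw [s4, neg_div, neg_neg]
        exact (div_pos_iff.2 (mul_pos_iff.1 s1))
    · ext j
      rw [sum_insert hbT]
      simp only [if_true, PiLp.add_apply, PiLp.smul_apply, smul_eq_mul, WithLp.ofLp_sum,
        Finset.sum_apply, WithLp.ofLp_smul, Pi.smul_apply, PiLp.zero_apply, cb]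
      have hs : ∑ i ∈ T, (if i = b then H⁻¹ else
          -((-1 : ℝ) ^ i / ∏ k ∈ T.erase i, ((i : ℝ) - k))) * cfg e K N i j =
          -∑ i ∈ T, (i : ℝ) ^ (j : ℕ) / ∏ k ∈ T.erase i, ((i : ℝ) - k) := by
        rw [← sum_neg_distrib]
        refine sum_congr rfl fun i hi => ?_
        have hib : i ≠ b := fun q => hbT (q ▸ hi)
        have s3 : ((-1 : ℝ) ^ i) * (-1) ^ i = 1 := by rw [← mul_pow]; simp
        rw [if_neg hib, cT i hi]
        linear_combination (-((i : ℝ) ^ (j : ℕ) / ∏ k ∈ T.erase i, ((i : ℝ) - k))) * s3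
      rw [hs, mom e T hT j (Nat.lt_succ_iff.1 j.2)]
      split_ifs
      · rw [inv_mul_cancel₀ H0.ne']; ring
      · simp
  · have hz : (fun j => w j) = (0 : Fin (e + 1) → ℝ) := by
      refine Matrix.eq_zero_of_forall_index_sum_mul_pow_eq_zero
        (f := fun k : Fin (e + 1) => ((T.orderEmbOfFin hT k : ℕ) : ℝ))
        (Nat.cast_injective.comp (T.orderEmbOfFin hT).injective) fun k => ?_
      have hk := T.orderEmbOfFin_mem hT k
      have h := hw' _ (mem_insert_of_mem hk)
      rw [PiLp.inner_apply] at h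
      simp only [cT _ hk, RCLike.inner_apply, conj_trivial] at h
      have h' : (-1 : ℝ) ^ (T.orderEmbOfFin hT k : ℕ) *
          ∑ j : Fin (e + 1), w j * ((T.orderEmbOfFin hT k : ℕ) : ℝ) ^ (j : ℕ) = 0 := by
        rw [mul_sum, ← h]
        exact sum_congr rfl fun j _ => by ring
      exact (mul_eq_zero.1 h').resolve_left (pow_ne_zero _ (by norm_num))
    ext j
    exact congrFun hz j

end Pool.Agent.MP_ff3a4f_co.AD
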