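import Pool.Agent.MP_ff3a4f_co.AD.Spec

/-! Row BRG: from coloured points to vectors. -/

namespace Pool.Agent.MP_ff3a4f_co.AD

open Finset Pool.Agent.MP_ff3a4f_co.Kirchberger
open scoped Classical

namespace RBrg

variable {d : ℕ}

/-- homogeneous coordinates -/
def hom (x : Pt d) : Vec d := Fin.cons 1 fun i => x i

theorem inner_eq (w x : Pt d) : inner ℝ w x = ∑ i, w i * x i := by
  rw [PiLp.inner_apply]
  exact Finset.sum_congr rfl fun i _ => by simp [mul_comm]

theorem lin_hom (φ : Vec d →ₗ[ℝ] ℝ) :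
    ∃ (w : Pt d) (c : ℝ), ∀ x : Pt d, φ (hom x) = inner ℝ w x - c := by
  refine ⟨WithLp.toLp 2 fun i => φ fun j => if Fin.succ i = j then 1 else 0,
    -φ fun j => if (0 : Fin (d + 1)) = j then 1 else 0, fun x => ?_⟩
  rw [LinearMap.pi_apply_eq_sum_univ, Fin.sum_univ_succ, inner_eq]
  simp only [hom, Fin.cons_zero, Fin.cons_succ, smul_eq_mul, one_mul, sub_neg_eq_add]
  rw [add_comm]
  congr 1
  exact Finset.sum_congr rfl fun i _ => mul_comm _ _

theorem hom_lin (w : Pt d) (c : ℝ) :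
    ∃ φ : Vec d →ₗ[ℝ] ℝ, ∀ x : Pt d, φ (hom x) = inner ℝ w x - c := by
  refine ⟨∑ i : Fin d, w i • LinearMap.proj (Fin.succ i) - c • LinearMap.proj 0, fun x => ?_⟩
  rw [inner_eq]
  simp [hom, LinearMap.sum_apply]

end RBrg

open RBrg in
theorem rbrg : BRG := by
  intro d A B hd hAB hgp
  let s : Pt d → ℝ := fun x => if x ∈ A then 1 else -1
  have hs : ∀ x, s x ≠ 0 := fun x => by
    by_cases h : x ∈ A <;> simp [s, h]
  have hA : ∀ x ∈ A, s x = 1 := fun x h => if_pos h
  have hB : ∀ x ∈ B, s x = -1 := fun x h => if_neg (Finset.disjoint_right.1 hAB h)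
  refine ⟨fun x => s x • hom x, fun S hS hc l hl x hx => ?_, fun S hS => ⟨?_, ?_⟩⟩
  · have h0 : ∑ y ∈ S, l y * s y = 0 := by
      have := congrFun hl 0
      simpa [hom, Finset.sum_apply] using this
    have h1 : ∑ y ∈ S, (l y * s y) • y = 0 := by
      ext i
      have := congrFun hl (Fin.succ i)
      simpa [hom, Finset.sum_apply, mul_assoc] using this
    have h2 := affineIndependent_iff.1 (hgp S hS hc) Finset.univ (fun p => l p * s p)
      (by rw [Finset.sum_coe_sort S (fun y => l y * s y)]; exact h0)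
      (by rw [Finset.sum_coe_sort S (fun y => (l y * s y) • y)]; exact h1) ⟨x, hx⟩
      (Finset.mem_univ _)
    exact (mul_eq_zero.1 h2).resolve_right (hs x)
  · rintro ⟨φ, hφ⟩
    obtain ⟨w, c, h⟩ := lin_hom φ
    refine separated_of_weak hd _ _ w c (fun p hp => ?_) (fun q hq => ?_)
    · have k := hφ p (Finset.mem_inter.1 hp).2
      rw [map_smul, h, hA p (Finset.mem_inter.1 hp).1, smul_eq_mul] at k
      linarith
    · have k := hφ q (Finset.mem_inter.1 hq).2
      rw [map_smul, h, hB q (Finset.mem_inter.1 hq).1, smul_eq_mul] at k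
      linarith
  · rintro ⟨w, c, -, h1, h2⟩
    obtain ⟨φ, h⟩ := hom_lin w c
    refine ⟨φ, fun x hx => ?_⟩
    rw [map_smul, h, smul_eq_mul]
    rcases Finset.mem_union.1 (hS hx) with k | k
    · rw [hA x k]
      linarith [h1 x (Finset.mem_inter.2 ⟨k, hx⟩)]
    · rw [hB x k]
      linarith [h2 x (Finset.mem_inter.2 ⟨k, hx⟩)]

end Pool.Agent.MP_ff3a4f_co.AD
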