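import Pool.Agent.MP_ff3a4f_co.AD.Spec

/-! Row CNT: the lower bound for the number of infeasible sets. -/

namespace Pool.Agent.MP_ff3a4f_co.AD

open Finset
open scoped Classical

namespace RCnt

/-- Summation of an affine inequality over all pairs. -/
theorem sum_pairs {ι : Type} (A B : Finset ι) (N : ℕ) (hA : #A = N) (hB : #B = N)
    (g c : ι → ι → ℕ) (a b e : ℝ) (h : ∀ α ∈ A, ∀ β ∈ B, a - b * g α β ≤ e * c α β) :
    a * (N : ℝ) ^ 2 - b * ((∑ α ∈ A, ∑ β ∈ B, g α β : ℕ) : ℝ) ≤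
      e * ((∑ α ∈ A, ∑ β ∈ B, c α β : ℕ) : ℝ) := by
  have h1 := sum_le_sum fun α hα => sum_le_sum fun β hβ => h α hα β hβ
  simp only [sum_sub_distrib, sum_const, nsmul_eq_mul, hA, hB, ← mul_sum] at h1
  push_cast
  calc _ = N * (N * a) - b * ∑ α ∈ A, ∑ β ∈ B, (g α β : ℝ) := by ring
    _ ≤ _ := h1

end RCnt

theorem rcnt : PAI → SUM → GAM → NUM → CNT := by
  intro hP hS hG hN d η hd hη
  obtain ⟨ρ₀, h0, hN⟩ := hN d η hd hη
  refine ⟨ρ₀, h0, fun ρ hρ hρ' ι _ N K v A B hdN hD hK => ?_⟩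
  obtain ⟨k₀, θ, k, hk0, hθ, hθ1, hdk, n1, n2⟩ := hN ρ hρ hρ'
  by_contra hc
  rw [not_lt] at hc
  have hN0 : (0 : ℝ) < N := by exact_mod_cast (by omega : 0 < N)
  have hN2 : (0 : ℝ) < (N : ℝ) ^ 2 := by positivity
  obtain ⟨P, hPe⟩ : ∃ P : ℝ, P = ρ * N := ⟨_, rfl⟩
  rw [← hPe] at hc
  have hP0 : 0 < P := by rw [hPe]; positivity
  have hK' : (1 + η) * P < K := by rw [hPe, ← mul_assoc]; exact hK
  have hK0 : (0 : ℝ) < K := lt_trans (by positivity) hK'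
  have hK1 : 1 ≤ K := by exact_mod_cast hK0
  obtain ⟨Z, hZ⟩ : ∃ Z : ℕ, Z = #(bads v (A ∪ B)) := ⟨_, rfl⟩
  obtain ⟨C, hC⟩ : ∃ C : ℕ, C = ∑ α ∈ A, ∑ β ∈ B, #(both v (A ∪ B) α β) := ⟨_, rfl⟩
  obtain ⟨G, hGe⟩ : ∃ G : ℕ, G = ∑ α ∈ A, ∑ β ∈ B, #(gam v (A ∪ B) α β) := ⟨_, rfl⟩
  have s1 := hS ι d v A B hD.dis hD.gp
  have s2 := hG ι d v A B hD.dis
  rw [card_union_of_disjoint hD.dis, hD.ca, hD.cb, ← hC, ← hZ] at s1
  rw [← hGe, ← hZ] at s2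
  rw [← hZ] at hc
  have s1' : 4 * (C : ℝ) ≤ (N + N) * Z := by exact_mod_cast s1
  have s2' : (G : ℝ) ≤ (d + 2) ^ 2 * Z := by exact_mod_cast s2
  have hf : (1 : ℝ) ≤ d.factorial := by exact_mod_cast d.factorial_pos
  have hZ0 : (0 : ℝ) ≤ Z := Nat.cast_nonneg _
  have t1 : (d.factorial : ℝ) * C ≤ (N : ℝ) ^ 2 * P ^ (d + 1) := by
    have a1 := mul_le_mul_of_nonneg_left s1' (zero_le_one.trans hf)
    have a2 := mul_le_mul_of_nonneg_left hc hN0.le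
    linarith
  have t2 : (G : ℝ) ≤ (N : ℝ) ^ 2 * (2 * (d + 2) ^ 2 * ρ * P ^ d) := by
    have a1 : (Z : ℝ) ≤ 2 * N * P ^ (d + 1) := (le_mul_of_one_le_left hZ0 hf).trans hc
    have a2 := mul_le_mul_of_nonneg_left a1 (by positivity : (0 : ℝ) ≤ (d + 2) ^ 2)
    refine (s2'.trans a2).trans (le_of_eq ?_)
    rw [pow_succ P d]
    nth_rewrite 2 [hPe]
    ring
  rcases le_or_gt P k₀ with h | h
  · have u := RCnt.sum_pairs A B N hD.ca hD.cb (fun α β => #(gam v (A ∪ B) α β))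
      (fun α β => #(both v (A ∪ B) α β)) ((K : ℝ) ^ (d + 1)) ((K : ℝ) ^ (d + 1)) d.factorial
      fun α hα β hβ => by
        have := hP.all ι d N K v A B hd hK1 hdN hD α hα β hβ
        linarith
    rw [← hC, ← hGe] at u
    obtain ⟨g, hg⟩ : ∃ g : ℝ, g = 2 * (d + 2) ^ 2 * ρ * k₀ ^ d := ⟨_, rfl⟩
    rw [← hg] at n1
    have a1 : (G : ℝ) ≤ (N : ℝ) ^ 2 * g := by
      refine t2.trans (mul_le_mul_of_nonneg_left ?_ hN2.le)
      rw [hg]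
      gcongr
    have a2 : 0 < 1 - g := by
      by_contra k1
      have := mul_nonpos_of_nonneg_of_nonpos (by positivity : (0 : ℝ) ≤ (1 + η) ^ (d + 1))
        (not_lt.1 k1)
      linarith
    have a3 : ((1 + η) * P) ^ (d + 1) < (K : ℝ) ^ (d + 1) :=
      pow_lt_pow_left₀ hK' (by positivity) (by omega)
    rw [mul_pow] at a3
    have a4 := mul_lt_mul_of_pos_right a3 a2
    have a5 := mul_le_mul_of_nonneg_left n1 (by positivity : (0 : ℝ) ≤ P ^ (d + 1))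
    have a6 : P ^ (d + 1) < (K : ℝ) ^ (d + 1) * (1 - g) := by linarith
    have a7 := mul_lt_mul_of_pos_left a6 hN2
    have a8 := mul_le_mul_of_nonneg_left a1 (by positivity : (0 : ℝ) ≤ (K : ℝ) ^ (d + 1))
    linarith
  · obtain ⟨r, hr⟩ : ∃ r : ℝ, r = k₀ / P := ⟨_, rfl⟩
    have hr0 : 0 < r := by rw [hr]; positivity
    have hr1 : r ≤ 1 := by rw [hr, div_le_one hP0]; exact h.le
    have hrP : r * P = k₀ := by rw [hr]; field_simp
    have hNr : 2 * N * r = 2 * k₀ / ρ := by rw [← hrP, hPe]; field_simp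
    obtain ⟨E, hE⟩ : ∃ E : ℝ, E = (1 + (2 * k₀ / ρ) ^ d) *
      (Real.exp (-((1 + η) * k₀ * (1 - θ))) / θ ^ k) := ⟨_, rfl⟩
    rw [← hE] at n2
    have hE' : (1 + (2 * N * r) ^ d) * (Real.exp (-(r * K * (1 - θ))) / θ ^ k) ≤ E := by
      rw [hE, hNr]
      have b1 : (1 + η) * k₀ ≤ r * K := by
        have := mul_le_mul_of_nonneg_left hK'.le hr0.le
        rw [← hrP]
        linarith
      have b2 := mul_le_mul_of_nonneg_right b1 (sub_nonneg.2 hθ1)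
      gcongr
    have hk : (0 : ℝ) ≤ (k : ℝ) ^ (d + 1) := by positivity
    have u := RCnt.sum_pairs A B N hD.ca hD.cb (fun α β => #(gam v (A ∪ B) α β))
      (fun α β => #(both v (A ∪ B) α β)) ((k : ℝ) ^ (d + 1) * (1 - E))
      ((k : ℝ) ^ (d + 1) * r ^ d) (r ^ (d + 1) * d.factorial)
      fun α hα β hβ => by
        have b1 := hP.sam ι d N K k v A B r θ hd hdk hdN hr0.le hr1 hθ hθ1 hD α hα β hβ
        have b2 := mul_le_mul_of_nonneg_left hE' hk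
        linarith
    rw [← hC, ← hGe] at u
    have a1 := mul_le_mul_of_nonneg_left t1 (by positivity : (0 : ℝ) ≤ r ^ (d + 1))
    have a2 := mul_le_mul_of_nonneg_left t2 (by positivity : (0 : ℝ) ≤ (k : ℝ) ^ (d + 1) * r ^ d)
    have a3 : r ^ (d + 1) * ((N : ℝ) ^ 2 * P ^ (d + 1)) = (N : ℝ) ^ 2 * k₀ ^ (d + 1) := by
      rw [← hrP, mul_pow]; ring
    have a4 : (k : ℝ) ^ (d + 1) * r ^ d * ((N : ℝ) ^ 2 * (2 * (d + 2) ^ 2 * ρ * P ^ d)) =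
        (N : ℝ) ^ 2 * ((k : ℝ) ^ (d + 1) * (2 * (d + 2) ^ 2 * ρ * k₀ ^ d)) := by
      rw [← hrP, mul_pow]; ring
    have a5 := mul_lt_mul_of_pos_left n2 hN2
    linarith

end Pool.Agent.MP_ff3a4f_co.AD
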