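import Pool.Agent.MP_ff3a4f_co.AD.Spec

/-! Row DOW: the lower bound from the construction and the numerical estimate. -/

namespace Pool.Agent.MP_ff3a4f_co.AD

theorem rdow : LOW → LNU → DOW := by
  intro hlow hnum d η hd hη
  obtain ⟨ρ₀, h0, h⟩ := hnum d (min η (1 / 2)) hd (lt_min hη (by norm_num))
    ((min_le_right _ _).trans_lt (by norm_num))
  refine ⟨ρ₀, h0, fun ρ hρ hρ' hw => ?_⟩
  obtain ⟨K, N, k1, k2, k3⟩ := h ρ hρ hρ'
  obtain ⟨A, B, a1, a2, a3, a4, a5, a6⟩ := hlow d K N hd k1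
  have a5' := (Nat.cast_le (α := ℝ)).2 a5
  rw [Nat.cast_add] at a5'
  obtain ⟨A', b1, B', b2, b3, b4, b5⟩ := hw N A B a1 a2 a3 a4 (by linarith)
  have hm : (1 - η) * (ρ * N) ≤ (1 - min η (1 / 2)) * (ρ * N) :=
    mul_le_mul_of_nonneg_right (by linarith [min_le_left η (1 / 2)]) (by positivity)
  rcases a6 A' b1 B' b2 b3 with c | c
  all_goals
    have c' := (Nat.cast_le (α := ℝ)).2 c
    rw [Nat.cast_add] at c'
    linarith

end Pool.Agent.MP_ff3a4f_co.AD
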