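import Mathlib.Analysis.SpecialFunctions.Integrals.Basic
import Mathlib.LinearAlgebra.Lagrange
import Mathlib.LinearAlgebra.Vandermonde
import Pool.Agent.MP_ff3a4f_co.Kirchberger

/-! The sharp constant in every dimension: statements of the rows. -/

namespace Pool.Agent.MP_ff3a4f_co.AD

open Finset Pool.Agent.MP_ff3a4f_co.Kirchberger
open scoped Classical

noncomputable section

/-! ### A. The two-colour counting inequality -/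

def DIF : Prop := ∀ (ι : Type) (U : Finset ι) (h : ι → ℝ) (w : ℝ), (∀ x ∈ U, 0 ≤ h x) →
  0 ≤ ∑ R ∈ U.powerset, (-1 : ℝ) ^ #R * max (w - ∑ x ∈ R, h x) 0 ^ #U ∧
    ∑ R ∈ U.powerset, (-1 : ℝ) ^ #R * max (w - ∑ x ∈ R, h x) 0 ^ #U ≤ (#U).factorial * ∏ x ∈ U, h x

def BET : Prop := ∀ a b : ℕ, ∫ s in (0 : ℝ)..1, s ^ a * (1 - s) ^ b =
  (a.factorial * b.factorial : ℝ) / (a + b + 1).factorial

def FEY : Prop := ∀ (d : ℕ) (X z : ℝ), 1 ≤ d → 0 ≤ X →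
  (X + z) * ((d + 1) * ∫ s in (0 : ℝ)..1, max ((1 - s) * z - s * X) 0 ^ d) = max z 0 ^ (d + 1)

/-- The test function. -/
def tf (d : ℕ) (κ i j : ℝ) : ℝ :=
  if κ ≤ j then (d + 1) * ∫ s in (0 : ℝ)..1, max ((1 - s) * (κ - i) - s * (j - κ)) 0 ^ d else 0

/-- The properties of the test function. -/
structure TST : Prop where
  val : ∀ (d : ℕ) (κ i j : ℝ), 1 ≤ d → (κ ≤ i ∨ κ ≤ j) →
    (j - i) * tf d κ i j = max (κ - i) 0 ^ (d + 1)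
  dif : ∀ (ι : Type) [DecidableEq ι] (U A B : Finset ι) (κ i j : ℝ), 1 ≤ #U → Disjoint A B →
    U ⊆ A ∪ B → (κ ≤ i ∨ κ ≤ j) →
    0 ≤ ∑ R ∈ U.powerset, (-1 : ℝ) ^ #R * tf (#U) κ (i + #(R ∩ A)) (j + #(R ∩ B)) ∧
      ∑ R ∈ U.powerset, (-1 : ℝ) ^ #R * tf (#U) κ (i + #(R ∩ A)) (j + #(R ∩ B)) ≤
        (#(U ∩ A)).factorial * (#(U ∩ B)).factorial

/-- A pivotal element has exactly one basis without violators. -/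
structure Piv {ι : Type} [DecidableEq ι] (d : ℕ) (V : Finset ι) (feas : Finset ι → Prop)
    (W : Finset ι → Finset ι) : Prop where
  cnt : ∀ h ∈ V, ∀ S ⊆ V.erase h,
    ((if feas S then 1 else 0) - if feas (insert h S) then 1 else 0 : ℝ) =
      #{U ∈ S.powersetCard d | ¬ feas (insert h U) ∧ Disjoint S (W U)}
  mem : ∀ h ∈ V, ∀ U ⊆ V.erase h, #U = d → ¬ feas (insert h U) → h ∈ W U
  sub : ∀ U ⊆ V, #U = d → W U ⊆ V ∧ Disjoint U (W U)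

def MOB : Prop := ∀ (ι : Type) [DecidableEq ι] (d : ℕ) (V : Finset ι) (feas : Finset ι → Prop)
  (W : Finset ι → Finset ι), Piv d V feas W → ∃ μ : Finset ι → ℝ,
    μ ∅ = (if feas V then 1 else 0) ∧
    (∀ h ∈ V, ∀ F : Finset ι → ℝ, ∑ Z ∈ V.powerset with h ∈ Z, μ Z * F Z =
      ∑ U ∈ (V.erase h).powersetCard d with ¬ feas (insert h U),
        ∑ R ∈ U.powerset, (-1 : ℝ) ^ #R * F (W U ∪ R)) ∧
    ∀ A ⊆ V, (∀ S ⊆ A, feas S) → ∀ n : Finset ι → ℝ, ∑ Z ∈ V.powerset, μ Z * n (Z ∩ A) = n ∅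

def LYM : Prop := ∀ (ι : Type) [DecidableEq ι] (d k : ℕ) (A B : Finset ι)
  (feas : Finset ι → Prop) (W : Finset ι → Finset ι), 1 ≤ d → Disjoint A B →
  Piv d (A ∪ B) feas W → (∀ S ⊆ A, feas S) → ¬ feas (A ∪ B) →
  (∀ U ⊆ A ∪ B, #U = d → k ≤ #(W U ∩ A) ∨ k ≤ #(W U ∩ B)) →
    k ^ (d + 1) ≤ ∑ T ∈ (A ∪ B).powersetCard (d + 1) with ¬ feas T,
      (#(T ∩ A)).factorial * (#(T ∩ B)).factorial

/-! ### B. Vectors in general position -/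

section
variable {ι : Type} [DecidableEq ι] {d : ℕ}

abbrev Vec (d : ℕ) : Type := Fin (d + 1) → ℝ

def Feas (v : ι → Vec d) (S : Finset ι) : Prop := ∃ φ : Vec d →ₗ[ℝ] ℝ, ∀ x ∈ S, 0 < φ (v x)

def GP (v : ι → Vec d) (Y : Finset ι) : Prop :=
  ∀ S ⊆ Y, #S ≤ d + 1 → ∀ l : ι → ℝ, ∑ x ∈ S, l x • v x = 0 → ∀ x ∈ S, l x = 0

/-- The vertices of the arrangement in the slice `φ (v α) = 1`. -/
def Vx (v : ι → Vec d) (Y : Finset ι) (α : ι) (φ : Finset ι → Vec d →ₗ[ℝ] ℝ) : Prop :=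
  ∀ U ⊆ Y.erase α, #U = d →
    φ U (v α) = 1 ∧ (∀ u ∈ U, φ U (v u) = 0) ∧ ∀ x ∈ Y, x ∉ U → φ U (v x) ≠ 0

def vio (v : ι → Vec d) (φ : Finset ι → Vec d →ₗ[ℝ] ℝ) (X U : Finset ι) : Finset ι :=
  X.filter fun x => φ U (v x) < 0

/-- Sets that are infeasible with `α` and with `β`. -/
def both (v : ι → Vec d) (X : Finset ι) (α β : ι) : Finset (Finset ι) :=
  (X.powersetCard (d + 1)).filter fun T =>
    α ∉ T ∧ β ∉ T ∧ ¬ Feas v (insert α T) ∧ ¬ Feas v (insert β T)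

def gam (v : ι → Vec d) (X : Finset ι) (α β : ι) : Finset (Finset ι) :=
  (X.powersetCard d).filter fun U => α ∉ U ∧ β ∉ U ∧ ¬ Feas v (insert α (insert β U))

def bads (v : ι → Vec d) (X : Finset ι) : Finset (Finset ι) :=
  (X.powersetCard (d + 2)).filter fun S => ¬ Feas v S

/-- Two colour classes of size `N` without a large feasible pair. -/
structure Deep (v : ι → Vec d) (A B : Finset ι) (N K : ℕ) : Prop where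
  dis : Disjoint A B
  ca : #A = N
  cb : #B = N
  gp : GP v (A ∪ B)
  fa : Feas v A
  fb : Feas v B
  dep : ∀ A' ⊆ A, ∀ B' ⊆ B, Feas v (A' ∪ B') → #A' + K ≤ N ∨ #B' + K ≤ N

omit [DecidableEq ι] in
theorem Feas.mono {v : ι → Vec d} {S T : Finset ι} (h : S ⊆ T) (k : Feas v T) : Feas v S :=
  let ⟨φ, a⟩ := k; ⟨φ, fun x hx => a x (h hx)⟩

end

structure LIN : Prop where
  far : ∀ (ι : Type) (d : ℕ) (v : ι → Vec d) (S : Finset ι), ¬ Feas v S ↔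
    ∃ l : ι → ℝ, (∀ x ∈ S, 0 ≤ l x) ∧ (∃ x ∈ S, l x ≠ 0) ∧ ∑ x ∈ S, l x • v x = 0
  pre : ∀ (ι : Type) (d : ℕ) (v : ι → Vec d) (Y S : Finset ι) (y : ι → ℝ), GP v Y → S ⊆ Y →
    #S ≤ d + 1 → ∃ φ : Vec d →ₗ[ℝ] ℝ, ∀ x ∈ S, φ (v x) = y x
  dex : ∀ (ι : Type) (d : ℕ) (v : ι → Vec d) (S : Finset ι), d + 2 ≤ #S →
    ∃ l : ι → ℝ, (∃ x ∈ S, l x ≠ 0) ∧ ∑ x ∈ S, l x • v x = 0

def AFF : Prop := ∀ (ι : Type) [DecidableEq ι] (d : ℕ) (v : ι → Vec d) (Y : Finset ι) (α : ι),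
  GP v Y → α ∈ Y → ∃ φ, Vx v Y α φ

def TWO : Prop := ∀ (ι : Type) [DecidableEq ι] (d : ℕ) (v : ι → Vec d) (Y F : Finset ι),
  GP v Y → F ⊆ Y → #F = d + 3 → ∀ p ∈ F, ∀ q ∈ F, ∀ r ∈ F, p ≠ q → p ≠ r → q ≠ r →
    ¬ Feas v (F.erase p) → ¬ Feas v (F.erase q) → ¬ Feas v (F.erase r) → False

def OTH : Prop := ∀ (ι : Type) [DecidableEq ι] (d : ℕ) (v : ι → Vec d) (Y F : Finset ι),
  GP v Y → F ⊆ Y → d + 3 ≤ #F → ∀ p ∈ F, ¬ Feas v F → ∃ q ∈ F, q ≠ p ∧ ¬ Feas v (F.erase q)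

def KIR : Prop := ∀ (ι : Type) [DecidableEq ι] (d : ℕ) (v : ι → Vec d) (Y S : Finset ι) (α h : ι),
  GP v Y → α ∈ Y → h ∈ Y → h ≠ α → S ⊆ (Y.erase α).erase h → Feas v (insert α S) →
  ¬ Feas v (insert α (insert h S)) → ∃ U ⊆ S, #U = d ∧ ¬ Feas v (insert α (insert h U))

def PVE : Prop := ∀ (ι : Type) [DecidableEq ι] (d : ℕ) (v : ι → Vec d) (Y S : Finset ι) (α h : ι)
  (φ : Finset ι → Vec d →ₗ[ℝ] ℝ), GP v Y → α ∈ Y → Vx v Y α φ → h ∈ Y → h ≠ α →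
  S ⊆ (Y.erase α).erase h → Feas v (insert α S) → ¬ Feas v (insert α (insert h S)) →
    ∃ U ⊆ S, #U = d ∧ ¬ Feas v (insert α (insert h U)) ∧ ∀ x ∈ S, 0 ≤ φ U (v x)

def PVU : Prop := ∀ (ι : Type) [DecidableEq ι] (d : ℕ) (v : ι → Vec d) (Y : Finset ι) (α h : ι)
  (φ : Finset ι → Vec d →ₗ[ℝ] ℝ), GP v Y → α ∈ Y → Vx v Y α φ → h ∈ Y → h ≠ α →
  ∀ U ⊆ (Y.erase α).erase h, #U = d → ¬ Feas v (insert α (insert h U)) → φ U (v h) < 0 ∧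
    ∀ U' ⊆ (Y.erase α).erase h, #U' = d → ¬ Feas v (insert α (insert h U')) →
      (∀ x ∈ U', 0 ≤ φ U (v x)) → (∀ x ∈ U, 0 ≤ φ U' (v x)) → U = U'

def PVS : Prop := ∀ (ι : Type) [DecidableEq ι] (d : ℕ) (v : ι → Vec d) (Y S U : Finset ι) (α : ι)
  (φ : Finset ι → Vec d →ₗ[ℝ] ℝ), GP v Y → Vx v Y α φ → U ⊆ Y.erase α → #U = d → S ⊆ Y →
  (∀ x ∈ S, 0 ≤ φ U (v x)) → Feas v S

def PVV : Prop := ∀ (ι : Type) [DecidableEq ι] (d : ℕ) (v : ι → Vec d) (Y X : Finset ι) (α : ι)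
  (φ : Finset ι → Vec d →ₗ[ℝ] ℝ), GP v Y → α ∈ Y → Vx v Y α φ → X ⊆ Y.erase α → d ≤ #X →
  Feas v (insert α X) → ∃ U ⊆ X, #U = d ∧ ∀ x ∈ X, 0 ≤ φ U (v x)

def PIV : Prop := ∀ (ι : Type) [DecidableEq ι] (d : ℕ) (v : ι → Vec d) (Y X : Finset ι) (α : ι)
  (φ : Finset ι → Vec d →ₗ[ℝ] ℝ), GP v Y → α ∈ Y → Vx v Y α φ → X ⊆ Y.erase α →
  Piv d X (fun S => Feas v (insert α S)) (vio v φ X)

/-- One sample. -/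
def ONE : Prop := ∀ (ι : Type) [DecidableEq ι] (d k : ℕ) (v : ι → Vec d) (A B X : Finset ι)
  (α β : ι) (φ : Finset ι → Vec d →ₗ[ℝ] ℝ), 1 ≤ d → 1 ≤ k → Disjoint A B → GP v (A ∪ B) →
  Feas v A → Feas v B → α ∈ A → β ∈ B → Vx v (A ∪ B) α φ → X ⊆ (A ∪ B).erase α → d ≤ #X →
  (∀ U ⊆ X, #U = d → k ≤ #(vio v φ X U ∩ A) ∨ k ≤ #(vio v φ X U ∩ B)) → gam v X α β = ∅ →
    k ^ (d + 1) ≤ d.factorial * #(both v X α β)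

def SAM : Prop := ∀ (ι : Type) [DecidableEq ι] (d k K : ℕ) (V : Finset ι)
  (𝒯 Γ : Finset (Finset ι)) (Z : Finset ι → Finset ι) (r θ M : ℝ), 0 ≤ r → r ≤ 1 → 0 < θ → θ ≤ 1 →
  0 ≤ M → d ≤ k → d ≤ #V → 𝒯 ⊆ V.powersetCard (d + 1) → Γ ⊆ V.powersetCard d →
  (∀ U ⊆ V, #U = d → Z U ⊆ V ∧ Disjoint U (Z U) ∧ K ≤ #(Z U)) →
  (∀ X ⊆ V, d ≤ #X → (∀ U ⊆ X, #U = d → k ≤ #(Z U ∩ X)) → (∀ U ∈ Γ, ¬ U ⊆ X) →
    M ≤ #{T ∈ 𝒯 | T ⊆ X}) →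
  M * (1 - (1 + (#V * r) ^ d) * (Real.exp (-(r * K * (1 - θ))) / θ ^ k) - r ^ d * #Γ) ≤
    r ^ (d + 1) * #𝒯

structure PAI : Prop where
  all : ∀ (ι : Type) [DecidableEq ι] (d N K : ℕ) (v : ι → Vec d) (A B : Finset ι), 1 ≤ d → 1 ≤ K →
    d + 1 ≤ 2 * N → Deep v A B N K → ∀ α ∈ A, ∀ β ∈ B,
      (K : ℝ) ^ (d + 1) * (1 - #(gam v (A ∪ B) α β)) ≤ d.factorial * #(both v (A ∪ B) α β)
  sam : ∀ (ι : Type) [DecidableEq ι] (d N K k : ℕ) (v : ι → Vec d) (A B : Finset ι) (r θ : ℝ),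
    1 ≤ d → d ≤ k → d + 1 ≤ 2 * N → 0 ≤ r → r ≤ 1 → 0 < θ → θ ≤ 1 → Deep v A B N K →
    ∀ α ∈ A, ∀ β ∈ B,
      (k : ℝ) ^ (d + 1) * (1 - (1 + (2 * N * r) ^ d) * (Real.exp (-(r * K * (1 - θ))) / θ ^ k) -
        r ^ d * #(gam v (A ∪ B) α β)) ≤ r ^ (d + 1) * (d.factorial * #(both v (A ∪ B) α β))

def SUM : Prop := ∀ (ι : Type) [DecidableEq ι] (d : ℕ) (v : ι → Vec d) (A B : Finset ι),
  Disjoint A B → GP v (A ∪ B) →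
    4 * ∑ α ∈ A, ∑ β ∈ B, #(both v (A ∪ B) α β) ≤ #(A ∪ B) * #(bads v (A ∪ B))

def GAM : Prop := ∀ (ι : Type) [DecidableEq ι] (d : ℕ) (v : ι → Vec d) (A B : Finset ι),
  Disjoint A B → ∑ α ∈ A, ∑ β ∈ B, #(gam v (A ∪ B) α β) ≤ (d + 2) ^ 2 * #(bads v (A ∪ B))

def NUM : Prop := ∀ (d : ℕ) (η : ℝ), 1 ≤ d → 0 < η → ∃ ρ₀ : ℝ, 0 < ρ₀ ∧ ∀ ρ, 0 < ρ → ρ < ρ₀ →
  ∃ (k₀ θ : ℝ) (k : ℕ), 0 < k₀ ∧ 0 < θ ∧ θ ≤ 1 ∧ d ≤ k ∧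
    1 ≤ (1 + η) ^ (d + 1) * (1 - 2 * (d + 2) ^ 2 * ρ * k₀ ^ d) ∧
    k₀ ^ (d + 1) < (k : ℝ) ^ (d + 1) * (1 - (1 + (2 * k₀ / ρ) ^ d) *
      (Real.exp (-((1 + η) * k₀ * (1 - θ))) / θ ^ k) - 2 * (d + 2) ^ 2 * ρ * k₀ ^ d)

/-- The lower bound for the number of infeasible sets. -/
def CNT : Prop := ∀ (d : ℕ) (η : ℝ), 1 ≤ d → 0 < η → ∃ ρ₀ : ℝ, 0 < ρ₀ ∧ ∀ ρ, 0 < ρ → ρ < ρ₀ →
  ∀ (ι : Type) [DecidableEq ι] (N K : ℕ) (v : ι → Vec d) (A B : Finset ι), d + 1 ≤ 2 * N →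
    Deep v A B N K → (1 + η) * ρ * N < K →
      2 * N * (ρ * N) ^ (d + 1) < d.factorial * (#(bads v (A ∪ B)) : ℝ)

/-! ### C. Points -/

abbrev Pt (d : ℕ) : Type := EuclideanSpace ℝ (Fin d)

/-- `γ` is an admissible value of `g ε` in dimension `d`. -/
def Works (d : ℕ) (ε γ : ℝ) : Prop :=
  ∀ (N : ℕ) (A B : Finset (EuclideanSpace ℝ (Fin d))),
    Disjoint A B → A.card = N → B.card = N → GeneralPosition (A ∪ B) →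
    (1 - ε) * ((2 * N).choose (d + 2) : ℝ) ≤ (goodSets A B).card →
    ∃ A' ⊆ A, ∃ B' ⊆ B, Separated A' B' ∧ (1 - γ) * N ≤ A'.card ∧ (1 - γ) * N ≤ B'.card

def BRG : Prop := ∀ (d : ℕ) (A B : Finset (Pt d)), 1 ≤ d → Disjoint A B →
  GeneralPosition (A ∪ B) → ∃ v : Pt d → Vec d, GP v (A ∪ B) ∧
    ∀ S ⊆ A ∪ B, (Feas v S ↔ Separated (A ∩ S) (B ∩ S))

def cd (d : ℕ) : ℝ := (d + 1) * (d + 2) / 2 ^ (d + 1)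

def UPP : Prop := ∀ (d : ℕ) (η : ℝ), 1 ≤ d → 0 < η → ∃ ρ₀ : ℝ, 0 < ρ₀ ∧ ∀ ρ, 0 < ρ → ρ < ρ₀ →
  Works d (cd d * ρ ^ (d + 1)) ((1 + η) * ρ)

/-- Labelled points, the first `N` of the first colour, are separated. -/
def LSep {d : ℕ} (N : ℕ) (p : ℕ → Pt d) (S : Finset ℕ) : Prop :=
  ∃ (w : Pt d) (c : ℝ), ∀ i ∈ S, (i < N → c < inner ℝ w (p i)) ∧ (N ≤ i → inner ℝ w (p i) < c)

def PER : Prop := ∀ (d : ℕ) (I : Finset ℕ) (p : ℕ → Pt d) (δ : ℝ), 1 ≤ d → 0 < δ →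
  ∃ p' : ℕ → Pt d, (∀ i ∈ I, ‖p' i - p i‖ < δ) ∧ Set.InjOn p' I ∧ GeneralPosition (I.image p')

def OPN : Prop := ∀ (d N : ℕ) (I : Finset ℕ) (p : ℕ → Pt d), ∃ δ : ℝ, 0 < δ ∧
  ∀ p' : ℕ → Pt d, (∀ i ∈ I, ‖p' i - p i‖ < δ) → ∀ S ⊆ I, LSep N p S → LSep N p' S

/-- The origin `p o` lies inside the simplex on `T`. -/
def Blk {d : ℕ} (N : ℕ) (p : ℕ → Pt d) (T : Finset ℕ) (o : ℕ) : Prop :=
  T.Nonempty ∧ (∀ i ∈ T, i < N) ∧ N ≤ o ∧ p o = 0 ∧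
    (∃ l : ℕ → ℝ, (∀ i ∈ T, 0 < l i) ∧ ∑ i ∈ T, l i • p i = 0) ∧
    ∀ w : Pt d, (∀ i ∈ T, inner ℝ w (p i) = 0) → w = 0

def ROB : Prop := ∀ (d N : ℕ) (I : Finset ℕ) (p : ℕ → Pt d), ∃ δ : ℝ, 0 < δ ∧
  ∀ p' : ℕ → Pt d, (∀ i ∈ I, ‖p' i - p i‖ < δ) → ∀ T ⊆ I, ∀ o ∈ I, Blk N p T o →
    ¬ LSep N p' (insert o T)

/-- The degenerate configuration in dimension `e + 1`. -/
def cfg (e K N : ℕ) (i : ℕ) : Pt (e + 1) := WithLp.toLp 2 fun j : Fin (e + 1) =>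
  if i < 2 * (K + e + 1) then (-1 : ℝ) ^ i * (i : ℝ) ^ (j : ℕ)
  else if (j : ℕ) = e then
    (if i < N then 1 else if i < N + K then 0 else -1) * (2 * (2 * (K + e + 1) : ℝ) ^ e + 2)
  else 0

def wrong (T : Finset ℕ) : Prop := ∀ i ∈ T, Odd (i + #{j ∈ T | i < j})

def POL : Prop := ∀ (e : ℕ) (T : Finset ℕ), #T ≤ e + 1 → ¬ (#T = e + 1 ∧ wrong T) →
  ∃ w : Fin (e + 1) → ℝ, 0 < w (Fin.last e) ∧
    ∀ i ∈ T, 0 < (-1 : ℝ) ^ i * ∑ j, w j * (i : ℝ) ^ (j : ℕ)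

def WRC : Prop := ∀ d m : ℕ, #{T ∈ (range (2 * m)).powersetCard d | wrong T} ≤ (m + d).choose d

def GOO : Prop := ∀ e K N : ℕ, 2 * (K + e + 1) ≤ N →
  #{S ∈ (range (2 * N)).powersetCard (e + 3) | ¬ LSep N (cfg e K N) S} ≤
    K * (2 * (K + e + 1)).choose (e + 2) + 2 * N * K * (K + 2 * (e + 1)).choose (e + 1)

def BLK : Prop := ∀ (e K N : ℕ) (J : Finset ℕ), 3 * (K + e + 1) ≤ N → #(range N \ J) < K →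
  #(Ico N (2 * N) \ J) < K → ∃ T ⊆ J, ∃ o ∈ J, o < 2 * N ∧ Blk N (cfg e K N) T o

def LOW : Prop := ∀ d K N : ℕ, 1 ≤ d → 3 * (K + d) ≤ N → ∃ A B : Finset (Pt d), Disjoint A B ∧
  #A = N ∧ #B = N ∧ GeneralPosition (A ∪ B) ∧
  (2 * N).choose (d + 2) ≤ #(goodSets A B) +
    (K * (2 * (K + d)).choose (d + 1) + 2 * N * K * (K + 2 * d).choose d) ∧
  ∀ A' ⊆ A, ∀ B' ⊆ B, Separated A' B' → #A' + K ≤ N ∨ #B' + K ≤ N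

def LNU : Prop := ∀ (d : ℕ) (η : ℝ), 1 ≤ d → 0 < η → η < 1 → ∃ ρ₀ : ℝ, 0 < ρ₀ ∧
  ∀ ρ, 0 < ρ → ρ < ρ₀ → ∃ K N : ℕ, 3 * (K + d) ≤ N ∧ (1 - η) * ρ * N < K ∧
    ((K * (2 * (K + d)).choose (d + 1) + 2 * N * K * (K + 2 * d).choose d : ℕ) : ℝ) ≤
      cd d * ρ ^ (d + 1) * (2 * N).choose (d + 2)

def DOW : Prop := ∀ (d : ℕ) (η : ℝ), 1 ≤ d → 0 < η → ∃ ρ₀ : ℝ, 0 < ρ₀ ∧ ∀ ρ, 0 < ρ → ρ < ρ₀ →
  ¬ Works d (cd d * ρ ^ (d + 1)) ((1 - η) * ρ)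

def MAIN : Prop := ∀ (d : ℕ), 1 ≤ d → ∀ η : ℝ, 0 < η → ∃ ε₀ : ℝ, 0 < ε₀ ∧ ∀ ε : ℝ, 0 < ε → ε < ε₀ →
  Works d ε ((1 + η) * (2 ^ (d + 1) * ε / ((d + 1) * (d + 2))) ^ (1 / ((d : ℝ) + 1))) ∧
    ¬ Works d ε ((1 - η) * (2 ^ (d + 1) * ε / ((d + 1) * (d + 2))) ^ (1 / ((d : ℝ) + 1)))

/-- The rows. -/
structure Rows : Prop where
  dif : DIF
  bet : BET
  fey : FEY
  tst : DIF → BET → FEY → TST
  mob : MOB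
  lym : TST → MOB → LYM
  lin : LIN
  aff : LIN → AFF
  two : LIN → TWO
  oth : LIN → OTH
  kir : LIN → OTH → KIR
  pve : LIN → KIR → PVE
  pvu : LIN → PVU
  pvs : LIN → PVS
  pvv : LIN → PVV
  piv : PVE → PVU → PVS → PIV
  one : LYM → OTH → PVV → PIV → ONE
  sam : SAM
  pai : AFF → PVS → ONE → SAM → PAI
  sum : TWO → SUM
  gam : GAM
  num : NUM
  cnt : PAI → SUM → GAM → NUM → CNT
  brg : BRG
  upp : CNT → BRG → UPP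
  per : PER
  opn : OPN
  rob : ROB
  pol : POL
  wrc : WRC
  goo : POL → WRC → GOO
  blk : BLK
  low : PER → OPN → ROB → GOO → BLK → LOW
  lnu : LNU
  dow : LOW → LNU → DOW
  main : UPP → DOW → MAIN

theorem Rows.all (h : Rows) : MAIN := by
  have L := h.lin
  have O := h.oth L
  exact h.main (h.upp (h.cnt (h.pai (h.aff L) (h.pvs L) (h.one (h.lym (h.tst h.dif h.bet h.fey)
    h.mob) O (h.pvv L) (h.piv (h.pve L (h.kir L O)) (h.pvu L) (h.pvs L))) h.sam)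
    (h.sum (h.two L)) h.gam h.num) h.brg)
    (h.dow (h.low h.per h.opn h.rob (h.goo h.pol h.wrc) h.blk) h.lnu)

end

end Pool.Agent.MP_ff3a4f_co.AD
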