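import Mathlib.Analysis.Calculus.FDeriv.Extend
import Pool.Agent.MP_ff3a4f_co.AD.Spec

/-! The integral of a truncated power along a segment. -/

namespace Pool.Agent.MP_ff3a4f_co.AD

open Finset
open scoped Classical

namespace RFey

theorem der (d : ℕ) (hd : 1 ≤ d) (w : ℝ) :
    HasDerivAt (fun y : ℝ => max y 0 ^ (d + 1)) ((d + 1) * max w 0 ^ d) w := by
  refine hasDerivAt_of_hasDerivAt_of_ne' (x := 0) (g := fun y : ℝ => (d + 1) * max y 0 ^ d)
    (fun y hy => ?_) (by fun_prop) (by fun_prop) w
  rcases lt_or_gt_of_ne hy with h | h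
  · have e : (fun y : ℝ => max y 0 ^ (d + 1)) =ᶠ[nhds y] fun _ => 0 := by
      filter_upwards [gt_mem_nhds h] with t ht
      rw [max_eq_right ht.le, zero_pow (by omega)]
    rw [max_eq_right h.le, zero_pow (by omega), mul_zero]
    exact (hasDerivAt_const y (0 : ℝ)).congr_of_eventuallyEq e
  · have e : (fun y : ℝ => max y 0 ^ (d + 1)) =ᶠ[nhds y] fun t => t ^ (d + 1) := by
      filter_upwards [lt_mem_nhds h] with t ht
      rw [max_eq_left ht.le]
    rw [max_eq_left h.le]
    have h1 := hasDerivAt_pow (d + 1) y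
    rw [Nat.add_sub_cancel, Nat.cast_add, Nat.cast_one] at h1
    exact h1.congr_of_eventuallyEq e

end RFey

theorem rfey : FEY := by
  intro d X z hd hX
  have h1 : ∀ s : ℝ, HasDerivAt (fun s : ℝ => - max ((1 - s) * z - s * X) 0 ^ (d + 1))
      ((X + z) * ((d + 1) * max ((1 - s) * z - s * X) 0 ^ d)) s := by
    intro s
    have h2 : HasDerivAt (fun s : ℝ => (1 - s) * z - s * X) (-(X + z)) s :=
      ((((hasDerivAt_id s).const_sub 1).mul_const z).sub ((hasDerivAt_id s).mul_const X)).congr_deriv
        (by ring)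
    exact ((RFey.der d hd _).comp s h2).neg.congr_deriv (by ring)
  have h3 := intervalIntegral.integral_eq_sub_of_hasDerivAt (a := 0) (b := 1) (fun s _ => h1 s)
    (Continuous.intervalIntegrable (by fun_prop) _ _)
  rw [intervalIntegral.integral_const_mul, intervalIntegral.integral_const_mul] at h3
  rw [h3]
  have e1 : max ((1 - 1) * z - 1 * X) 0 = 0 := max_eq_right (by linarith)
  have e2 : (1 - 0) * z - 0 * X = z := by ring
  rw [e1, e2, zero_pow (by omega)]
  ring

end Pool.Agent.MP_ff3a4f_co.AD
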