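import Pool.Agent.MP_ff3a4f_co.AD.Spec

/-! Row GAM: counting the infeasible sets through a two-coloured pair. -/

namespace Pool.Agent.MP_ff3a4f_co.AD

open Finset
open scoped Classical

theorem rgam : GAM := by
  intro ι _ d v A B hAB
  have h1 : ∀ α ∈ A, ∀ β ∈ B, #(gam v (A ∪ B) α β) ≤
      ∑ S ∈ bads v (A ∪ B), (if α ∈ S then 1 else 0) * (if β ∈ S then 1 else 0) := by
    intro α hα β hβ
    have hne : α ≠ β := fun e => disjoint_left.1 hAB hα (e ▸ hβ)
    have e : ∑ S ∈ bads v (A ∪ B), (if α ∈ S then 1 else 0) * (if β ∈ S then 1 else 0) =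
        #{S ∈ bads v (A ∪ B) | α ∈ S ∧ β ∈ S} := by
      rw [card_filter]
      refine sum_congr rfl fun S _ => ?_
      by_cases a : α ∈ S <;> by_cases b : β ∈ S <;> simp [a, b]
    rw [e]
    refine card_le_card_of_injOn (fun U => insert α (insert β U)) (fun U hU => ?_) ?_
    · simp only [gam, coe_filter, mem_powersetCard, Set.mem_ofPred_eq] at hU
      obtain ⟨⟨s, c⟩, a, b, f⟩ := hU
      simp only [bads, coe_filter, mem_filter, mem_powersetCard, Set.mem_ofPred_eq]
      refine ⟨⟨⟨insert_subset (mem_union_left _ hα) (insert_subset (mem_union_right _ hβ) s), ?_⟩,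
        f⟩, mem_insert_self _ _, mem_insert_of_mem (mem_insert_self _ _)⟩
      rw [card_insert_of_notMem (by simp [hne, a]), card_insert_of_notMem b, c]
    · intro U hU U' hU' k
      simp only [gam, coe_filter, mem_powersetCard, Set.mem_ofPred_eq] at hU hU'
      have k1 : ((insert α (insert β U)).erase α).erase β =
          ((insert α (insert β U')).erase α).erase β := by
        simp only at k
        rw [k]
      rwa [erase_insert (by simp [hne, hU.2.1]), erase_insert hU.2.2.1,
        erase_insert (by simp [hne, hU'.2.1]), erase_insert hU'.2.2.1] at k1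
  have h2 : ∀ (C S : Finset ι), ∑ α ∈ C, (if α ∈ S then 1 else 0) ≤ #S := fun C S => by
    rw [← card_filter]
    exact card_le_card fun x hx => (mem_filter.1 hx).2
  calc ∑ α ∈ A, ∑ β ∈ B, #(gam v (A ∪ B) α β)
      ≤ ∑ α ∈ A, ∑ β ∈ B, ∑ S ∈ bads v (A ∪ B),
          (if α ∈ S then 1 else 0) * (if β ∈ S then 1 else 0) :=
        sum_le_sum fun α hα => sum_le_sum fun β hβ => h1 α hα β hβ
    _ = ∑ S ∈ bads v (A ∪ B),
          (∑ α ∈ A, if α ∈ S then 1 else 0) * ∑ β ∈ B, if β ∈ S then 1 else 0 := by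
        simp only [sum_mul_sum]
        rw [sum_congr rfl fun α _ => sum_comm, sum_comm]
    _ ≤ ∑ _S ∈ bads v (A ∪ B), (d + 2) ^ 2 := by
        refine sum_le_sum fun S hS => ?_
        have c : #S = d + 2 := (mem_powersetCard.1 (mem_filter.1 hS).1).2
        rw [sq, ← c]
        exact Nat.mul_le_mul (h2 A S) (h2 B S)
    _ = _ := by rw [sum_const, smul_eq_mul, mul_comm]

end Pool.Agent.MP_ff3a4f_co.AD
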