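import Pool.Agent.MP_ff3a4f_co.AD.Spec

/-! Row GOO: the number of badly coloured sets of the degenerate configuration. -/

namespace Pool.Agent.MP_ff3a4f_co.AD

open Finset
open scoped Classical

namespace RGoo

theorem inn (e K N i : ℕ) (w : Fin (e + 1) → ℝ) :
    inner ℝ (WithLp.toLp 2 w : Pt (e + 1)) (cfg e K N i) =
      if i < 2 * (K + e + 1) then (-1 : ℝ) ^ i * ∑ j, w j * (i : ℝ) ^ (j : ℕ)
      else (if i < N then 1 else if i < N + K then 0 else -1) *
        (2 * (2 * (K + e + 1) : ℝ) ^ e + 2) * w (Fin.last e) := by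
  rw [PiLp.inner_apply]
  simp only [cfg, RCLike.inner_apply, conj_trivial]
  by_cases h : i < 2 * (K + e + 1)
  · simp only [if_pos h, mul_sum]
    exact sum_congr rfl fun j _ => by ring
  · simp only [if_neg h]
    rw [sum_eq_single (Fin.last e)]
    · simp
    · intro j _ hj
      rw [if_neg, zero_mul]
      intro hj'
      exact hj (Fin.ext (by simpa using hj'))
    · simp

theorem sepc (N : ℕ) (S : Finset ℕ) (f : ℕ → ℝ)
    (h : ∀ i ∈ S, (i < N → 0 < f i) ∧ (N ≤ i → f i ≤ 0)) :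
    ∃ c : ℝ, ∀ i ∈ S, (i < N → c < f i) ∧ (N ≤ i → f i < c) := by
  by_cases hS : (S.filter (· < N)).Nonempty
  · obtain ⟨a, ha, hm⟩ := exists_min_image (S.filter (· < N)) f hS
    have ha' := mem_filter.1 ha
    have h0 := (h a ha'.1).1 ha'.2
    refine ⟨f a / 2, fun i hi => ⟨fun h1 => ?_, fun h1 => ?_⟩⟩
    · have := hm i (mem_filter.2 ⟨hi, h1⟩)
      linarith
    · have := (h i hi).2 h1
      linarith
  · refine ⟨1, fun i hi => ⟨fun h1 => absurd ⟨i, mem_filter.2 ⟨hi, h1⟩⟩ hS, fun h1 => ?_⟩⟩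
    have := (h i hi).2 h1
    linarith

theorem nocl (e K N : ℕ) (hN : 2 * (K + e + 1) ≤ N) (S : Finset ℕ)
    (h : ∀ o ∈ S, o ∉ Ico N (N + K)) : LSep N (cfg e K N) S := by
  have hM : (0 : ℝ) ≤ (2 * (K + e + 1) : ℝ) ^ e := by positivity
  refine ⟨WithLp.toLp 2 (Pi.single (Fin.last e) (1 : ℝ)), -((2 * (K + e + 1) : ℝ) ^ e + 1),
    fun i hi => ?_⟩
  rw [inn]
  have hs : ∑ j : Fin (e + 1), (Pi.single (Fin.last e) (1 : ℝ) : Fin (e + 1) → ℝ) j *
      (i : ℝ) ^ (j : ℕ) = (i : ℝ) ^ e := by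
    rw [sum_eq_single (Fin.last e)]
    · simp
    · intro j _ hj
      simp [hj]
    · simp
  rw [hs, Pi.single_eq_same]
  refine ⟨fun h1 => ?_, fun h1 => ?_⟩
  · by_cases h2 : i < 2 * (K + e + 1)
    · rw [if_pos h2]
      have h3 : (i : ℝ) ^ e ≤ (2 * (K + e + 1) : ℝ) ^ e :=
        pow_le_pow_left₀ (Nat.cast_nonneg i) (by exact_mod_cast h2.le) e
      have h4 : (0 : ℝ) ≤ (i : ℝ) ^ e := by positivity
      rcases neg_one_pow_eq_or ℝ i with h5 | h5 <;> rw [h5] <;> linarith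
    · rw [if_neg h2, if_pos h1]
      linarith
  · have h2 : ¬ i < N + K := fun h2 => h i hi (mem_Ico.2 ⟨h1, h2⟩)
    rw [if_neg (by omega), if_neg (by omega), if_neg h2]
    linarith

theorem pos (hP : POL) (e K N : ℕ) (hN : 2 * (K + e + 1) ≤ N) (S : Finset ℕ)
    (h1 : #(S.filter (· < 2 * (K + e + 1))) ≤ e + 1)
    (h2 : ¬ (#(S.filter (· < 2 * (K + e + 1))) = e + 1 ∧
      wrong (S.filter (· < 2 * (K + e + 1))))) : LSep N (cfg e K N) S := by
  obtain ⟨w, hw, hT⟩ := hP e _ h1 h2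
  have hH : (0 : ℝ) < (2 * (2 * (K + e + 1) : ℝ) ^ e + 2) * w (Fin.last e) := by positivity
  obtain ⟨c, hc⟩ := sepc N S
    (fun i => inner ℝ (WithLp.toLp 2 w : Pt (e + 1)) (cfg e K N i)) fun i hi => by
      simp only [inn]
      refine ⟨fun h3 => ?_, fun h3 => ?_⟩
      · by_cases h4 : i < 2 * (K + e + 1)
        · rw [if_pos h4]
          exact hT i (mem_filter.2 ⟨hi, h4⟩)
        · rw [if_neg h4, if_pos h3]
          linarith
      · rw [if_neg (by omega), if_neg (by omega)]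
        split_ifs <;> linarith
  exact ⟨_, c, hc⟩

end RGoo

theorem rgoo : POL → WRC → GOO := by
  intro hP hW e K N hN
  set M := 2 * (K + e + 1) with hM
  let P₁ := (Ico N (N + K) ×ˢ (range M).powersetCard (e + 2)).image
    fun z : ℕ × Finset ℕ => insert z.1 z.2
  let P₂ := (range (2 * N) ×ˢ Ico N (N + K) ×ˢ
    {T ∈ (range M).powersetCard (e + 1) | wrong T}).image
    fun z : ℕ × ℕ × Finset ℕ => insert z.1 (insert z.2.1 z.2.2)
  have hsub : {S ∈ (range (2 * N)).powersetCard (e + 3) | ¬ LSep N (cfg e K N) S} ⊆ P₁ ∪ P₂ := by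
    intro S hS
    obtain ⟨hS1, hS2⟩ := mem_filter.1 hS
    obtain ⟨hS3, hS4⟩ := mem_powersetCard.1 hS1
    have ho : ∃ o ∈ S, o ∈ Ico N (N + K) := by
      by_contra hc
      exact hS2 (RGoo.nocl e K N hN S fun o ho ho' => hc ⟨o, ho, ho'⟩)
    obtain ⟨o, ho, ho'⟩ := ho
    have hoN := (mem_Ico.1 ho').1
    set T := S.filter (· < M) with hT
    have hoT : o ∉ T := fun h => by
      have := (mem_filter.1 h).2
      omega
    have hTM : T ⊆ range M := fun x hx => mem_range.2 (mem_filter.1 hx).2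
    have hin : insert o T ⊆ S := insert_subset ho (filter_subset _ _)
    have hc := card_insert_of_notMem hoT
    have hle := card_le_card hin
    by_cases h1 : #T = e + 2
    · refine mem_union_left _ (mem_image.2 ⟨(o, T), mem_product.2 ⟨ho',
        mem_powersetCard.2 ⟨hTM, h1⟩⟩, eq_of_subset_of_card_le hin (hS4.trans (by rw [hc, h1])).le⟩)
    · have h2 : #T = e + 1 ∧ wrong T := by
        by_contra h2
        exact hS2 (RGoo.pos hP e K N hN S (by rw [← hT]; omega) h2)
      obtain ⟨x, hx, hx'⟩ := exists_mem_notMem_of_card_lt_card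
        (s := insert o T) (t := S) (by omega)
      refine mem_union_right _ (mem_image.2 ⟨(x, o, T), mem_product.2 ⟨hS3 hx,
        mem_product.2 ⟨ho', mem_filter.2 ⟨mem_powersetCard.2 ⟨hTM, h2.1⟩, h2.2⟩⟩⟩,
        eq_of_subset_of_card_le (insert_subset hx hin) ?_⟩)
      rw [card_insert_of_notMem hx']
      omega
  have c1 : #P₁ ≤ K * M.choose (e + 2) := by
    refine card_image_le.trans (le_of_eq ?_)
    simp
  have c2 : #P₂ ≤ 2 * N * K * (K + 2 * (e + 1)).choose (e + 1) := by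
    refine card_image_le.trans ?_
    rw [card_product, card_product, card_range, Nat.card_Ico, Nat.add_sub_cancel_left, mul_assoc (2 * N)]
    have := hW (e + 1) (K + e + 1)
    rw [show K + e + 1 + (e + 1) = K + 2 * (e + 1) by ring] at this
    exact Nat.mul_le_mul_left _ (Nat.mul_le_mul_left _ this)
  exact (card_le_card hsub).trans ((card_union_le _ _).trans (add_le_add c1 c2))

end Pool.Agent.MP_ff3a4f_co.AD
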