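import Pool.Agent.MP_ff3a4f_co.AD.Spec

/-! Row `LIN`: the alternative of Gordan, prescribed values, dependence. -/

namespace Pool.Agent.MP_ff3a4f_co.AD

open Finset
open scoped Classical

theorem lin_far (ι : Type) (d : ℕ) (v : ι → Vec d) (S : Finset ι) : ¬ Feas v S ↔
    ∃ l : ι → ℝ, (∀ x ∈ S, 0 ≤ l x) ∧ (∃ x ∈ S, l x ≠ 0) ∧ ∑ x ∈ S, l x • v x = 0 := by
  constructor
  · intro hn
    by_contra hno
    apply hn
    let C : Set (Vec d) :=
      {y | ∃ l : ι → ℝ, (∀ x ∈ S, 0 ≤ l x) ∧ ∑ x ∈ S, l x = 1 ∧ ∑ x ∈ S, l x • v x = y}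
    have hC : Convex ℝ C := by
      rintro y ⟨l, l0, l1, rfl⟩ z ⟨m, m0, m1, rfl⟩ a b ha hb hab
      refine ⟨fun x => a * l x + b * m x, fun x hx => add_nonneg (mul_nonneg ha (l0 x hx))
        (mul_nonneg hb (m0 x hx)), ?_, ?_⟩
      · rw [sum_add_distrib, ← mul_sum, ← mul_sum, l1, m1]; linarith
      · simp only [add_smul, mul_smul, sum_add_distrib, smul_sum]
    have hsub : v '' (S : Set ι) ⊆ C := by
      rintro _ ⟨x, hx, rfl⟩
      have hx' : x ∈ S := hx
      refine ⟨fun z => if z = x then 1 else 0, fun z _ => ?_, ?_, ?_⟩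
      · show (0 : ℝ) ≤ if z = x then 1 else 0
        split_ifs <;> norm_num
      · simp [hx']
      · simp [ite_smul, hx']
    have h0 : (0 : Vec d) ∉ convexHull ℝ (v '' (S : Set ι)) := by
      intro h
      obtain ⟨l, l0, l1, hl⟩ := convexHull_min hsub hC h
      refine hno ⟨l, l0, ?_, hl⟩
      by_contra hz
      have : ∑ x ∈ S, l x = 0 := sum_eq_zero fun x hx => by
        by_contra h1
        exact hz ⟨x, hx, h1⟩
      rw [this] at l1
      exact zero_ne_one l1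
    have hcl : IsClosed (convexHull ℝ (v '' (S : Set ι))) :=
      ((S.finite_toSet.image v).isCompact_convexHull ℝ).isClosed
    obtain ⟨f, u, hu, hf⟩ := geometric_hahn_banach_point_closed (convex_convexHull ℝ _) hcl h0
    refine ⟨f.toLinearMap, fun x hx => ?_⟩
    have h1 := hf (v x) (subset_convexHull ℝ _ ⟨x, hx, rfl⟩)
    rw [map_zero] at hu
    exact hu.trans h1
  · rintro ⟨l, l0, ⟨x, hx, hne⟩, hl⟩ ⟨φ, hφ⟩
    have h1 : ∑ x ∈ S, l x * φ (v x) = 0 := by
      have := congrArg φ hl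
      simpa [map_sum] using this
    have h2 : 0 < ∑ x ∈ S, l x * φ (v x) :=
      sum_pos' (fun z hz => mul_nonneg (l0 z hz) (hφ z hz).le)
        ⟨x, hx, mul_pos (lt_of_le_of_ne (l0 x hx) hne.symm) (hφ x hx)⟩
    exact h2.ne' h1

theorem lin_ext {ι : Type} {d : ℕ} (v : ι → Vec d) (S : Finset ι) (g : S → ℝ) :
    ∑ x ∈ S, (if h : x ∈ S then g ⟨x, h⟩ else 0) • v x = ∑ x : S, g x • v x := by
  rw [← sum_coe_sort S]
  exact sum_congr rfl fun x _ => by simp

theorem lin_pre (ι : Type) (d : ℕ) (v : ι → Vec d) (Y S : Finset ι) (y : ι → ℝ) (hg : GP v Y)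
    (hS : S ⊆ Y) (hc : #S ≤ d + 1) : ∃ φ : Vec d →ₗ[ℝ] ℝ, ∀ x ∈ S, φ (v x) = y x := by
  have hli : LinearIndependent ℝ fun x : S => v x := by
    rw [Fintype.linearIndependent_iff]
    intro g hg0 i
    have := hg S hS hc (fun x => if h : x ∈ S then g ⟨x, h⟩ else 0)
      ((lin_ext v S g).trans hg0) i i.2
    simpa using this
  have hinj : LinearMap.ker (Fintype.linearCombination ℝ fun x : S => v x) = ⊥ :=
    LinearMap.ker_eq_bot.2 hli.fintypeLinearCombination_injective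
  obtain ⟨g, hgf⟩ := LinearMap.exists_leftInverse_of_injective _ hinj
  refine ⟨(Fintype.linearCombination ℝ fun x : S => y x) ∘ₗ g, fun x hx => ?_⟩
  have h1 : g (v x) = Pi.single ⟨x, hx⟩ 1 := by
    have := LinearMap.congr_fun hgf (Pi.single ⟨x, hx⟩ 1)
    simpa using this
  simp [h1]

theorem lin_dex (ι : Type) (d : ℕ) (v : ι → Vec d) (S : Finset ι) (hc : d + 2 ≤ #S) :
    ∃ l : ι → ℝ, (∃ x ∈ S, l x ≠ 0) ∧ ∑ x ∈ S, l x • v x = 0 := by
  have hli : ¬ LinearIndependent ℝ fun x : S => v x := by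
    intro h
    have := h.fintype_card_le_finrank
    simp at this
    omega
  obtain ⟨g, hg0, i, hi⟩ := Fintype.not_linearIndependent_iff.1 hli
  refine ⟨fun x => if h : x ∈ S then g ⟨x, h⟩ else 0, ⟨i, i.2, ?_⟩, (lin_ext v S g).trans hg0⟩
  simpa using hi

theorem rlin : LIN := ⟨lin_far, lin_pre, lin_dex⟩

end Pool.Agent.MP_ff3a4f_co.AD
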