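import Mathlib.Data.Nat.Choose.Bounds
import Mathlib.Analysis.SpecificLimits.Basic
import Pool.Agent.MP_ff3a4f_co.AD.Spec

/-! Row LNU: the numerical inequality of the lower bound. -/

namespace Pool.Agent.MP_ff3a4f_co.AD

open Finset Filter Topology
open scoped Classical

namespace RLnu

theorem up (d K N : ℕ) {u : ℝ} (h : (K : ℝ) + 2 * d ≤ u * N) :
    ((K * (2 * (K + d)).choose (d + 1) + 2 * N * K * (K + 2 * d).choose d : ℕ) : ℝ) ≤
      (N : ℝ) ^ (d + 2) / d.factorial * (2 ^ (d + 1) * u ^ (d + 2) + 2 * u ^ (d + 1)) := by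
  have hd : (0 : ℝ) ≤ d := by positivity
  have hK : (0 : ℝ) ≤ K := by positivity
  have hf : (0 : ℝ) < d.factorial := by positivity
  have h0 : (K : ℝ) ≤ u * N := by linarith
  have h1 : ((2 * (K + d)).choose (d + 1) : ℝ) ≤ (2 * (u * N)) ^ (d + 1) / d.factorial := by
    refine (Nat.choose_le_pow_div _ _).trans ?_
    have : (d.factorial : ℝ) ≤ (d + 1).factorial := by
      exact_mod_cast Nat.factorial_le (Nat.le_succ d)
    have : ((2 * (K + d) : ℕ) : ℝ) ≤ 2 * (u * N) := by push_cast; linarith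
    have : 0 ≤ 2 * (u * N) := by linarith
    gcongr
  have h2 : ((K + 2 * d).choose d : ℝ) ≤ (u * N) ^ d / d.factorial := by
    refine (Nat.choose_le_pow_div _ _).trans ?_
    have : ((K + 2 * d : ℕ) : ℝ) ≤ u * N := by push_cast; linarith
    gcongr
  have h3 : 0 ≤ u * N := hK.trans h0
  push_cast
  calc _ ≤ u * N * ((2 * (u * N)) ^ (d + 1) / d.factorial) +
        2 * N * (u * N) * ((u * N) ^ d / d.factorial) := by gcongr
    _ = _ := by simp only [mul_pow]; ring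

theorem down (d N : ℕ) (hN : d + 1 ≤ N) {ρ : ℝ} (hρ : 0 < ρ) :
    (N : ℝ) ^ (d + 2) / d.factorial *
        (ρ ^ (d + 1) * (2 - (d + 1) * (1 / (N : ℝ))) ^ (d + 2) / 2 ^ (d + 1)) ≤
      cd d * ρ ^ (d + 1) * (2 * N).choose (d + 2) := by
  have h0 : (0 : ℝ) < N := by exact_mod_cast (by omega : 0 < N)
  have h1 := Nat.pow_le_choose (α := ℝ) (d + 2) (2 * N)
  have h2 : ((2 * N + 1 - (d + 2) : ℕ) : ℝ) = N * (2 - (d + 1) * (1 / (N : ℝ))) := by
    rw [Nat.cast_sub (by omega)]; push_cast; field_simp; ring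
  rw [h2] at h1
  refine le_trans (le_of_eq ?_)
    (mul_le_mul_of_nonneg_left h1 (by unfold cd; positivity))
  rw [cd, Nat.factorial_succ, Nat.factorial_succ, mul_pow]
  push_cast
  field_simp
  ring

end RLnu

theorem rlnu : LNU := by
  intro d η _ h0 h1
  refine ⟨min (η / 2 ^ d) (1 / 4), by positivity, fun ρ hρ hr => ?_⟩
  obtain ⟨r1, r2⟩ := lt_min_iff.1 hr
  set s := (1 - η) * ρ with hs
  have s0 : 0 ≤ s := mul_nonneg (by linarith) hρ.le
  have s1 : s ≤ ρ := by nlinarith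
  have key : 2 ^ (d + 1) * (s + (2 * d + 1) * 0) ^ (d + 2) + 2 * (s + (2 * d + 1) * 0) ^ (d + 1) <
      ρ ^ (d + 1) * (2 - (d + 1) * 0) ^ (d + 2) / 2 ^ (d + 1) := by
    have a1 : s ^ (d + 1) ≤ (1 - η) * ρ ^ (d + 1) := by
      rw [pow_succ, pow_succ, hs]
      have : ((1 - η) * ρ) ^ d ≤ ρ ^ d := pow_le_pow_left₀ s0 s1 d
      nlinarith
    have a2 : s ^ (d + 2) ≤ ρ ^ (d + 1) * ρ := pow_le_pow_left₀ s0 s1 (d + 2)
    have a3 : 2 ^ d * ρ < η := by rwa [lt_div_iff₀' (by positivity)] at r1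
    have a4 : 0 < ρ ^ (d + 1) := by positivity
    have a5 : (2 : ℝ) ^ (d + 1) * s ^ (d + 2) ≤ 2 * (2 ^ d * ρ) * ρ ^ (d + 1) :=
      (mul_le_mul_of_nonneg_left a2 (by positivity)).trans (le_of_eq (by ring))
    have a6 : ρ ^ (d + 1) * (2 : ℝ) ^ (d + 2) / 2 ^ (d + 1) = 2 * ρ ^ (d + 1) := by
      field_simp; ring
    simp only [mul_zero, add_zero, sub_zero]
    rw [a6]
    nlinarith
  have t := tendsto_one_div_atTop_nhds_zero_nat (𝕜 := ℝ)
  have ev := Tendsto.eventually_lt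
    (((Continuous.tendsto (f := fun t : ℝ => 2 ^ (d + 1) * (s + (2 * d + 1) * t) ^ (d + 2) +
      2 * (s + (2 * d + 1) * t) ^ (d + 1)) (by fun_prop) 0).comp t))
    (((Continuous.tendsto (f := fun t : ℝ =>
      ρ ^ (d + 1) * (2 - (d + 1) * t) ^ (d + 2) / 2 ^ (d + 1)) (by fun_prop) 0).comp t)) key
  obtain ⟨N, e1, e2⟩ := (ev.and (eventually_ge_atTop (12 * (d + 1)))).exists
  have n0 : (0 : ℝ) < N := by exact_mod_cast (by omega : 0 < N)
  have n1 : (12 : ℝ) * (d + 1) ≤ N := by exact_mod_cast e2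
  have k1 : ((⌊s * N⌋₊ + 1 : ℕ) : ℝ) ≤ s * N + 1 := by
    push_cast; linarith [Nat.floor_le (mul_nonneg s0 n0.le)]
  refine ⟨⌊s * N⌋₊ + 1, N, ?_, by exact_mod_cast Nat.lt_floor_add_one _, ?_⟩
  · have : (3 : ℝ) * ((⌊s * N⌋₊ + 1 : ℕ) + d) ≤ N := by nlinarith
    exact_mod_cast this
  · refine ((RLnu.up d _ N (u := s + (2 * d + 1) * (1 / (N : ℝ))) ?_).trans
      (mul_le_mul_of_nonneg_left e1.le (by positivity))).trans (RLnu.down d N (by omega) hρ)
    have : (s + (2 * d + 1) * (1 / (N : ℝ))) * N = s * N + 1 + 2 * d := by field_simp; ring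
    linarith

end Pool.Agent.MP_ff3a4f_co.AD
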