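import Pool.Agent.MP_ff3a4f_co.AD.Spec

/-! Row Lym: the two-colour counting inequality. -/

namespace Pool.Agent.MP_ff3a4f_co.AD

open Finset
open scoped Classical

namespace RLym

variable {ι : Type} [DecidableEq ι]

theorem cnt (d : ℕ) (A B : Finset ι) (hAB : Disjoint A B) (feas : Finset ι → Prop) :
    ∑ h ∈ B, ∑ U ∈ ((A ∪ B).erase h).powersetCard d with ¬ feas (insert h U),
      (#(U ∩ A)).factorial * (#(U ∩ B)).factorial ≤
    ∑ T ∈ (A ∪ B).powersetCard (d + 1) with ¬ feas T,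
      (#(T ∩ A)).factorial * (#(T ∩ B)).factorial := by
  have h1 : ∀ h ∈ B, ∑ U ∈ ((A ∪ B).erase h).powersetCard d with ¬ feas (insert h U),
      (#(U ∩ A)).factorial * (#(U ∩ B)).factorial =
      ∑ T ∈ (A ∪ B).powersetCard (d + 1) with ¬ feas T,
        if h ∈ T then (#(T ∩ A)).factorial * (#(T ∩ B) - 1).factorial else 0 := by
    intro h hB
    rw [← sum_filter]
    have hA : h ∉ A := fun k => disjoint_left.1 hAB k hB
    refine sum_bij' (fun U _ => insert h U) (fun T _ => T.erase h) ?_ ?_ ?_ ?_ ?_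
    · intro U hU
      simp only [mem_filter, mem_powersetCard] at hU ⊢
      obtain ⟨⟨h1, h2⟩, h3⟩ := hU
      have hn : h ∉ U := fun k => notMem_erase h _ (h1 k)
      refine ⟨⟨⟨insert_subset (mem_union_right _ hB) (h1.trans (erase_subset _ _)), ?_⟩, h3⟩,
        mem_insert_self _ _⟩
      rw [card_insert_of_notMem hn, h2]
    · intro T hT
      simp only [mem_filter, mem_powersetCard] at hT ⊢
      obtain ⟨⟨⟨h1, h2⟩, h3⟩, h4⟩ := hT
      refine ⟨⟨erase_subset_erase _ h1, ?_⟩, by rwa [insert_erase h4]⟩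
      rw [card_erase_of_mem h4, h2]; rfl
    · intro U hU
      simp only [mem_filter, mem_powersetCard] at hU
      exact erase_insert fun k => notMem_erase h _ (hU.1.1 k)
    · intro T hT
      simp only [mem_filter] at hT
      exact insert_erase hT.2
    · intro U hU
      simp only [mem_filter, mem_powersetCard] at hU
      have hn : h ∉ U := fun k => notMem_erase h _ (hU.1.1 k)
      rw [insert_inter_of_notMem hA, insert_inter_of_mem hB,
        card_insert_of_notMem (fun k => hn (mem_inter.1 k).1), Nat.add_sub_cancel]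
  rw [sum_congr rfl h1, sum_comm]
  refine sum_le_sum fun T _ => ?_
  rw [← sum_filter, sum_const, smul_eq_mul]
  have e : B.filter (fun h => h ∈ T) = T ∩ B := by
    ext x; simp [and_comm]
  rw [e]
  rcases hb : #(T ∩ B) with _ | b
  · simp
  · rw [Nat.add_sub_cancel, Nat.factorial_succ]
    exact le_of_eq (by ring)

theorem swap (V C : Finset ι) (g : Finset ι → ℝ) :
    ∑ h ∈ C, ∑ Z ∈ V.powerset with h ∈ Z, g Z = ∑ Z ∈ V.powerset, (#(Z ∩ C) : ℝ) * g Z := by
  simp only [sum_filter]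
  rw [sum_comm]
  refine sum_congr rfl fun Z _ => ?_
  rw [← sum_filter, sum_const, nsmul_eq_mul]
  have e : C.filter (fun h => h ∈ Z) = Z ∩ C := by
    ext x; simp [and_comm]
  rw [e]

theorem card_split {W U R C : Finset ι} (hd : Disjoint U W) (hR : R ⊆ U) :
    (#((W ∪ R) ∩ C) : ℝ) = #(W ∩ C) + #(R ∩ C) := by
  rw [union_inter_distrib_right, card_union_of_disjoint, Nat.cast_add]
  exact Disjoint.mono inter_subset_left (inter_subset_left.trans hR) hd.symm

end RLym

open RLym in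
theorem rlym : TST → MOB → LYM := by
  intro tst mob ι _ d k A B feas W hd hAB piv hA hV hk
  obtain ⟨μ, m0, m1, m2⟩ := mob ι d (A ∪ B) feas W piv
  rw [if_neg hV] at m0
  set F : Finset ι → ℝ := fun Z => tf d k #(Z ∩ A) #(Z ∩ B) with hF
  have supp : ∀ Z ∈ (A ∪ B).powerset, μ Z ≠ 0 → (k : ℝ) ≤ #(Z ∩ A) ∨ (k : ℝ) ≤ #(Z ∩ B) := by
    intro Z hZ hne
    have hZ' := mem_powerset.1 hZ
    obtain ⟨h, hh⟩ : Z.Nonempty := nonempty_iff_ne_empty.2 fun e => hne (e ▸ m0)
    have e := m1 h (hZ' hh) fun Y => if Y = Z then 1 else 0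
    have e1 : ∑ Y ∈ (A ∪ B).powerset with h ∈ Y, μ Y * (if Y = Z then (1 : ℝ) else 0) = μ Z := by
      rw [sum_eq_single Z]
      · simp
      · intro Y _ hY; simp [hY]
      · intro hn; exact absurd (mem_filter.2 ⟨hZ, hh⟩) hn
    rw [e1] at e
    rw [e] at hne
    obtain ⟨U, hU, h2⟩ := exists_ne_zero_of_sum_ne_zero hne
    obtain ⟨R, _, h3⟩ := exists_ne_zero_of_sum_ne_zero h2
    have h4 : W U ∪ R = Z := by
      by_contra hn
      simp [hn] at h3
    simp only [mem_filter, mem_powersetCard] at hU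
    have hs : W U ⊆ Z := h4 ▸ subset_union_left
    rcases hk U (hU.1.1.trans (erase_subset _ _)) hU.1.2 with h5 | h5
    · left
      exact_mod_cast h5.trans (card_le_card (inter_subset_inter_right hs))
    · right
      exact_mod_cast h5.trans (card_le_card (inter_subset_inter_right hs))
  have dif : ∀ U ⊆ A ∪ B, #U = d → 0 ≤ ∑ R ∈ U.powerset, (-1 : ℝ) ^ #R * F (W U ∪ R) ∧
      ∑ R ∈ U.powerset, (-1 : ℝ) ^ #R * F (W U ∪ R) ≤
        (#(U ∩ A)).factorial * (#(U ∩ B)).factorial := by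
    intro U hU hc
    have e : ∑ R ∈ U.powerset, (-1 : ℝ) ^ #R * F (W U ∪ R) = ∑ R ∈ U.powerset, (-1 : ℝ) ^ #R *
        tf (#U) k (#(W U ∩ A) + #(R ∩ A)) (#(W U ∩ B) + #(R ∩ B)) := by
      refine sum_congr rfl fun R hR => ?_
      have hR' := mem_powerset.1 hR
      simp only [hF]
      rw [card_split (piv.sub U hU hc).2 hR', card_split (piv.sub U hU hc).2 hR', hc]
    rw [e]
    refine tst.dif ι U A B k _ _ (hc ▸ hd) hAB hU ?_
    rcases hk U hU hc with h5 | h5
    · left; exact_mod_cast h5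
    · right; exact_mod_cast h5
  have key : (k : ℝ) ^ (d + 1) = ∑ h ∈ B, ∑ Z ∈ (A ∪ B).powerset with h ∈ Z, μ Z * F Z -
      ∑ h ∈ A, ∑ Z ∈ (A ∪ B).powerset with h ∈ Z, μ Z * F Z := by
    rw [swap, swap, ← sum_sub_distrib]
    have e := m2 A subset_union_left hA fun Y => max ((k : ℝ) - #Y) 0 ^ (d + 1)
    simp only [card_empty, Nat.cast_zero, sub_zero] at e
    rw [max_eq_left (Nat.cast_nonneg k)] at e
    rw [← e]
    refine sum_congr rfl fun Z hZ => ?_
    by_cases hne : μ Z = 0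
    · simp [hne]
    · rw [← tst.val d k _ _ hd (supp Z hZ hne)]
      simp only [hF]
      ring
  have lo : 0 ≤ ∑ h ∈ A, ∑ Z ∈ (A ∪ B).powerset with h ∈ Z, μ Z * F Z := by
    refine sum_nonneg fun h hh => ?_
    rw [m1 h (mem_union_left _ hh)]
    refine sum_nonneg fun U hU => ?_
    simp only [mem_filter, mem_powersetCard] at hU
    exact (dif U (hU.1.1.trans (erase_subset _ _)) hU.1.2).1
  have hi : ∑ h ∈ B, ∑ Z ∈ (A ∪ B).powerset with h ∈ Z, μ Z * F Z ≤
      ((∑ h ∈ B, ∑ U ∈ ((A ∪ B).erase h).powersetCard d with ¬ feas (insert h U),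
        (#(U ∩ A)).factorial * (#(U ∩ B)).factorial : ℕ) : ℝ) := by
    push_cast
    refine sum_le_sum fun h hh => ?_
    rw [m1 h (mem_union_right _ hh)]
    refine sum_le_sum fun U hU => ?_
    simp only [mem_filter, mem_powersetCard] at hU
    exact (dif U (hU.1.1.trans (erase_subset _ _)) hU.1.2).2
  refine le_trans ?_ (cnt d A B hAB feas)
  have fin := (sub_le_self _ lo).trans hi
  rw [← key] at fin
  exact_mod_cast fin

end Pool.Agent.MP_ff3a4f_co.AD
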