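import Pool.Agent.MP_ff3a4f_co.AD.Spec

/-! From the parameter `ρ` to the parameter `ε`. -/

namespace Pool.Agent.MP_ff3a4f_co.AD

theorem rmain : UPP → DOW → MAIN := by
  intro hU hD d hd η hη
  obtain ⟨r₁, h₁, hu⟩ := hU d η hd hη
  obtain ⟨r₂, h₂, hl⟩ := hD d η hd hη
  have hr : 0 < min r₁ r₂ := lt_min h₁ h₂
  have hc : 0 < cd d := by unfold cd; positivity
  refine ⟨cd d * min r₁ r₂ ^ (d + 1), by positivity, fun ε hε hε₀ => ?_⟩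
  set ρ : ℝ := (2 ^ (d + 1) * ε / ((d + 1) * (d + 2))) ^ (1 / ((d : ℝ) + 1)) with hρ
  have hρ0 : 0 < ρ := by positivity
  have hρ3 : ρ ^ (d + 1) = 2 ^ (d + 1) * ε / ((d + 1) * (d + 2)) := by
    rw [hρ, show (1 / ((d : ℝ) + 1)) = ((d + 1 : ℕ) : ℝ)⁻¹ by push_cast; rw [one_div]]
    exact Real.rpow_inv_natCast_pow (by positivity) (by omega)
  have e : cd d * ρ ^ (d + 1) = ε := by
    rw [hρ3, cd]; field_simp
  have hlt : ρ < min r₁ r₂ :=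
    lt_of_pow_lt_pow_left₀ (d + 1) hr.le (lt_of_mul_lt_mul_left (e ▸ hε₀) hc.le)
  exact ⟨e ▸ hu ρ hρ0 (hlt.trans_le (min_le_left _ _)),
    e ▸ hl ρ hρ0 (hlt.trans_le (min_le_right _ _))⟩

end Pool.Agent.MP_ff3a4f_co.AD
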