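import Pool.Agent.MP_ff3a4f_co.AD.Spec

/-! Row Mob: the signed measure of a family of feasible sets. -/

namespace Pool.Agent.MP_ff3a4f_co.AD

open Finset
open scoped Classical

namespace RMob

variable {ι : Type} [DecidableEq ι]

/-- The inverse of summation over subsets. -/
noncomputable def inv (g : Finset ι → ℝ) (T : Finset ι) : ℝ :=
  g T - ∑ Z ∈ T.ssubsets.attach, inv g Z.1
termination_by #T
decreasing_by exact card_lt_card (mem_ssubsets.1 Z.2)

theorem sum_inv (g : Finset ι → ℝ) (T : Finset ι) : ∑ Z ∈ T.powerset, inv g Z = g T := by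
  rw [← add_sum_erase _ _ (mem_powerset_self T), inv, sum_attach T.ssubsets (fun Z => inv g Z)]
  simp [ssubsets]

/-- Every function on the subsets of `V` is a combination of disjointness indicators. -/
theorem rep (V : Finset ι) (F : Finset ι → ℝ) : ∃ m : Finset ι → ℝ, ∀ Z ⊆ V,
    F Z = ∑ X ∈ V.powerset, m X * if Disjoint X Z then 1 else 0 := by
  refine ⟨inv fun Y => F (V \ Y), fun Z hZ => ?_⟩
  have h := sum_inv (fun Y => F (V \ Y)) (V \ Z)
  rw [Finset.sdiff_sdiff_eq_self hZ] at h
  rw [← h]
  simp only [mul_ite, mul_one, mul_zero]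
  rw [← sum_filter]
  refine sum_congr ?_ fun _ _ => rfl
  ext X
  simp [subset_sdiff]

theorem alt (U X : Finset ι) :
    ∑ R ∈ U.powerset, ((-1 : ℝ) ^ #R * if Disjoint X R then 1 else 0) =
      if U ⊆ X then 1 else 0 := by
  have h : ∑ R ∈ (U \ X).powerset, (-1 : ℝ) ^ #R = if U \ X = ∅ then 1 else 0 := by
    exact_mod_cast congrArg (Int.cast : ℤ → ℝ) (sum_powerset_neg_one_pow_card (x := U \ X))
  simp only [sdiff_eq_empty_iff_subset] at h
  rw [← h]
  simp only [mul_ite, mul_one, mul_zero]
  rw [← sum_filter]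
  refine sum_congr ?_ fun _ _ => rfl
  ext R
  simp [subset_sdiff, disjoint_comm]

theorem key {d : ℕ} {V : Finset ι} {feas : Finset ι → Prop} {W : Finset ι → Finset ι}
    (P : Piv d V feas W) {μ : Finset ι → ℝ}
    (hμ : ∀ S ⊆ V, (if feas S then 1 else 0 : ℝ) =
      ∑ Z ∈ V.powerset, μ Z * if Disjoint Z S then 1 else 0)
    {h : ι} (hh : h ∈ V) {X : Finset ι} (hX : X ⊆ V) :
    ∑ Z ∈ V.powerset with h ∈ Z, (μ Z * if Disjoint X Z then 1 else 0) =
      ∑ U ∈ (V.erase h).powersetCard d with ¬ feas (insert h U),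
        ∑ R ∈ U.powerset, ((-1 : ℝ) ^ #R * if Disjoint X (W U ∪ R) then 1 else 0) := by
  by_cases hx : h ∈ X
  · rw [sum_eq_zero, sum_eq_zero]
    · intro U hU
      obtain ⟨hU, hf⟩ := mem_filter.1 hU
      obtain ⟨hU, hc⟩ := mem_powersetCard.1 hU
      refine sum_eq_zero fun R _ => ?_
      rw [if_neg, mul_zero]
      exact fun hd => disjoint_left.1 hd hx (mem_union_left _ (P.mem h hh U hU hc hf))
    · intro Z hZ
      rw [if_neg, mul_zero]
      exact fun hd => disjoint_left.1 hd hx (mem_filter.1 hZ).2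
  · have hXe : X ⊆ V.erase h := subset_erase.2 ⟨hX, hx⟩
    have h1 : ∑ Z ∈ V.powerset with h ∈ Z, (μ Z * if Disjoint X Z then 1 else 0) =
        (if feas X then 1 else 0 : ℝ) - if feas (insert h X) then 1 else 0 := by
      rw [hμ X hX, hμ (insert h X) (insert_subset hh hX), ← sum_sub_distrib, sum_filter]
      refine sum_congr rfl fun Z _ => ?_
      by_cases hZ : h ∈ Z <;> by_cases hd : Disjoint Z X <;>
        simp [hZ, hd, disjoint_comm (a := X)]
    rw [h1, P.cnt h hh X hXe]
    have h2 : ∀ U : Finset ι,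
        ∑ R ∈ U.powerset, ((-1 : ℝ) ^ #R * if Disjoint X (W U ∪ R) then 1 else 0) =
          if U ⊆ X ∧ Disjoint X (W U) then 1 else 0 := by
      intro U
      by_cases hd : Disjoint X (W U)
      · simp only [disjoint_union_right, hd, true_and, and_true]
        exact alt U X
      · simp [hd]
    simp only [h2]
    rw [sum_boole, filter_filter]
    congr 2
    ext U
    simp only [mem_filter, mem_powersetCard]
    exact ⟨fun ⟨⟨a, b⟩, c, e⟩ => ⟨⟨a.trans hXe, b⟩, c, a, e⟩,
      fun ⟨⟨_, b⟩, c, a, e⟩ => ⟨⟨a, b⟩, c, e⟩⟩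

end RMob

theorem rmob : MOB := by
  intro ι _ d V feas W P
  obtain ⟨μ, hμ⟩ := RMob.rep V fun S => if feas S then (1 : ℝ) else 0
  refine ⟨μ, ?_, fun h hh F => ?_, fun A hA hf n => ?_⟩
  · rw [hμ V Subset.rfl, sum_eq_single ∅]
    · simp
    · intro X hX h0
      rw [if_neg, mul_zero]
      exact fun hd => h0 (disjoint_self_iff_empty X |>.1 (hd.mono_right (mem_powerset.1 hX)))
    · simp
  · obtain ⟨m, hm⟩ := RMob.rep V F
    calc ∑ Z ∈ V.powerset with h ∈ Z, μ Z * F Z
        = ∑ Z ∈ V.powerset with h ∈ Z, ∑ X ∈ V.powerset,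
            m X * (μ Z * if Disjoint X Z then 1 else 0) := by
          refine sum_congr rfl fun Z hZ => ?_
          rw [hm Z (mem_powerset.1 (mem_filter.1 hZ).1), mul_sum]
          exact sum_congr rfl fun X _ => by ring
      _ = ∑ X ∈ V.powerset, m X * ∑ U ∈ (V.erase h).powersetCard d with ¬ feas (insert h U),
            ∑ R ∈ U.powerset, ((-1 : ℝ) ^ #R * if Disjoint X (W U ∪ R) then 1 else 0) := by
          rw [sum_comm]
          refine sum_congr rfl fun X hX => ?_
          rw [← mul_sum, RMob.key P hμ hh (mem_powerset.1 hX)]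
      _ = _ := by
          simp only [mul_sum]
          rw [sum_comm]
          refine sum_congr rfl fun U hU => ?_
          obtain ⟨hU, hc⟩ := mem_powersetCard.1 (mem_filter.1 hU).1
          have hUV : U ⊆ V := hU.trans (erase_subset _ _)
          rw [sum_comm]
          refine sum_congr rfl fun R hR => ?_
          rw [hm (W U ∪ R) (union_subset (P.sub U hUV hc).1 ((mem_powerset.1 hR).trans hUV)),
            mul_sum]
          exact sum_congr rfl fun X _ => by ring
  · obtain ⟨m, hm⟩ := RMob.rep A n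
    calc ∑ Z ∈ V.powerset, μ Z * n (Z ∩ A)
        = ∑ Z ∈ V.powerset, ∑ X ∈ A.powerset,
            m X * (μ Z * if Disjoint Z X then 1 else 0) := by
          refine sum_congr rfl fun Z _ => ?_
          rw [hm _ inter_subset_right, mul_sum]
          refine sum_congr rfl fun X hX => ?_
          have : Disjoint X (Z ∩ A) ↔ Disjoint Z X := by
            simp only [disjoint_left, mem_inter]
            exact ⟨fun H a ha hx => H hx ⟨ha, mem_powerset.1 hX hx⟩, fun H a hx ha => H ha.1 hx⟩
          simp only [this]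
          ring
      _ = ∑ X ∈ A.powerset, m X := by
          rw [sum_comm]
          refine sum_congr rfl fun X hX => ?_
          have hXA := mem_powerset.1 hX
          rw [← mul_sum, ← hμ X (hXA.trans hA), if_pos (hf X hXA), mul_one]
      _ = n ∅ := by simp [hm ∅ (empty_subset _)]

end Pool.Agent.MP_ff3a4f_co.AD
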