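import Pool.Agent.MP_ff3a4f_co.AD.Spec

/-! One sample: the counting inequality applied to the arrangement in the slice of `α`. -/

namespace Pool.Agent.MP_ff3a4f_co.AD

open Finset
open scoped Classical

namespace ROne

theorem fac (a b : ℕ) : (a + 1).factorial * (b + 1).factorial ≤ (a + b + 1).factorial := by
  induction b with
  | zero => simp
  | succ b ih =>
    calc (a + 1).factorial * (b + 1 + 1).factorial
        = (b + 2) * ((a + 1).factorial * (b + 1).factorial) := by
          rw [Nat.factorial_succ (b + 1)]; ring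
      _ ≤ (a + b + 1 + 1) * (a + b + 1).factorial := Nat.mul_le_mul (by omega) ih
      _ = (a + (b + 1) + 1).factorial := (Nat.factorial_succ _).symm

end ROne

theorem rone : LYM → OTH → PVV → PIV → ONE := by
  intro hL hO hV hP ι _ d k v A B X α β φ hd hk hAB hG hA hB hα hβ hφ hX hdX hdep hgam
  have hXY : X ⊆ A ∪ B := hX.trans (erase_subset _ _)
  have hαX : α ∉ X := fun h => notMem_erase α _ (hX h)
  have hαβ : α ≠ β := fun h => disjoint_left.1 hAB hα (h ▸ hβ)
  have hαY : α ∈ A ∪ B := mem_union_left _ hα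
  have eX : A ∩ X ∪ B ∩ X = X := by rw [← union_inter_distrib_right, inter_eq_right.2 hXY]
  have hno : ∀ U ⊆ X, #U = d → β ∉ U → Feas v (insert α (insert β U)) := by
    intro U hU hc hb
    by_contra h
    have : U ∈ gam v X α β :=
      mem_filter.2 ⟨mem_powersetCard.2 ⟨hU, hc⟩, fun h => hαX (hU h), hb, h⟩
    rw [hgam] at this
    exact notMem_empty _ this
  have hvio : ∀ U C : Finset ι, vio v φ X U ∩ (C ∩ X) = vio v φ X U ∩ C := by
    intro U C
    ext x
    simp only [vio, mem_inter, mem_filter]
    tauto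
  have key := hL ι d k (A ∩ X) (B ∩ X) (fun S => Feas v (insert α S)) (vio v φ X) hd
    (hAB.mono inter_subset_left inter_subset_left)
    (by rw [eX]; exact hP ι d v _ X α φ hG hαY hφ hX)
    (fun S hS => hA.mono (insert_subset hα (hS.trans inter_subset_left)))
    (by
      rw [eX]
      intro h
      obtain ⟨U, hU, hc, hpos⟩ := hV ι d v _ X α φ hG hαY hφ hX hdX h
      have : vio v φ X U = ∅ := filter_eq_empty_iff.2 fun x hx => not_lt.2 (hpos x hx)
      have h2 := hdep U hU hc
      simp only [this, empty_inter, card_empty] at h2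
      omega)
    (by
      rw [eX]
      intro U hU hc
      rw [hvio, hvio]
      exact hdep U hU hc)
  rw [eX] at key
  have hmem : ∀ T ⊆ X, #T = d + 1 → ¬ Feas v (insert α T) → β ∉ T ∧ ¬ Feas v (insert β T) := by
    intro T hT hc hf
    have hb : β ∉ T := fun h => hf (by
      have := hno (T.erase β) ((erase_subset _ _).trans hT) (by rw [card_erase_of_mem h]; omega)
        (notMem_erase _ _)
      rwa [insert_erase h] at this)
    have ha : α ∉ insert β T := by
      rw [mem_insert]
      exact fun h => h.elim hαβ fun h => hαX (hT h)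
    obtain ⟨q, hq, hqβ, hqf⟩ := hO ι d v (A ∪ B) (insert α (insert β T)) hG
      (insert_subset hαY (insert_subset (mem_union_right _ hβ) (hT.trans hXY)))
      (by rw [card_insert_of_notMem ha, card_insert_of_notMem hb]; omega) β
      (mem_insert_of_mem (mem_insert_self _ _))
      (fun h => hf (h.mono (insert_subset_insert _ (subset_insert _ _))))
    refine ⟨hb, fun h => hqf ?_⟩
    rcases mem_insert.1 hq with rfl | hq
    · rwa [erase_insert ha]
    · have hqT : q ∈ T := (mem_insert.1 hq).resolve_left hqβ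
      refine (hno (T.erase q) ((erase_subset _ _).trans hT) (by rw [card_erase_of_mem hqT]; omega)
        fun h => hb (mem_of_mem_erase h)).mono fun x hx => ?_
      simp only [mem_insert, mem_erase] at hx ⊢
      tauto
  refine key.trans ((sum_le_card_nsmul _ _ d.factorial fun T hT => ?_).trans ?_)
  · obtain ⟨h1, hf⟩ := mem_filter.1 hT
    obtain ⟨hT, hc⟩ := mem_powersetCard.1 h1
    obtain ⟨-, hf'⟩ := hmem T hT hc hf
    have hs : #(T ∩ (A ∩ X)) + #(T ∩ (B ∩ X)) = d + 1 := by
      rw [← card_union_of_disjoint (hAB.mono (inter_subset_right.trans inter_subset_left)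
        (inter_subset_right.trans inter_subset_left)), ← inter_union_distrib_left, eX,
        inter_eq_left.2 hT, hc]
    have ha : #(T ∩ (A ∩ X)) ≠ 0 := fun h => hf' (hB.mono (insert_subset hβ fun x hx => by
      refine (mem_union.1 (hXY (hT hx))).resolve_left fun hxA => ?_
      exact notMem_empty x (card_eq_zero.1 h ▸ mem_inter.2 ⟨hx, mem_inter.2 ⟨hxA, hT hx⟩⟩)))
    have hb : #(T ∩ (B ∩ X)) ≠ 0 := fun h => hf (hA.mono (insert_subset hα fun x hx => by
      refine (mem_union.1 (hXY (hT hx))).resolve_right fun hxB => ?_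
      exact notMem_empty x (card_eq_zero.1 h ▸ mem_inter.2 ⟨hx, mem_inter.2 ⟨hxB, hT hx⟩⟩)))
    obtain ⟨a, ea⟩ := Nat.exists_eq_succ_of_ne_zero ha
    obtain ⟨b, eb⟩ := Nat.exists_eq_succ_of_ne_zero hb
    rw [ea, eb, show d = a + b + 1 by omega]
    exact ROne.fac a b
  · rw [smul_eq_mul, mul_comm]
    refine Nat.mul_le_mul_left _ (card_le_card fun T hT => ?_)
    obtain ⟨h1, hf⟩ := mem_filter.1 hT
    obtain ⟨hT, hc⟩ := mem_powersetCard.1 h1
    exact mem_filter.2 ⟨h1, fun h => hαX (hT h), (hmem T hT hc hf).1, hf, (hmem T hT hc hf).2⟩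

end Pool.Agent.MP_ff3a4f_co.AD
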