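import Pool.Agent.MP_ff3a4f_co.AD.Spec

/-! Separation of labelled points is an open condition. -/

namespace Pool.Agent.MP_ff3a4f_co.AD

open Finset Filter Topology
open scoped Classical

namespace ROpn

theorem small (a b : ℝ) (hb : 0 < b) : ∀ᶠ δ in 𝓝[>] (0 : ℝ), a * δ < b := by
  have h : Tendsto (fun δ : ℝ => a * δ) (𝓝 0) (𝓝 (a * 0)) :=
    (continuous_const.mul continuous_id).tendsto 0
  rw [mul_zero] at h
  exact (h.eventually (gt_mem_nhds hb)).filter_mono nhdsWithin_le_nhds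

theorem one {d N : ℕ} (p : ℕ → Pt d) (S : Finset ℕ) : ∀ᶠ δ in 𝓝[>] (0 : ℝ),
    ∀ p' : ℕ → Pt d, (∀ i ∈ S, ‖p' i - p i‖ < δ) → LSep N p S → LSep N p' S := by
  by_cases h : LSep N p S
  · obtain ⟨w, c, h⟩ := h
    have k : ∀ᶠ δ in 𝓝[>] (0 : ℝ), ∀ i ∈ S, ‖w‖ * δ < |inner ℝ w (p i) - c| := by
      refine (eventually_all_finset S).2 fun i hi => small _ _ (abs_pos.2 (sub_ne_zero.2 ?_))
      rcases lt_or_ge i N with l | l
      · exact ((h i hi).1 l).ne'
      · exact ((h i hi).2 l).ne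
    refine k.mono fun δ k p' hp _ => ⟨w, c, fun i hi => ?_⟩
    have k1 : |inner ℝ w (p' i) - inner ℝ w (p i)| ≤ ‖w‖ * δ := by
      rw [← inner_sub_right]
      exact (abs_real_inner_le_norm _ _).trans
        (mul_le_mul_of_nonneg_left (hp i hi).le (norm_nonneg _))
    have k2 := k i hi
    obtain ⟨k3, k4⟩ := abs_le.1 k1
    refine ⟨fun l => ?_, fun l => ?_⟩
    · have := (h i hi).1 l
      rw [abs_of_pos (by linarith)] at k2
      linarith
    · have := (h i hi).2 l
      rw [abs_of_neg (by linarith)] at k2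
      linarith
  · exact Eventually.of_forall fun _ _ _ k => (h k).elim

end ROpn

theorem ropn : OPN := by
  intro d N I p
  have h := (eventually_all_finset I.powerset).2 fun S _ => ROpn.one (N := N) p S
  obtain ⟨δ, k, l⟩ := (h.and self_mem_nhdsWithin).exists
  exact ⟨δ, l, fun p' hp S hS => k S (mem_powerset.2 hS) p' fun i hi => hp i (hS hi)⟩

end Pool.Agent.MP_ff3a4f_co.AD
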