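import Pool.Agent.MP_ff3a4f_co.AD.Spec

/-! Row OTH: an infeasible set of at least `d + 3` vectors stays infeasible after the removal of a
suitable point other than a given one. -/

namespace Pool.Agent.MP_ff3a4f_co.AD

open Finset
open scoped Classical

namespace ROth

variable {ι : Type} [DecidableEq ι] {d : ℕ} {v : ι → Vec d} {F : Finset ι}

theorem out (L : LIN) {q : ι} (w : ι → ℝ) (h0 : ∀ x ∈ F, 0 ≤ w x) (h1 : ∃ x ∈ F, w x ≠ 0)
    (h2 : ∑ x ∈ F, w x • v x = 0) (hq : w q = 0) : ¬ Feas v (F.erase q) := by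
  obtain ⟨x, hx, h3⟩ := h1
  refine (L.far ι d v _).2 ⟨w, fun y hy => h0 y (mem_of_mem_erase hy),
    ⟨x, mem_erase.2 ⟨fun e => h3 (e ▸ hq), hx⟩, h3⟩, ?_⟩
  rw [sum_erase _ (by rw [hq, zero_smul])]
  exact h2

theorem key (L : LIN) {p r : ι} (w μ : ι → ℝ) (w0 : ∀ x ∈ F, 0 ≤ w x)
    (w2 : ∑ x ∈ F, w x • v x = 0) (rF : r ∈ F) (rp : r ≠ p) (wr : w r ≠ 0) (mr : μ r = 0)
    (m1 : ∃ x ∈ F, μ x ≠ 0) (m2 : ∑ x ∈ F, μ x • v x = 0) (mp : μ p ≤ 0) :
    ∃ q ∈ F, q ≠ p ∧ ¬ Feas v (F.erase q) := by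
  by_cases hs : (F.filter fun x => 0 < μ x).Nonempty
  · obtain ⟨q, hq, hm⟩ := exists_min_image _ (fun x => w x / μ x) hs
    obtain ⟨qF, q0⟩ := mem_filter.1 hq
    have t0 : 0 ≤ w q / μ q := div_nonneg (w0 q qF) q0.le
    refine ⟨q, qF, fun e => absurd (e ▸ q0) (not_lt.2 mp),
      out L (fun x => w x - w q / μ q * μ x) (fun x hx => ?_) ⟨r, rF, by simpa [mr] using wr⟩ ?_ ?_⟩
    · by_cases h : 0 < μ x
      · have := hm x (mem_filter.2 ⟨hx, h⟩)
        exact sub_nonneg.2 ((le_div_iff₀ h).1 this)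
      · have := mul_nonpos_of_nonneg_of_nonpos t0 (not_lt.1 h)
        have := w0 x hx
        show 0 ≤ w x - w q / μ q * μ x
        linarith
    · simp only [sub_smul, mul_smul, sum_sub_distrib, ← smul_sum, w2, m2, smul_zero, sub_zero]
    · show w q - w q / μ q * μ q = 0
      rw [div_mul_cancel₀ _ q0.ne', sub_self]
  · obtain ⟨x, hx, h3⟩ := m1
    refine ⟨r, rF, rp, out L (fun x => -μ x) (fun y hy => ?_) ⟨x, hx, neg_ne_zero.2 h3⟩ ?_
      (by simp [mr])⟩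
    · exact neg_nonneg.2 (not_lt.1 fun h => hs ⟨y, mem_filter.2 ⟨hy, h⟩⟩)
    · simp only [neg_smul, sum_neg_distrib, m2, neg_zero]

end ROth

open ROth in
theorem roth : LIN → OTH := by
  intro L ι _ d v Y F _ _ hF p hp hn
  obtain ⟨w, w0, w1, w2⟩ := (L.far ι d v F).1 hn
  obtain ⟨r, hr⟩ : (F.erase p).Nonempty := card_pos.1 (by rw [card_erase_of_mem hp]; omega)
  obtain ⟨rp, rF⟩ := mem_erase.1 hr
  by_cases hw : w r = 0
  · exact ⟨r, rF, rp, out L w w0 w1 w2 hw⟩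
  obtain ⟨m, ⟨x, hx, m1⟩, m2⟩ := L.dex ι d v (F.erase r) (by rw [card_erase_of_mem rF]; omega)
  obtain ⟨xr, xF⟩ := mem_erase.1 hx
  have s : ∑ y ∈ F, (if y = r then 0 else m y) • v y = 0 := by
    rw [← sum_erase F (a := r) (by simp), ← m2]
    exact sum_congr rfl fun y hy => by rw [if_neg (mem_erase.1 hy).1]
  rcases le_total (m p) 0 with h | h
  · exact key L w (fun y => if y = r then 0 else m y) w0 w2 rF rp hw (if_pos rfl)
      ⟨x, xF, by simpa [xr] using m1⟩ s (by simpa [rp.symm] using h)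
  · exact key L w (fun y => -(if y = r then 0 else m y)) w0 w2 rF rp hw (by simp)
      ⟨x, xF, by simpa [xr] using m1⟩ (by simp only [neg_smul, sum_neg_distrib, s, neg_zero])
      (by simpa [rp.symm] using h)

end Pool.Agent.MP_ff3a4f_co.AD
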