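import Pool.Agent.MP_ff3a4f_co.AD.Spec

/-! Row PAI: the bounds for one pair of points. -/

namespace Pool.Agent.MP_ff3a4f_co.AD

open Finset
open scoped Classical

namespace RPai

variable {ι : Type} [DecidableEq ι] {d N K : ℕ} {v : ι → Vec d} {A B : Finset ι} {α β : ι}
  {φ : Finset ι → Vec d →ₗ[ℝ] ℝ}

theorem depth (hS : PVS) (h : Deep v A B N K) (hφ : Vx v (A ∪ B) α φ) {U : Finset ι}
    (hU : U ⊆ (A ∪ B).erase α) (hd : U.card = d) :
    K ≤ (vio v φ ((A ∪ B).erase α) U ∩ A).card ∨ K ≤ (vio v φ ((A ∪ B).erase α) U ∩ B).card := by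
  set W := vio v φ ((A ∪ B).erase α) U with hW
  have hs : A \ W ∪ B \ W ⊆ A ∪ B := union_subset_union sdiff_subset sdiff_subset
  have hf : Feas v (A \ W ∪ B \ W) := by
    refine hS ι d v (A ∪ B) _ U α φ h.gp hφ hU hd hs fun x hx => ?_
    by_cases e : x = α
    · rw [e, (hφ U hU hd).1]
      exact zero_le_one
    · have hx' : x ∉ W := by
        rcases mem_union.1 hx with k | k <;> exact (mem_sdiff.1 k).2
      exact not_lt.1 fun k => hx' (mem_filter.2 ⟨mem_erase.2 ⟨e, hs hx⟩, k⟩)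
  have a := card_sdiff_add_card_inter A W
  have b := card_sdiff_add_card_inter B W
  rw [inter_comm W A, inter_comm W B]
  have := h.ca
  have := h.cb
  rcases h.dep _ sdiff_subset _ sdiff_subset hf with k | k
  · left
    omega
  · right
    omega

theorem card_V (h : Deep v A B N K) (hα : α ∈ A) : ((A ∪ B).erase α).card + 1 = 2 * N := by
  rw [card_erase_add_one (mem_union_left B hα), card_union_of_disjoint h.dis, h.ca, h.cb, two_mul]

theorem sub_V {n : ℕ} {T : Finset ι} (hT : T ∈ (A ∪ B).powersetCard n) (ha : α ∉ T) :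
    T ∈ ((A ∪ B).erase α).powersetCard n :=
  mem_powersetCard.2 ⟨subset_erase.2 ⟨(mem_powersetCard.1 hT).1, ha⟩, (mem_powersetCard.1 hT).2⟩

theorem one (hO : ONE) {k : ℕ} (hd : 1 ≤ d) (hk : 1 ≤ k) (h : Deep v A B N K) (hα : α ∈ A)
    (hβ : β ∈ B) (hφ : Vx v (A ∪ B) α φ) {X : Finset ι} (hX : X ⊆ (A ∪ B).erase α)
    (hc : d ≤ X.card)
    (hv : ∀ U ⊆ X, U.card = d → k ≤ (vio v φ X U ∩ A).card ∨ k ≤ (vio v φ X U ∩ B).card)
    (hg : ∀ U ∈ gam v (A ∪ B) α β, ¬ U ⊆ X) :
    (k : ℝ) ^ (d + 1) ≤ d.factorial * ((both v (A ∪ B) α β).filter fun T => T ⊆ X).card := by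
  have hY : X ⊆ A ∪ B := hX.trans (erase_subset _ _)
  have h1 := hO ι d k v A B X α β φ hd hk h.dis h.gp h.fa h.fb hα hβ hφ hX hc hv
    (eq_empty_of_forall_notMem fun U hU => hg U
      (mem_filter.2 ⟨powersetCard_mono hY (mem_filter.1 hU).1, (mem_filter.1 hU).2⟩)
      (mem_powersetCard.1 (mem_filter.1 hU).1).1)
  have h2 : both v X α β ⊆ (both v (A ∪ B) α β).filter fun T => T ⊆ X := fun T hT =>
    mem_filter.2 ⟨mem_filter.2 ⟨powersetCard_mono hY (mem_filter.1 hT).1, (mem_filter.1 hT).2⟩,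
      (mem_powersetCard.1 (mem_filter.1 hT).1).1⟩
  exact_mod_cast h1.trans (Nat.mul_le_mul_left _ (card_le_card h2))

end RPai

open RPai in
theorem rpai : AFF → PVS → ONE → SAM → PAI := by
  intro hA hS hO hM
  constructor
  · intro ι _ d N K v A B hd hK hN h α hα β hβ
    obtain ⟨φ, hφ⟩ := hA ι d v (A ∪ B) α h.gp (mem_union_left B hα)
    have hV := card_V h hα
    rcases (gam v (A ∪ B) α β).eq_empty_or_nonempty with e | e
    · have h1 := one hO hd hK h hα hβ hφ Subset.rfl (by omega)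
        (fun U hU hc => depth hS h hφ hU hc) (by simp [e])
      rw [e, card_empty, Nat.cast_zero, sub_zero, mul_one]
      exact h1.trans (mul_le_mul_of_nonneg_left
        (by exact_mod_cast card_le_card (filter_subset _ _)) (by positivity))
    · have h1 : (1 : ℝ) ≤ (gam v (A ∪ B) α β).card := by exact_mod_cast e.card_pos
      exact (mul_nonpos_of_nonneg_of_nonpos (by positivity) (by linarith)).trans (by positivity)
  · intro ι _ d N K k v A B r θ hd hk hN r0 r1 t0 t1 h α hα β hβ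
    obtain ⟨φ, hφ⟩ := hA ι d v (A ∪ B) α h.gp (mem_union_left B hα)
    have hV := card_V h hα
    have hf : (0 : ℝ) < d.factorial := by exact_mod_cast d.factorial_pos
    have key := hM ι d k K ((A ∪ B).erase α) (both v (A ∪ B) α β) (gam v (A ∪ B) α β)
      (fun U => vio v φ ((A ∪ B).erase α) U ∩
        if K ≤ (vio v φ ((A ∪ B).erase α) U ∩ A).card then A else B)
      r θ ((k : ℝ) ^ (d + 1) / d.factorial) r0 r1 t0 t1 (by positivity) hk (by omega)
      (fun T hT => sub_V (mem_filter.1 hT).1 (mem_filter.1 hT).2.1)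
      (fun T hT => sub_V (mem_filter.1 hT).1 (mem_filter.1 hT).2.1)
      (fun U hU hc => ⟨inter_subset_left.trans (filter_subset _ _),
        disjoint_left.2 fun u hu k =>
          ((hφ U hU hc).2.1 u hu).not_lt (mem_filter.1 (mem_inter.1 k).1).2, by
        split_ifs with c
        · exact c
        · exact (depth hS h hφ hU hc).resolve_left c⟩)
      (fun X hX hc hv hg => by
        rw [div_le_iff₀' hf]
        refine one hO hd (hd.trans hk) h hα hβ hφ hX hc (fun U hU hU' => ?_) hg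
        have s : ∀ C : Finset ι, vio v φ ((A ∪ B).erase α) U ∩ C ∩ X ⊆ vio v φ X U ∩ C :=
          fun C x hx => mem_inter.2 ⟨mem_filter.2 ⟨(mem_inter.1 hx).2,
            (mem_filter.1 (mem_inter.1 (mem_inter.1 hx).1).1).2⟩, (mem_inter.1 (mem_inter.1 hx).1).2⟩
        have h1 := hv U hU hU'
        split_ifs at h1
        · exact Or.inl (h1.trans (card_le_card (s A)))
        · exact Or.inr (h1.trans (card_le_card (s B))))
    have h2 : ((((A ∪ B).erase α).card : ℝ) * r) ^ d ≤ (2 * N * r) ^ d := by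
      have : (((A ∪ B).erase α).card : ℝ) ≤ 2 * N := by exact_mod_cast (by omega)
      gcongr
    have h3 : 0 ≤ Real.exp (-(r * K * (1 - θ))) / θ ^ k := by positivity
    rw [div_mul_eq_mul_div, div_le_iff₀ hf] at key
    refine le_trans (mul_le_mul_of_nonneg_left ?_ (by positivity)) (key.trans_eq (by ring))
    nlinarith [mul_le_mul_of_nonneg_right h2 h3]

end Pool.Agent.MP_ff3a4f_co.AD
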