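import Mathlib.MeasureTheory.Measure.Lebesgue.EqHaar
import Mathlib.MeasureTheory.Measure.Haar.InnerProductSpace
import Pool.Agent.MP_ff3a4f_co.AD.Spec

/-! Row PER: points can be moved into general position. -/

namespace Pool.Agent.MP_ff3a4f_co.AD

open Finset Pool.Agent.MP_ff3a4f_co.Kirchberger MeasureTheory
open scoped Classical

namespace RPer

theorem span_ne {d : ℕ} (S : Finset (Pt d)) (hS : #S ≤ d) :
    affineSpan ℝ (S : Set (Pt d)) ≠ ⊤ := by
  intro h
  have hne : (S : Set (Pt d)).Nonempty := AffineSubspace.nonempty_of_affineSpan_eq_top ℝ (Pt d) _ h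
  have hpos : 0 < #S := card_pos.2 (coe_nonempty.1 hne)
  have h1 := AffineSubspace.vectorSpan_eq_top_of_affineSpan_eq_top ℝ (Pt d) _ h
  have h2 := finrank_vectorSpan_image_finset_le ℝ (id : Pt d → Pt d) S (n := #S - 1) (by omega)
  rw [image_id, h1, finrank_top, finrank_euclideanSpace_fin] at h2
  omega

theorem step {d : ℕ} (hd : 1 ≤ d) (X : Finset (Pt d)) (hX : GeneralPosition X) (q : Pt d) {δ : ℝ}
    (hδ : 0 < δ) : ∃ x, ‖x - q‖ < δ ∧ x ∉ X ∧ GeneralPosition (insert x X) := by
  have h0 : volume (⋃ S ∈ (X.powerset.filter fun S => #S ≤ d),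
      (affineSpan ℝ (S : Set (Pt d)) : Set (Pt d))) = 0 :=
    (measure_biUnion_null_iff (Finset.countable_toSet _)).2 fun S hS =>
      Measure.addHaar_affineSubspace _ _ (span_ne S (mem_filter.1 hS).2)
  have h1 : ¬ Metric.ball q δ ⊆ ⋃ S ∈ (X.powerset.filter fun S => #S ≤ d),
      (affineSpan ℝ (S : Set (Pt d)) : Set (Pt d)) := fun h =>
    (Metric.measure_ball_pos volume q hδ).ne' (measure_mono_null h h0)
  obtain ⟨x, hx, hn⟩ := Set.not_subset.1 h1
  have hn' : ∀ S ⊆ X, #S ≤ d → x ∉ affineSpan ℝ (S : Set (Pt d)) := fun S h2 h3 h4 =>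
    hn (Set.mem_biUnion (mem_coe.2 (mem_filter.2 ⟨mem_powerset.2 h2, h3⟩)) h4)
  refine ⟨x, by rwa [← dist_eq_norm], fun h => ?_, fun S h2 h3 => ?_⟩
  · exact hn' {x} (singleton_subset_iff.2 h) (by simpa using hd) (mem_affineSpan ℝ (by simp))
  by_cases h4 : x ∈ S
  · have h5 : S.erase x ⊆ X := fun y hy =>
      (mem_insert.1 (h2 (mem_of_mem_erase hy))).resolve_left (ne_of_mem_erase hy)
    have h6 : #(S.erase x) ≤ d := by rw [card_erase_of_mem h4]; omega
    refine AffineIndependent.affineIndependent_of_notMem_span (i := (⟨x, h4⟩ : S)) ?_ ?_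
    · exact (hX _ h5 (by omega)).comp_embedding
        (⟨fun y : {y : S // y ≠ ⟨x, h4⟩} => (⟨y.1.1, mem_erase.2
          ⟨fun h => y.2 (Subtype.ext h), y.1.2⟩⟩ : S.erase x),
          fun y z h => Subtype.ext (Subtype.ext (Subtype.mk.inj h))⟩)
    · refine fun h => hn' _ h5 h6 (affineSpan_mono ℝ ?_ h)
      rintro _ ⟨y, hy, rfl⟩
      exact mem_coe.2 (mem_erase.2 ⟨fun h => hy (Subtype.ext h), y.2⟩)
  · exact hX S (fun y hy => (mem_insert.1 (h2 hy)).resolve_left fun h => h4 (h ▸ hy)) h3

end RPer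

theorem rper : PER := by
  intro d I p δ hd hδ
  induction I using Finset.induction_on with
  | empty =>
    refine ⟨p, by simp, by simp, fun S hS _ => ?_⟩
    have : S = ∅ := by simpa using hS
    subst this
    exact affineIndependent_of_subsingleton ℝ _
  | insert a I ha ih =>
    obtain ⟨p', h1, h2, h3⟩ := ih
    obtain ⟨x, k1, k2, k3⟩ := RPer.step hd _ h3 (p a) hδ
    have hu : ∀ i ∈ I, Function.update p' a x i = p' i := fun i hi =>
      Function.update_of_ne (fun h : i = a => ha (h ▸ hi)) _ _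
    refine ⟨Function.update p' a x, fun i hi => ?_, fun i hi j hj h => ?_, ?_⟩
    · rcases mem_insert.1 hi with rfl | hi
      · rwa [Function.update_self]
      · rw [hu i hi]; exact h1 i hi
    · rcases mem_insert.1 (mem_coe.1 hi) with rfl | hi' <;>
        rcases mem_insert.1 (mem_coe.1 hj) with rfl | hj'
      · rfl
      · rw [Function.update_self, hu j hj'] at h
        exact absurd (mem_image.2 ⟨j, hj', h.symm⟩) k2
      · rw [Function.update_self, hu i hi'] at h
        exact absurd (mem_image.2 ⟨i, hi', h⟩) k2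
      · rw [hu i hi', hu j hj'] at h
        exact h2 hi' hj' h
    · rw [image_insert, Function.update_self, image_congr (g := p') fun i hi => hu i hi]
      exact k3

end Pool.Agent.MP_ff3a4f_co.AD
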