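import Pool.Agent.MP_ff3a4f_co.AD.Spec

/-! Row PIV: the pivot structure of the vertices. -/

namespace Pool.Agent.MP_ff3a4f_co.AD

open Finset
open scoped Classical

theorem rpiv : PVE → PVU → PVS → PIV := by
  intro hE hU hS ι _ d v Y X α φ gp hα hV hX
  have er : ∀ h, X.erase h ⊆ (Y.erase α).erase h := fun h => erase_subset_erase h hX
  have hY : ∀ h ∈ X, h ∈ Y ∧ h ≠ α := fun h hh =>
    ⟨mem_of_mem_erase (hX hh), ne_of_mem_erase (hX hh)⟩
  have dj : ∀ S ⊆ X, ∀ U, Disjoint S (vio v φ X U) ↔ ∀ x ∈ S, 0 ≤ φ U (v x) := fun S hS U => by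
    rw [disjoint_left]
    exact ⟨fun a x hx => not_lt.1 fun c => a hx (mem_filter.2 ⟨hS hx, c⟩),
      fun a x hx c => not_lt.2 (a x hx) (mem_filter.1 c).2⟩
  refine ⟨fun h hh S hs => ?_, fun h hh U hu hd hn => ?_, fun U hu hd => ⟨filter_subset _ _, ?_⟩⟩
  · obtain ⟨h1, h2⟩ := hY h hh
    have sX : S ⊆ X := hs.trans (erase_subset _ _)
    have sY := hs.trans (er h)
    by_cases c2 : Feas v (insert α (insert h S))
    · rw [if_pos c2, if_pos (Feas.mono (insert_subset_insert _ (subset_insert _ _)) c2), sub_self,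
        eq_comm, Nat.cast_eq_zero, card_eq_zero, filter_eq_empty_iff]
      intro U hu c
      exact c.1 (Feas.mono (insert_subset_insert _ (insert_subset_insert _
        (mem_powersetCard.1 hu).1)) c2)
    by_cases c1 : Feas v (insert α S)
    · obtain ⟨U, u1, u2, u3, u4⟩ := hE ι d v Y S α h φ gp hα hV h1 h2 sY c1 c2
      rw [if_pos c1, if_neg c2, sub_zero, eq_comm, Nat.cast_eq_one, card_eq_one]
      refine ⟨U, eq_singleton_iff_unique_mem.2 ⟨mem_filter.2 ⟨mem_powersetCard.2 ⟨u1, u2⟩, u3,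
        (dj S sX U).2 u4⟩, fun U' hu => ?_⟩⟩
      obtain ⟨a1, a2, a3⟩ := mem_filter.1 hu
      obtain ⟨a4, a5⟩ := mem_powersetCard.1 a1
      exact ((hU ι d v Y α h φ gp hα hV h1 h2 U (u1.trans sY) u2 u3).2 U' (a4.trans sY) a5 a2
        (fun x hx => u4 x (a4 hx)) fun x hx => (dj S sX U').1 a3 x (u1 hx)).symm
    · rw [if_neg c1, if_neg c2, sub_self, eq_comm, Nat.cast_eq_zero, card_eq_zero,
        filter_eq_empty_iff]
      intro U hu c
      obtain ⟨a4, a5⟩ := mem_powersetCard.1 hu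
      have uY : U ⊆ Y.erase α := (a4.trans sX).trans hX
      refine c1 (hS ι d v Y _ U α φ gp hV uY a5
        (insert_subset hα ((sX.trans hX).trans (erase_subset _ _))) fun x hx => ?_)
      rcases mem_insert.1 hx with rfl | hx
      · rw [(hV U uY a5).1]; exact zero_le_one
      · exact (dj S sX U).1 c.2 x hx
  · obtain ⟨h1, h2⟩ := hY h hh
    exact mem_filter.2 ⟨hh, (hU ι d v Y α h φ gp hα hV h1 h2 U (hu.trans (er h)) hd hn).1⟩
  · exact (dj U hu U).2 fun x hx => ((hV U (hu.trans hX) hd).2.1 x hx).ge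

end Pool.Agent.MP_ff3a4f_co.AD
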