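import Pool.Agent.MP_ff3a4f_co.AD.Spec

/-! POL: a polynomial with alternating signs and positive leading coefficient. -/

namespace Pool.Agent.MP_ff3a4f_co.AD

open Finset Polynomial
open scoped Classical

namespace RPol

theorem key (e : ℕ) (T : Finset ℕ) (hT : #T ≤ e + 1) (N : ℝ[X]) (hm : N.Monic)
    (hd : N.natDegree = e) (hN : ∀ i ∈ T, 0 ≤ (-1 : ℝ) ^ i * N.eval (i : ℝ)) :
    ∃ w : Fin (e + 1) → ℝ, 0 < w (Fin.last e) ∧
      ∀ i ∈ T, 0 < (-1 : ℝ) ^ i * ∑ j, w j * (i : ℝ) ^ (j : ℕ) := by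
  have hi : Set.InjOn (fun i : ℕ => (i : ℝ)) T := Nat.cast_injective.injOn
  set L := Lagrange.interpolate T (fun i : ℕ => (i : ℝ)) fun i => (-1 : ℝ) ^ i with hL
  set M : ℝ := |L.coeff e| + 1 with hM
  have hM0 : 0 < M := by positivity
  have hLd : L.natDegree ≤ e := by
    have h1 : L.degree < (#T : ℕ) := Lagrange.degree_interpolate_lt _ hi
    have h2 : L.degree < (e + 1 : ℕ) := h1.trans_le (by exact_mod_cast hT)
    by_cases h0 : L = 0
    · rw [h0]; simp
    · exact Nat.lt_succ_iff.1 ((natDegree_lt_iff_degree_lt h0).2 h2)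
  have hP : (L + C M * N).natDegree < e + 1 :=
    Nat.lt_succ_iff.2 ((natDegree_add_le _ _).trans
      (max_le hLd ((natDegree_C_mul_le _ _).trans hd.le)))
  refine ⟨fun j => (L + C M * N).coeff j, ?_, fun i h => ?_⟩
  · have h1 : N.coeff e = 1 := hd ▸ hm.coeff_natDegree
    have h2 := neg_abs_le (L.coeff e)
    simp only [Fin.val_last, coeff_add, coeff_C_mul, h1]
    linarith
  · rw [Fin.sum_univ_eq_sum_range (fun j => (L + C M * N).coeff j * (i : ℝ) ^ j),
      ← eval_eq_sum_range' hP, eval_add, eval_mul, eval_C, hL,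
      Lagrange.eval_interpolate_at_node _ hi h]
    have h1 : (-1 : ℝ) ^ i * (-1) ^ i = 1 := by rw [← mul_pow]; simp
    have h2 := mul_nonneg hM0.le (hN i h)
    nlinarith

theorem sgn (S : Finset ℕ) (i : ℕ) (h : i ∉ S) :
    0 < (-1 : ℝ) ^ #{j ∈ S | i < j} * ∏ j ∈ S, ((i : ℝ) - j) := by
  rw [← prod_const, prod_filter, ← prod_mul_distrib]
  refine prod_pos fun j hj => ?_
  split_ifs with k
  · have : (i : ℝ) < j := by exact_mod_cast k
    linarith
  · have : j < i := lt_of_le_of_ne (not_lt.1 k) fun e => h (e ▸ hj)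
    have : (j : ℝ) < i := by exact_mod_cast this
    linarith

end RPol

open RPol in
theorem rpol : POL := by
  intro e T hT hw
  rcases Nat.lt_succ_iff_lt_or_eq.1 (Nat.lt_succ_iff.2 hT) with h | h
  · refine key e T hT (X ^ (e - #T) * Lagrange.nodal T fun i : ℕ => (i : ℝ))
      ((monic_X_pow _).mul Lagrange.nodal_monic) ?_ fun i hi => ?_
    · rw [(monic_X_pow _).natDegree_mul Lagrange.nodal_monic, natDegree_X_pow,
        Lagrange.natDegree_nodal]
      omega
    · rw [eval_mul, Lagrange.eval_nodal_at_node (v := fun i : ℕ => (i : ℝ)) hi]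
      simp
  · have : ¬ wrong T := fun k => hw ⟨h, k⟩
    unfold wrong at this
    push Not at this
    obtain ⟨a, ha, hev⟩ := this
    refine key e T hT (Lagrange.nodal (T.erase a) fun i : ℕ => (i : ℝ)) Lagrange.nodal_monic ?_
      fun i hi => ?_
    · rw [Lagrange.natDegree_nodal, card_erase_of_mem ha, h]
      rfl
    · by_cases k : i = a
      · subst k
        have h1 := sgn (T.erase i) i (notMem_erase i T)
        have h2 : {j ∈ T.erase i | i < j} = {j ∈ T | i < j} := by
          ext j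
          simp only [mem_filter, mem_erase]
          exact ⟨fun k => ⟨k.1.2, k.2⟩, fun k => ⟨⟨k.2.ne', k.1⟩, k.2⟩⟩
        have h3 : (-1 : ℝ) ^ i * (-1) ^ #{j ∈ T | i < j} = 1 := by
          rw [← pow_add, (Nat.not_odd_iff_even.1 hev).neg_one_pow]
        have h4 : (-1 : ℝ) ^ i * (-1) ^ i = 1 := by rw [← mul_pow]; simp
        have h5 : (-1 : ℝ) ^ #{j ∈ T | i < j} = (-1) ^ i :=
          mul_left_cancel₀ (pow_ne_zero i (by norm_num)) (h3.trans h4.symm)
        rw [h2, h5] at h1
        rw [Lagrange.eval_nodal]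
        exact h1.le
      · rw [Lagrange.eval_nodal_at_node (v := fun i : ℕ => (i : ℝ)) (mem_erase.2 ⟨k, hi⟩)]
        simp

end Pool.Agent.MP_ff3a4f_co.AD
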