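import Pool.Agent.MP_ff3a4f_co.AD.Spec

/-! Row PVE: a pivotal element has a basis without violators. -/

namespace Pool.Agent.MP_ff3a4f_co.AD

open Finset
open scoped Classical

namespace RPve

variable {ι : Type} [DecidableEq ι] {d : ℕ} {v : ι → Vec d}

omit [DecidableEq ι] in
theorem app {ψ : Vec d →ₗ[ℝ] ℝ} {U : Finset ι} {α y : ι} {a b : ℝ} {c : ι → ℝ}
    (h1 : ψ (v α) = 1) (h0 : ∀ u ∈ U, ψ (v u) = 0)
    (h : a • v α + (b • v y + ∑ u ∈ U, c u • v u) = 0) : a + b * ψ (v y) = 0 := by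
  have k := congrArg ψ h
  rw [map_add, map_add, map_sum, map_smul, map_smul, map_zero, h1,
    sum_eq_zero fun u hu => by rw [map_smul, h0 u hu, smul_zero]] at k
  simpa using k

theorem nf {U : Finset ι} {α y : ι} {a b : ℝ} {c : ι → ℝ} (ha : 0 ≤ a) (hb : 0 < b)
    (hc : ∀ u ∈ U, 0 ≤ c u) (h : a • v α + (b • v y + ∑ u ∈ U, c u • v u) = 0) :
    ¬ Feas v (insert α (insert y U)) := by
  rintro ⟨ψ, hψ⟩
  have k := congrArg ψ h
  rw [map_add, map_add, map_sum, map_smul, map_smul, map_zero, smul_eq_mul, smul_eq_mul] at k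
  have h1 := mul_nonneg ha (hψ α (mem_insert_self _ _)).le
  have h2 := mul_pos hb (hψ y (mem_insert_of_mem (mem_insert_self _ _)))
  have h3 : 0 ≤ ∑ u ∈ U, ψ (c u • v u) := sum_nonneg fun u hu => by
    rw [map_smul, smul_eq_mul]
    exact mul_nonneg (hc u hu) (hψ u (mem_insert_of_mem (mem_insert_of_mem hu))).le
  linarith

theorem full {Y T : Finset ι} {l : ι → ℝ} (hg : GP v Y) (hT : T ⊆ Y) (hc : #T = d + 2)
    (hn : ∃ x ∈ T, l x ≠ 0) (h : ∑ x ∈ T, l x • v x = 0) : ∀ y ∈ T, l y ≠ 0 := by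
  intro y hy h0
  obtain ⟨x, hx, hx0⟩ := hn
  have k := hg (T.erase y) ((erase_subset _ _).trans hT) (by rw [card_erase_of_mem hy]; omega) l
    (by rw [sum_erase _ (by rw [h0, zero_smul])]; exact h)
  by_cases e : x = y
  · exact hx0 (e ▸ h0)
  · exact hx0 (k x (mem_erase.2 ⟨e, hx⟩))

theorem card2 {U : Finset ι} {α y : ι} (h1 : α ∉ insert y U) (h2 : y ∉ U) (hU : #U = d) :
    #(insert α (insert y U)) = d + 2 := by
  rw [card_insert_of_notMem h1, card_insert_of_notMem h2, hU]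

end RPve

open RPve in
theorem rpve : LIN → KIR → PVE := by
  intro L kir ι _ d v Y S α h φ hg hα hφ hh hne hS hf hnf
  obtain ⟨U₀, a1, a2, a3⟩ := kir ι d v Y S α h hg hα hh hne hS hf hnf
  obtain ⟨U, hU, hmin⟩ := exists_min_image
    ((S.powersetCard d).filter fun U => ¬ Feas v (insert α (insert h U))) (fun U => φ U (v h))
    ⟨U₀, mem_filter.2 ⟨mem_powersetCard.2 ⟨a1, a2⟩, a3⟩⟩
  obtain ⟨hU1, hU3⟩ := mem_filter.1 hU
  obtain ⟨hUS, hUc⟩ := mem_powersetCard.1 hU1
  refine ⟨U, hUS, hUc, hU3, fun x hx => ?_⟩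
  by_contra hlt
  rw [not_le] at hlt
  have hSα : S ⊆ Y.erase α := hS.trans (erase_subset _ _)
  have hSY : S ⊆ Y := hSα.trans (erase_subset _ _)
  have nα : ∀ y ∈ S, y ≠ α := fun y hy => (mem_erase.1 (hSα hy)).1
  have nh : ∀ y ∈ S, y ≠ h := fun y hy => (mem_erase.1 (hS hy)).1
  obtain ⟨f1, f0, -⟩ := hφ U (hUS.trans hSα) hUc
  have hxU : x ∉ U := fun k => hlt.ne (f0 x k)
  have hhU : h ∉ U := fun k => nh h (hUS k) rfl
  have hα1 : α ∉ insert h U := fun k => (mem_insert.1 k).elim (fun e => hne e.symm)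
    fun k => nα α (hUS k) rfl
  have hα2 : α ∉ insert x U := fun k => (mem_insert.1 k).elim (fun e => nα x hx e.symm)
    fun k => nα α (hUS k) rfl
  obtain ⟨l, l0, ln, ls⟩ := (L.far ι d v _).1 hU3
  have lp : ∀ y ∈ insert α (insert h U), 0 < l y := fun y hy => (l0 y hy).lt_of_ne'
    (full hg (insert_subset hα (insert_subset hh (hUS.trans hSY))) (card2 hα1 hhU hUc) ln ls y hy)
  obtain ⟨m, mn, ms⟩ := L.dex ι d v (insert α (insert x U)) (card2 hα2 hxU hUc).ge
  have mx : m x ≠ 0 := full hg (insert_subset hα (insert_subset (hSY hx) (hUS.trans hSY)))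
    (card2 hα2 hxU hUc) mn ms x (mem_insert_of_mem (mem_insert_self _ _))
  rw [sum_insert hα1, sum_insert hhU] at ls
  rw [sum_insert hα2, sum_insert hxU] at ms
  obtain ⟨μ, hμ⟩ : ∃ μ : ι → ℝ, μ α • v α + ((1 : ℝ) • v x + ∑ u ∈ U, μ u • v u) = 0 := by
    refine ⟨fun y => (m x)⁻¹ * m y, ?_⟩
    have k := congrArg (fun z => (m x)⁻¹ • z) ms
    simp only [smul_add, smul_sum, smul_smul, smul_zero, inv_mul_cancel₀ mx] at k
    exact k
  have e1 := app f1 f0 ls
  have e2 := app f1 f0 hμ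
  have hμα : 0 < μ α := by linarith
  have hneg : (U.filter fun u => μ u < 0).Nonempty := by
    by_contra hc
    refine nf hμα.le one_pos (fun u hu => ?_) hμ
      (hf.mono (insert_subset_insert _ (insert_subset hx hUS)))
    by_contra k
    exact hc ⟨u, mem_filter.2 ⟨hu, not_le.1 k⟩⟩
  obtain ⟨i, hi, himin⟩ := exists_min_image _ (fun u => l u / -μ u) hneg
  obtain ⟨hiU, hiμ⟩ := mem_filter.1 hi
  have lU : ∀ u ∈ U, 0 < l u := fun u hu => lp u (mem_insert_of_mem (mem_insert_of_mem hu))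
  have lh : 0 < l h := lp h (mem_insert_of_mem (mem_insert_self _ _))
  have lα : 0 < l α := lp α (mem_insert_self _ _)
  obtain ⟨t, ht, hti, htu⟩ : ∃ t : ℝ, 0 < t ∧ l i + t * μ i = 0 ∧ ∀ u ∈ U, 0 ≤ l u + t * μ u := by
    have p : 0 < l i / -μ i := div_pos (lU i hiU) (by linarith)
    refine ⟨l i / -μ i, p, by field_simp [hiμ.ne]; ring, fun u hu => ?_⟩
    by_cases k : μ u < 0
    · have k2 := (le_div_iff₀ (show 0 < -μ u by linarith)).1 (himin u (mem_filter.2 ⟨hu, k⟩))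
      linarith
    · have k2 := mul_nonneg p.le (not_lt.1 k)
      linarith [lU u hu]
  have hxe : x ∉ U.erase i := fun k => hxU (mem_of_mem_erase k)
  have hsub : insert x (U.erase i) ⊆ S := insert_subset hx ((erase_subset _ _).trans hUS)
  have hcard : #(insert x (U.erase i)) = d := by
    rw [card_insert_of_notMem hxe, card_erase_add_one hiU, hUc]
  have hdep : (l α + t * μ α) • v α + (l h • v h +
      ∑ u ∈ insert x (U.erase i), (if u = x then t else l u + t * μ u) • v u) = 0 := by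
    have s1 : ∑ u ∈ U.erase i, (if u = x then t else l u + t * μ u) • v u
        = ∑ u ∈ U, l u • v u + t • ∑ u ∈ U, μ u • v u := by
      rw [sum_congr rfl fun u hu => by rw [if_neg fun e : u = x => hxe (e ▸ hu)],
        sum_erase _ (by rw [hti, zero_smul]), smul_sum, ← sum_add_distrib]
      exact sum_congr rfl fun u _ => by rw [add_smul, mul_smul]
    rw [sum_insert hxe, if_pos rfl, s1]
    have k : (l α • v α + (l h • v h + ∑ u ∈ U, l u • v u)) +
        t • (μ α • v α + ((1 : ℝ) • v x + ∑ u ∈ U, μ u • v u)) = 0 := by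
      rw [ls, hμ, smul_zero, add_zero]
    rw [← k, add_smul, mul_smul, smul_add, smul_add, one_smul]
    abel
  have tp := mul_pos ht hμα
  have hnf' := nf (by linarith) lh (fun u hu => by
    split_ifs with e
    · exact ht.le
    · exact htu u (mem_of_mem_erase ((mem_insert.1 hu).resolve_left e))) hdep
  obtain ⟨g1, g0, -⟩ := hφ _ (hsub.trans hSα) hcard
  have e3 := app g1 g0 hdep
  have e4 := mul_le_mul_of_nonneg_left
    (hmin _ (mem_filter.2 ⟨mem_powersetCard.2 ⟨hsub, hcard⟩, hnf'⟩)) lh.le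
  linarith

end Pool.Agent.MP_ff3a4f_co.AD
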