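import Pool.Agent.MP_ff3a4f_co.AD.Spec

/-! A vertex without violators in a set certifies that the set is feasible. -/

namespace Pool.Agent.MP_ff3a4f_co.AD

open Finset Filter Topology
open scoped Classical

namespace RPvs

theorem small (a b : ℝ) (h : 0 < a ∨ (a = 0 ∧ b = 1)) :
    ∀ᶠ e : ℝ in 𝓝[>] 0, 0 < a + e * b := by
  rcases h with h | ⟨h, k⟩
  · have c : Continuous fun e : ℝ => a + e * b := by fun_prop
    have t : Tendsto (fun e : ℝ => a + e * b) (𝓝 0) (𝓝 (a + 0 * b)) := c.tendsto 0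
    have p : (0 : ℝ) < a + 0 * b := by simpa using h
    exact (t.eventually (lt_mem_nhds p)).filter_mono nhdsWithin_le_nhds
  · filter_upwards [self_mem_nhdsWithin] with e he
    have : (0 : ℝ) < e := he
    simpa [h, k] using this

end RPvs

theorem rpvs : LIN → PVS := by
  intro L ι _ d v Y S U α φ gp vx hU cU hS pos
  have hUY : U ⊆ Y := hU.trans (erase_subset _ _)
  obtain ⟨ψ, hψ⟩ := L.pre ι d v Y U (fun _ => 1) gp hUY (by omega)
  obtain ⟨-, z, nz⟩ := vx U hU cU
  have ev : ∀ᶠ e : ℝ in 𝓝[>] 0, ∀ x ∈ S, 0 < φ U (v x) + e * ψ (v x) := by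
    rw [eventually_all_finset]
    intro x hx
    apply RPvs.small
    by_cases hxU : x ∈ U
    · exact Or.inr ⟨z x hxU, hψ x hxU⟩
    · exact Or.inl (lt_of_le_of_ne (pos x hx) (nz x (hS hx) hxU).symm)
  obtain ⟨e, he⟩ := ev.exists
  exact ⟨φ U + e • ψ, fun x hx => by simpa using he x hx⟩

end Pool.Agent.MP_ff3a4f_co.AD
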