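import Pool.Agent.MP_ff3a4f_co.AD.Spec

/-! Row PVU: the basis without violators is unique. -/

namespace Pool.Agent.MP_ff3a4f_co.AD

open Finset Pool.Agent.MP_ff3a4f_co.Kirchberger
open scoped Classical

namespace RPvu

theorem dep (L : LIN) {ι : Type} [DecidableEq ι] {d : ℕ} {v : ι → Vec d} {Y U : Finset ι}
    {α h : ι} (gp : GP v Y) (hα : α ∈ Y) (hh : h ∈ Y) (hne : h ≠ α)
    (hU : U ⊆ (Y.erase α).erase h) (hc : #U = d) (hf : ¬ Feas v (insert α (insert h U))) :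
    ∃ l : ι → ℝ, 0 < l α ∧ 0 < l h ∧ (∀ u ∈ U, 0 < l u) ∧
      ∀ ψ : Vec d →ₗ[ℝ] ℝ, l α * ψ (v α) + (l h * ψ (v h) + ∑ u ∈ U, l u * ψ (v u)) = 0 := by
  obtain ⟨l, h0, ⟨y, hy, hy0⟩, hs⟩ := (L.far ι d v _).1 hf
  have k1 : h ∉ U := fun k => (mem_erase.1 (hU k)).1 rfl
  have k2 : α ∉ insert h U := fun k => by
    rcases mem_insert.1 k with k | k
    · exact hne k.symm
    · exact (mem_erase.1 (mem_of_mem_erase (hU k))).1 rfl
  have k3 : insert α (insert h U) ⊆ Y :=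
    insert_subset hα (insert_subset hh (hU.trans ((erase_subset _ _).trans (erase_subset _ _))))
  have k4 : #(insert α (insert h U)) = d + 2 := by
    rw [card_insert_of_notMem k2, card_insert_of_notMem k1, hc]
  have pos : ∀ x ∈ insert α (insert h U), 0 < l x := by
    intro x hx
    refine lt_of_le_of_ne (h0 x hx) fun e => hy0 ?_
    by_cases exy : y = x
    · rw [exy, ← e]
    · refine gp ((insert α (insert h U)).erase x) ((erase_subset _ _).trans k3)
        (by rw [card_erase_of_mem hx, k4]; omega) l ?_ y (mem_erase.2 ⟨exy, hy⟩)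
      rw [sum_erase _ (by rw [← e, zero_smul])]
      exact hs
  refine ⟨l, pos _ (mem_insert_self _ _), pos _ (mem_insert_of_mem (mem_insert_self _ _)),
    fun u hu => pos _ (mem_insert_of_mem (mem_insert_of_mem hu)), fun ψ => ?_⟩
  have := congrArg ψ hs
  rw [sum_insert k2, sum_insert k1, map_zero, map_add, map_add, map_sum] at this
  simpa only [map_smul, smul_eq_mul] using this

end RPvu

theorem rpvu : LIN → PVU := by
  intro L ι _ d v Y α h φ gp hα hV hh hne U hU hc hf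
  obtain ⟨l, l1, l2, l3, l4⟩ := RPvu.dep L gp hα hh hne hU hc hf
  obtain ⟨a1, a2, -⟩ := hV U (hU.trans (erase_subset _ _)) hc
  have e1 := l4 (φ U)
  rw [a1, sum_eq_zero (fun u hu => by rw [a2 u hu, mul_zero])] at e1
  refine ⟨by nlinarith, fun U' hU' hc' hf' p1 p2 => ?_⟩
  obtain ⟨m, m1, m2, m3, m4⟩ := RPvu.dep L gp hα hh hne hU' hc' hf'
  obtain ⟨b1, b2, b3⟩ := hV U' (hU'.trans (erase_subset _ _)) hc'
  have e2 := m4 (φ U')
  rw [b1, sum_eq_zero (fun u hu => by rw [b2 u hu, mul_zero])] at e2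
  have e3 := l4 (φ U')
  have e4 := m4 (φ U)
  rw [b1] at e3
  rw [a1] at e4
  have n1 : ∀ u ∈ U, 0 ≤ l u * φ U' (v u) := fun u hu => mul_nonneg (l3 u hu).le (p2 u hu)
  have s1 := sum_nonneg n1
  have s2 : 0 ≤ ∑ u ∈ U', m u * φ U (v u) :=
    sum_nonneg fun u hu => mul_nonneg (m3 u hu).le (p1 u hu)
  have c3 : φ U (v h) ≤ φ U' (v h) := le_of_mul_le_mul_left (by linarith) m2
  have c4 : l h * φ U (v h) ≤ l h * φ U' (v h) := mul_le_mul_of_nonneg_left c3 l2.le
  have s3 : ∑ u ∈ U, l u * φ U' (v u) = 0 := by linarith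
  refine eq_of_subset_of_card_le (fun u hu => ?_) (by rw [hc, hc'])
  by_contra k
  have k1 := (sum_eq_zero_iff_of_nonneg n1).1 s3 u hu
  exact b3 u (mem_of_mem_erase (mem_of_mem_erase (hU hu))) k
    ((mul_eq_zero.1 k1).resolve_left (l3 u hu).ne')

end Pool.Agent.MP_ff3a4f_co.AD
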