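import Pool.Agent.MP_ff3a4f_co.AD.Spec

/-! Row PVV: a feasible sample has a vertex without violators. -/

namespace Pool.Agent.MP_ff3a4f_co.AD

open Finset
open scoped Classical

namespace RPvv

theorem zeros (L : LIN) {ι : Type} [DecidableEq ι] {d : ℕ} {v : ι → Vec d} {Y X : Finset ι} {α : ι}
    (hg : GP v Y) (hα : α ∈ Y) (hX : X ⊆ Y.erase α) (hd : d ≤ #X) (hf : Feas v (insert α X))
    (j : ℕ) (hj : j ≤ d) : ∃ (ψ : Vec d →ₗ[ℝ] ℝ) (U : Finset ι), U ⊆ X ∧ #U = j ∧ ψ (v α) = 1 ∧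
      (∀ x ∈ X, 0 ≤ ψ (v x)) ∧ ∀ x ∈ U, ψ (v x) = 0 := by
  induction j with
  | zero =>
    obtain ⟨φ, h⟩ := hf
    have h0 := h α (mem_insert_self _ _)
    refine ⟨(φ (v α))⁻¹ • φ, ∅, empty_subset _, rfl, by simp [h0.ne'], fun x hx => ?_, by simp⟩
    have := h x (mem_insert_of_mem hx)
    simp only [LinearMap.smul_apply, smul_eq_mul]
    positivity
  | succ j ih =>
    obtain ⟨ψ, U, u1, u2, u3, u4, u5⟩ := ih (by omega)
    obtain ⟨x0, a1, a2⟩ := exists_mem_notMem_of_card_lt_card (show #U < #X by omega)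
    have hY : X ⊆ Y := hX.trans (erase_subset _ _)
    obtain ⟨χ, hχ⟩ := L.pre ι d v Y (insert α (insert x0 U)) (fun x => if x = x0 then -1 else 0) hg
      (insert_subset hα (insert_subset (hY a1) (u1.trans hY)))
      ((card_insert_le _ _).trans (by rw [card_insert_of_notMem a2]; omega))
    have c0 : χ (v α) = 0 := by
      rw [hχ α (by simp), if_neg (ne_of_mem_erase (hX a1)).symm]
    have c1 : χ (v x0) = -1 := by rw [hχ x0 (by simp), if_pos rfl]
    have c2 : ∀ x ∈ U, χ (v x) = 0 := fun x hx => by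
      rw [hχ x (by simp [hx]), if_neg (fun e : x = x0 => a2 (e ▸ hx))]
    obtain ⟨x1, b1, b2⟩ := exists_min_image (X.filter fun x => χ (v x) < 0)
      (fun x => ψ (v x) / (-χ (v x))) ⟨x0, mem_filter.2 ⟨a1, by rw [c1]; norm_num⟩⟩
    obtain ⟨b3, b4⟩ := mem_filter.1 b1
    have b5 : x1 ∉ U := fun h => b4.ne (c2 x1 h)
    have ht : 0 ≤ ψ (v x1) / (-χ (v x1)) := div_nonneg (u4 x1 b3) (by linarith)
    refine ⟨ψ + (ψ (v x1) / (-χ (v x1))) • χ, insert x1 U, insert_subset b3 u1,
      by rw [card_insert_of_notMem b5, u2], by simp [c0, u3], fun x hx => ?_, fun x hx => ?_⟩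
    · simp only [LinearMap.add_apply, LinearMap.smul_apply, smul_eq_mul]
      by_cases e : χ (v x) < 0
      · have := (le_div_iff₀ (show 0 < -χ (v x) by linarith)).1 (b2 x (mem_filter.2 ⟨hx, e⟩))
        linarith
      · exact add_nonneg (u4 x hx) (mul_nonneg ht (not_lt.1 e))
    · simp only [LinearMap.add_apply, LinearMap.smul_apply, smul_eq_mul]
      rcases mem_insert.1 hx with rfl | hx
      · have := b4.ne
        field_simp
        ring
      · rw [u5 x hx, c2 x hx]; simp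

end RPvv

theorem rpvv : LIN → PVV := by
  intro L ι _ d v Y X α φ hg hα hV hX hd hf
  obtain ⟨ψ, U, u1, u2, u3, u4, u5⟩ := RPvv.zeros L hg hα hX hd hf d le_rfl
  obtain ⟨p1, p2, -⟩ := hV U (u1.trans hX) u2
  refine ⟨U, u1, u2, fun x hx => ?_⟩
  by_cases e : x ∈ U
  · exact (p2 x e).ge
  have hαU : α ∉ U := fun h => notMem_erase α Y (hX (u1 h))
  have hxS : x ∉ insert α U := by
    simp only [mem_insert, not_or]
    exact ⟨ne_of_mem_erase (hX hx), e⟩
  have hc : #(insert α U) = d + 1 := by rw [card_insert_of_notMem hαU, u2]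
  obtain ⟨l, ⟨y, y1, y2⟩, hl⟩ := L.dex ι d v (insert x (insert α U))
    (by rw [card_insert_of_notMem hxS, hc])
  rw [sum_insert hxS] at hl
  have hlx : l x ≠ 0 := by
    intro h
    rw [h, zero_smul, zero_add] at hl
    rcases mem_insert.1 y1 with rfl | y1
    · exact y2 h
    · exact y2 (hg _ (insert_subset hα (u1.trans (hX.trans (erase_subset _ _)))) hc.le l hl y y1)
  have h2 := congrArg (ψ - φ U) hl
  rw [map_add, map_sum, map_zero, sum_eq_zero, add_zero, map_smul, smul_eq_mul,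
    LinearMap.sub_apply] at h2
  · have := (mul_eq_zero.1 h2).resolve_left hlx
    linarith [u4 x hx]
  · intro z hz
    rw [map_smul, LinearMap.sub_apply]
    rcases mem_insert.1 hz with rfl | hz
    · rw [u3, p1]; simp
    · rw [u5 z hz, p2 z hz]; simp

end Pool.Agent.MP_ff3a4f_co.AD
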