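import Mathlib.Analysis.Normed.Module.FiniteDimension
import Pool.Agent.MP_ff3a4f_co.AD.Spec

/-! A point inside a simplex of the other colour stays inside under small perturbations. -/

namespace Pool.Agent.MP_ff3a4f_co.AD

open Finset Filter Topology
open scoped Classical

namespace RRob

theorem one {d N : ℕ} {p : ℕ → Pt d} {T : Finset ℕ} {o : ℕ} (h : Blk N p T o) :
    ∃ δ : ℝ, 0 < δ ∧ ∀ p' : ℕ → Pt d, (∀ i ∈ insert o T, ‖p' i - p i‖ < δ) →
      ¬ LSep N p' (insert o T) := by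
  obtain ⟨⟨j, hj⟩, hT, ho, h0, ⟨l, hl, hs⟩, hw⟩ := h
  let f : Pt d →ₗ[ℝ] (T → ℝ) := LinearMap.pi fun i : T => l i • innerₛₗ ℝ (p i)
  have hf : ∀ w (i : T), f w i = l i * inner ℝ w (p i) := fun w i => by
    simp only [f, LinearMap.pi_apply, LinearMap.smul_apply, innerₛₗ_apply_apply, smul_eq_mul]
    rw [real_inner_comm]
  obtain ⟨K, hK, hA⟩ := f.exists_antilipschitzWith (LinearMap.ker_eq_bot'.2 fun w h =>
    hw w fun i hi => by
      have := congrFun h ⟨i, hi⟩
      rw [hf] at this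
      exact (mul_eq_zero.1 this).resolve_left (hl i hi).ne')
  set L : ℝ := ∑ i ∈ T, l i with hL
  have hL0 : 0 ≤ L := sum_nonneg fun i hi => (hl i hi).le
  have hK0 : (0 : ℝ) ≤ K := K.2
  have hp : 0 < 4 * K * L + 1 := by positivity
  refine ⟨1 / (4 * K * L + 1), by positivity, fun p' hp' ⟨w, c, hc⟩ => ?_⟩
  set δ : ℝ := 1 / (4 * K * L + 1) with hδ
  have hδ0 : 0 < δ := by positivity
  have hδ1 : δ * (4 * K * L + 1) = 1 := by rw [hδ]; field_simp
  have cs : ∀ i ∈ insert o T, |inner ℝ w (p' i) - inner ℝ w (p i)| ≤ δ * ‖w‖ := fun i hi => by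
    rw [← inner_sub_right, mul_comm]
    exact (abs_real_inner_le_norm _ _).trans
      (mul_le_mul_of_nonneg_left (hp' i hi).le (norm_nonneg _))
  have co : inner ℝ w (p' o) < c := (hc o (mem_insert_self _ _)).2 ho
  have c0 := abs_le.1 (cs o (mem_insert_self _ _))
  rw [h0, inner_zero_right] at c0
  have hn : 0 ≤ δ * ‖w‖ := by positivity
  have ab : ∀ i ∈ T, l i * |inner ℝ w (p i)| ≤
      l i * inner ℝ w (p i) + l i * (4 * (δ * ‖w‖)) := fun i hi => by
    have c1 := (hc i (mem_insert_of_mem hi)).1 (hT i hi)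
    have c2 := abs_le.1 (cs i (mem_insert_of_mem hi))
    rw [← mul_add]
    exact mul_le_mul_of_nonneg_left (abs_le.2 ⟨by linarith, by linarith⟩) (hl i hi).le
  have z : ∑ i ∈ T, l i * inner ℝ w (p i) = 0 := by
    have := congrArg (inner ℝ w) hs
    rw [inner_sum, inner_zero_right] at this
    simpa only [inner_smul_right] using this
  have sb : ∑ i ∈ T, l i * |inner ℝ w (p i)| ≤ L * (4 * (δ * ‖w‖)) := by
    refine (sum_le_sum ab).trans ?_
    rw [sum_add_distrib, z, zero_add, ← sum_mul]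
  have nb : ‖f w‖ ≤ L * (4 * (δ * ‖w‖)) := by
    refine (pi_norm_le_iff_of_nonneg (by positivity)).2 fun i => ?_
    rw [hf, Real.norm_eq_abs, abs_mul, abs_of_pos (hl i i.2)]
    exact (single_le_sum (f := fun i => l i * |inner ℝ w (p i)|)
      (fun i hi => mul_nonneg (hl i hi).le (abs_nonneg _)) i.2).trans sb
  have n1 : ‖w‖ ≤ K * ‖f w‖ := by
    have := hA.le_mul_dist w 0
    rwa [map_zero, dist_zero_right, dist_zero_right] at this
  have n2 : ‖w‖ ≤ K * (L * (4 * (δ * ‖w‖))) := n1.trans (mul_le_mul_of_nonneg_left nb hK0)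
  have n3 : δ * ‖w‖ ≤ 0 := by
    have : K * (L * (4 * (δ * ‖w‖))) + δ * ‖w‖ = ‖w‖ := by
      calc _ = δ * (4 * K * L + 1) * ‖w‖ := by ring
        _ = ‖w‖ := by rw [hδ1, one_mul]
    linarith
  have w0 : w = 0 := norm_le_zero_iff.1 (le_of_mul_le_mul_left (by simpa using n3) hδ0)
  have c1 := (hc j (mem_insert_of_mem hj)).1 (hT j hj)
  rw [w0, inner_zero_left] at c1 co
  linarith

end RRob

theorem rrob : ROB := by
  intro d N I p
  have h : ∀ᶠ δ : ℝ in 𝓝[>] 0, ∀ T ∈ I.powerset, ∀ o ∈ I, Blk N p T o →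
      ∀ p' : ℕ → Pt d, (∀ i ∈ insert o T, ‖p' i - p i‖ < δ) → ¬ LSep N p' (insert o T) := by
    refine (eventually_all_finset _).2 fun T _ => (eventually_all_finset _).2 fun o _ => ?_
    by_cases hb : Blk N p T o
    · obtain ⟨δ, h0, h1⟩ := RRob.one hb
      filter_upwards [Ioo_mem_nhdsGT h0] with ε hε _ p' hp'
      exact h1 p' fun i hi => (hp' i hi).trans hε.2
    · exact Eventually.of_forall fun _ h => absurd h hb
  obtain ⟨δ, h1, h0⟩ := (h.and self_mem_nhdsWithin).exists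
  exact ⟨δ, h0, fun p' hp' T hT o ho hb => h1 T (mem_powerset.2 hT) o ho hb p'
    fun i hi => hp' i (insert_subset ho hT hi)⟩

end Pool.Agent.MP_ff3a4f_co.AD
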