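import Pool.Agent.MP_ff3a4f_co.AD.Spec

/-! Row SAM: random sampling. -/

namespace Pool.Agent.MP_ff3a4f_co.AD

open Finset

namespace Sam

variable {ι : Type} [DecidableEq ι]

noncomputable def wt (V : Finset ι) (r : ℝ) (X : Finset ι) : ℝ := r ^ #X * (1 - r) ^ #(V \ X)

noncomputable def ind (θ : ℝ) (U Z X : Finset ι) : ℝ := if U ⊆ X then θ ^ #(Z ∩ X) else 0

theorem ind_nn {θ : ℝ} (h : 0 < θ) (U Z X : Finset ι) : 0 ≤ ind θ U Z X := by
  unfold ind
  split_ifs <;> positivity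

theorem ex {V U Z : Finset ι} (r θ : ℝ) (hU : U ⊆ V) (hZ : Z ⊆ V) (hd : Disjoint U Z) :
    ∑ X ∈ V.powerset, wt V r X * ind θ U Z X = r ^ #U * (1 - r + r * θ) ^ #Z := by
  have key := prod_add (fun x => r * if x ∈ Z then θ else 1) (fun x => if x ∈ U then 0 else 1 - r) V
  have l : ∏ x ∈ V, ((r * if x ∈ Z then θ else 1) + if x ∈ U then 0 else 1 - r) =
      r ^ #U * (1 - r + r * θ) ^ #Z := by
    have : ∀ x ∈ V, ((r * if x ∈ Z then θ else 1) + if x ∈ U then 0 else 1 - r) =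
        (if x ∈ U then r else 1) * if x ∈ Z then 1 - r + r * θ else 1 := by
      intro x _
      by_cases a : x ∈ U
      · have b : x ∉ Z := disjoint_left.1 hd a
        simp [a, b]
      · by_cases b : x ∈ Z
        · simp only [a, b, if_true, if_false]; ring
        · simp only [a, b, if_false]; ring
    rw [prod_congr rfl this, prod_mul_distrib, prod_ite_mem, prod_ite_mem, prod_const, prod_const,
      inter_eq_right.2 hU, inter_eq_right.2 hZ]
  rw [← l, key]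
  refine sum_congr rfl fun X hX => ?_
  rw [prod_mul_distrib, prod_const, prod_ite_mem, prod_const, inter_comm X Z, wt, ind]
  split_ifs with h
  · rw [prod_congr rfl (g := fun _ => 1 - r) fun x hx => if_neg fun k => (mem_sdiff.1 hx).2 (h k),
      prod_const]
    ring
  · obtain ⟨x, a, b⟩ := not_subset.1 h
    rw [prod_eq_zero (f := fun x => if x ∈ U then (0 : ℝ) else 1 - r) (mem_sdiff.2 ⟨hU a, b⟩)
      (if_pos a)]
    ring

theorem ex1 {V U : Finset ι} (r : ℝ) (hU : U ⊆ V) :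
    ∑ X ∈ V.powerset, wt V r X * ind 1 U ∅ X = r ^ #U := by
  simpa using ex r 1 hU (empty_subset V) (disjoint_empty_right U)

theorem one_le {θ : ℝ} (h : 0 < θ) (h1 : θ ≤ 1) {U Z X : Finset ι} {k : ℕ} (hU : U ⊆ X)
    (hk : #(Z ∩ X) < k) : 1 ≤ ind θ U Z X / θ ^ k := by
  rw [ind, if_pos hU, one_le_div (by positivity)]
  exact pow_le_pow_of_le_one h.le h1 hk.le

theorem tail {r θ : ℝ} (h0 : 0 ≤ r) (h1 : r ≤ 1) (t0 : 0 < θ) (t1 : θ ≤ 1) {K n : ℕ} (h : K ≤ n) :
    (1 - r + r * θ) ^ n ≤ Real.exp (-(r * K * (1 - θ))) := by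
  have a : 0 ≤ 1 - r + r * θ := by nlinarith
  have b : 1 - r + r * θ ≤ 1 := by nlinarith
  have c : 1 - r + r * θ ≤ Real.exp (-(r * (1 - θ))) := by
    have := Real.add_one_le_exp (-(r * (1 - θ)))
    linarith
  calc _ ≤ (1 - r + r * θ) ^ K := pow_le_pow_of_le_one a b h
    _ ≤ Real.exp (-(r * (1 - θ))) ^ K := pow_le_pow_left₀ a c K
    _ = _ := by rw [← Real.exp_nat_mul]; congr 1; ring

end Sam

open Sam in
theorem rsam : SAM := by
  intro ι _ d k K V 𝒯 Γ Z r θ M r0 r1 t0 t1 hM dk dV hT hΓ hZ H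
  obtain ⟨U0, u0, c0⟩ := exists_subset_card_eq dV
  have tk : 0 < θ ^ k := by positivity
  have pt : ∀ X ∈ V.powerset, M * (ind 1 ∅ ∅ X - ind θ ∅ (Z U0) X / θ ^ k -
      ∑ U ∈ V.powersetCard d, ind θ U (Z U) X / θ ^ k - ∑ U ∈ Γ, ind 1 U ∅ X) ≤
        ∑ T ∈ 𝒯, ind 1 T ∅ X := by
    intro X hX
    rw [mem_powerset] at hX
    have e0 : ind 1 ∅ ∅ X = 1 := by simp [ind]
    have n1 : 0 ≤ ind θ ∅ (Z U0) X / θ ^ k := div_nonneg (ind_nn t0 _ _ _) tk.le
    have n2 : ∀ U ∈ V.powersetCard d, 0 ≤ ind θ U (Z U) X / θ ^ k :=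
      fun U _ => div_nonneg (ind_nn t0 _ _ _) tk.le
    have n3 : ∀ U ∈ Γ, 0 ≤ ind 1 U ∅ X := fun U _ => ind_nn one_pos _ _ _
    have n4 : 0 ≤ ∑ T ∈ 𝒯, ind 1 T ∅ X := sum_nonneg fun U _ => ind_nn one_pos _ _ _
    have s2 := sum_nonneg n2
    have s3 := sum_nonneg n3
    rw [e0]
    by_cases a : d ≤ #X
    · by_cases b : ∀ U ⊆ X, #U = d → k ≤ #(Z U ∩ X)
      · by_cases c : ∀ U ∈ Γ, ¬ U ⊆ X
        · have := H X hX a b c
          have e : ∑ T ∈ 𝒯, ind 1 T ∅ X = (#{T ∈ 𝒯 | T ⊆ X} : ℝ) := by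
            simp [ind]
          rw [e]
          refine le_trans ?_ this
          exact mul_le_of_le_one_right hM (by linarith)
        · push Not at c
          obtain ⟨U, u, v⟩ := c
          have := single_le_sum n3 u
          have e : ind 1 U ∅ X = 1 := by simp [ind, v]
          exact le_trans (mul_nonpos_of_nonneg_of_nonpos hM (by linarith)) n4
      · push Not at b
        obtain ⟨U, u, v, w⟩ := b
        have := single_le_sum n2 (mem_powersetCard.2 ⟨u.trans hX, v⟩)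
        have e := one_le t0 t1 u w
        exact le_trans (mul_nonpos_of_nonneg_of_nonpos hM (by linarith)) n4
    · have w : #(Z U0 ∩ X) < k := lt_of_le_of_lt (card_le_card inter_subset_right) (by omega)
      have e := one_le t0 t1 (empty_subset X) w
      exact le_trans (mul_nonpos_of_nonneg_of_nonpos hM (by linarith)) n4
  have w0 : ∀ X, 0 ≤ wt V r X := fun X => mul_nonneg (pow_nonneg r0 _) (pow_nonneg (by linarith) _)
  have S := sum_le_sum fun X hX => mul_le_mul_of_nonneg_left (pt X hX) (w0 X)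
  have R : ∑ X ∈ V.powerset, wt V r X * ∑ T ∈ 𝒯, ind 1 T ∅ X = r ^ (d + 1) * #𝒯 := by
    simp only [mul_sum]
    rw [sum_comm, sum_congr rfl (g := fun _ => r ^ (d + 1)) fun T h => by
      obtain ⟨a, b⟩ := mem_powersetCard.1 (hT h)
      rw [ex1 r a, b], sum_const, nsmul_eq_mul, mul_comm]
  have G : ∑ X ∈ V.powerset, wt V r X * ∑ T ∈ Γ, ind 1 T ∅ X = r ^ d * #Γ := by
    simp only [mul_sum]
    rw [sum_comm, sum_congr rfl (g := fun _ => r ^ d) fun T h => by
      obtain ⟨a, b⟩ := mem_powersetCard.1 (hΓ h)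
      rw [ex1 r a, b], sum_const, nsmul_eq_mul, mul_comm]
  have A0 : ∑ X ∈ V.powerset, wt V r X * ind 1 ∅ ∅ X = 1 := by simpa using ex1 r (empty_subset V)
  set q := Real.exp (-(r * K * (1 - θ))) / θ ^ k with hq
  have q0 : 0 ≤ q := by positivity
  have A1 : ∀ U W : Finset ι, U ⊆ V → W ⊆ V → Disjoint U W → K ≤ #W →
      ∑ X ∈ V.powerset, wt V r X * (ind θ U W X / θ ^ k) ≤ r ^ #U * q := by
    intro U W a b c e
    simp only [← mul_div_assoc, hq]
    rw [← sum_div, ex r θ a b c]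
    exact div_le_div_of_nonneg_right
      (mul_le_mul_of_nonneg_left (tail r0 r1 t0 t1 e) (pow_nonneg r0 _)) tk.le
  have A2 : ∑ X ∈ V.powerset, wt V r X * (ind θ ∅ (Z U0) X / θ ^ k) ≤ q := by
    obtain ⟨a, _, c⟩ := hZ U0 u0 c0
    simpa using A1 ∅ (Z U0) (empty_subset V) a (disjoint_empty_left _) c
  have A3 : ∑ X ∈ V.powerset, wt V r X * ∑ U ∈ V.powersetCard d, ind θ U (Z U) X / θ ^ k ≤
      (#V * r) ^ d * q := by
    simp only [mul_sum]
    rw [sum_comm]
    refine (sum_le_card_nsmul _ _ (r ^ d * q) fun U h => ?_).trans ?_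
    · obtain ⟨a, b⟩ := mem_powersetCard.1 h
      obtain ⟨x, y, z⟩ := hZ U a b
      exact b ▸ A1 U (Z U) a x y z
    · rw [card_powersetCard, nsmul_eq_mul, mul_pow, mul_assoc]
      refine mul_le_mul_of_nonneg_right ?_ (by positivity)
      exact_mod_cast Nat.choose_le_pow _ _
  rw [R] at S
  refine le_trans ?_ S
  have e : ∀ X, wt V r X * (M * (ind 1 ∅ ∅ X - ind θ ∅ (Z U0) X / θ ^ k -
      ∑ U ∈ V.powersetCard d, ind θ U (Z U) X / θ ^ k - ∑ U ∈ Γ, ind 1 U ∅ X)) =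
      M * (wt V r X * ind 1 ∅ ∅ X - wt V r X * (ind θ ∅ (Z U0) X / θ ^ k) -
        wt V r X * ∑ U ∈ V.powersetCard d, ind θ U (Z U) X / θ ^ k -
          wt V r X * ∑ U ∈ Γ, ind 1 U ∅ X) := fun X => by ring
  simp only [e]
  rw [← mul_sum, sum_sub_distrib, sum_sub_distrib, sum_sub_distrib, A0, G]
  refine mul_le_mul_of_nonneg_left ?_ hM
  linarith

end Pool.Agent.MP_ff3a4f_co.AD
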