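import Pool.Agent.MP_ff3a4f_co.AD.Spec

/-! The properties of the test function. -/

namespace Pool.Agent.MP_ff3a4f_co.AD

open Finset
open scoped Classical

namespace RTst

theorem zero {d : ℕ} (hd : 1 ≤ d) {κ i : ℝ} (j : ℝ) (hi : κ ≤ i) : tf d κ i j = 0 := by
  unfold tf
  split_ifs with hj
  · rw [intervalIntegral.integral_congr (g := fun _ => 0), intervalIntegral.integral_zero, mul_zero]
    intro s hs
    rw [Set.uIcc_of_le zero_le_one] at hs
    have h1 := mul_nonneg (sub_nonneg.2 hs.2) (sub_nonneg.2 hi)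
    have h2 := mul_nonneg hs.1 (sub_nonneg.2 hj)
    show max _ 0 ^ d = 0
    rw [max_eq_right (by linarith), zero_pow (by omega)]
  · rfl

theorem fil {ι : Type} [DecidableEq ι] {R A B : Finset ι} (hd : Disjoint A B) (h : R ⊆ A ∪ B) :
    R.filter (· ∈ A) = R ∩ A ∧ R.filter (fun x => ¬ x ∈ A) = R ∩ B := by
  refine ⟨filter_mem_eq_inter, ?_⟩
  ext x
  simp only [mem_filter, mem_inter]
  exact and_congr_right fun hx => ⟨fun h' => (mem_union.1 (h hx)).resolve_left h',
    fun h' => disjoint_right.1 hd h'⟩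

end RTst

theorem rtst : DIF → BET → FEY → TST := by
  intro hD hB hF
  refine ⟨fun d κ i j hd h => ?_, fun ι _ U A B κ i j hU hd hs h => ?_⟩
  · by_cases hj : κ ≤ j
    · rw [tf, if_pos hj, ← hF d (j - κ) (κ - i) hd (by linarith)]
      congr 1; ring
    · rw [tf, if_neg hj, max_eq_right (by linarith [h.resolve_right hj])]
      simp
  by_cases hj : κ ≤ j
  swap
  · rw [sum_eq_zero fun R _ => by
      rw [RTst.zero hU _ ((h.resolve_right hj).trans (le_add_of_nonneg_right (by positivity))),
        mul_zero]]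
    exact ⟨le_rfl, by positivity⟩
  set F : Finset ι → ℝ → ℝ := fun R s => (-1 : ℝ) ^ #R *
    max ((1 - s) * (κ - i) - s * (j - κ) - ∑ x ∈ R, (if x ∈ A then 1 - s else s)) 0 ^ #U with hFd
  have hc : ∀ R, Continuous (F R) := fun R => by
    have : Continuous fun s : ℝ => ∑ x ∈ R, (if x ∈ A then 1 - s else s) :=
      continuous_finsetSum _ fun x _ => by split_ifs <;> fun_prop
    simp only [hFd]
    fun_prop
  have e : ∑ R ∈ U.powerset, (-1 : ℝ) ^ #R * tf (#U) κ (i + #(R ∩ A)) (j + #(R ∩ B)) =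
      (#U + 1) * ∫ s in (0 : ℝ)..1, ∑ R ∈ U.powerset, F R s := by
    rw [intervalIntegral.integral_finsetSum fun R _ => (hc R).intervalIntegrable _ _, mul_sum]
    refine sum_congr rfl fun R hR => ?_
    obtain ⟨f1, f2⟩ := RTst.fil hd ((mem_powerset.1 hR).trans hs)
    rw [tf, if_pos (hj.trans (le_add_of_nonneg_right (by positivity))), hFd,
      intervalIntegral.integral_const_mul, mul_left_comm]
    congr 3
    funext s
    rw [sum_ite, sum_const, sum_const, f1, f2, nsmul_eq_mul, nsmul_eq_mul]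
    congr 2; ring
  obtain ⟨f1, f2⟩ := RTst.fil hd hs
  have hn : #(U ∩ B) + #(U ∩ A) = #U := by
    rw [← f1, ← f2, add_comm]; exact card_filter_add_card_filter_not _
  have hb : ∀ s ∈ Set.Icc (0 : ℝ) 1, 0 ≤ ∑ R ∈ U.powerset, F R s ∧
      ∑ R ∈ U.powerset, F R s ≤ (#U).factorial * (s ^ #(U ∩ B) * (1 - s) ^ #(U ∩ A)) := by
    intro s hs
    have := hD ι U (fun x => if x ∈ A then 1 - s else s) ((1 - s) * (κ - i) - s * (j - κ))
      fun x _ => by split_ifs <;> linarith [hs.1, hs.2]
    rwa [prod_ite, prod_const, prod_const, f1, f2, mul_comm ((1 - s) ^ _)] at this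
  rw [e]
  refine ⟨mul_nonneg (by positivity)
    (intervalIntegral.integral_nonneg zero_le_one fun s hs => (hb s hs).1), ?_⟩
  have h1 := intervalIntegral.integral_mono_on (μ := MeasureTheory.volume) zero_le_one
    ((continuous_finsetSum _ fun R _ => hc R).intervalIntegrable _ _)
    (Continuous.intervalIntegrable (by fun_prop) _ _) fun s hs => (hb s hs).2
  refine (mul_le_mul_of_nonneg_left h1 (by positivity)).trans (le_of_eq ?_)
  rw [intervalIntegral.integral_const_mul, hB, hn, Nat.factorial_succ]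
  have : ((#U).factorial : ℝ) ≠ 0 := by positivity
  push_cast
  field_simp

end Pool.Agent.MP_ff3a4f_co.AD
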