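import Pool.Agent.MP_ff3a4f_co.AD.Spec

/-! At most two infeasible subsets of size `d + 2` in a set of size `d + 3`. -/

namespace Pool.Agent.MP_ff3a4f_co.AD

open Finset
open scoped Classical

namespace RTwo

theorem pos (L : LIN) {ι : Type} [DecidableEq ι] {d : ℕ} {v : ι → Vec d} {Y F : Finset ι}
    (g : GP v Y) (hF : F ⊆ Y) (hc : #F = d + 3) {p : ι} (hp : p ∈ F)
    (h : ¬ Feas v (F.erase p)) :
    ∃ l : ι → ℝ, l p = 0 ∧ (∀ x ∈ F, x ≠ p → 0 < l x) ∧ ∑ x ∈ F, l x • v x = 0 := by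
  obtain ⟨l, h1, ⟨x0, h2, h3⟩, h4⟩ := (L.far ι d v _).1 h
  refine ⟨fun x => if x = p then 0 else l x, if_pos rfl, fun y hy e => ?_, ?_⟩
  · have my : y ∈ F.erase p := mem_erase.2 ⟨e, hy⟩
    beta_reduce
    rw [if_neg e]
    refine (h1 y my).lt_of_ne fun k => ?_
    have a : ∑ x ∈ (F.erase p).erase y, l x • v x = 0 := by
      rw [← add_sum_erase _ _ my, ← k, zero_smul, zero_add] at h4
      exact h4
    have b := g _ (((erase_subset _ _).trans (erase_subset _ _)).trans hF)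
      (by rw [card_erase_of_mem my, card_erase_of_mem hp]; omega) l a
    by_cases u : x0 = y
    · exact h3 (u ▸ k.symm)
    · exact h3 (b x0 (mem_erase.2 ⟨u, h2⟩))
  · beta_reduce
    rw [← add_sum_erase _ _ hp, if_pos rfl, zero_smul, zero_add, ← h4]
    exact sum_congr rfl fun x hx => by rw [if_neg (mem_erase.1 hx).1]

end RTwo

theorem rtwo : LIN → TWO := by
  intro L ι _ d v Y F g hF hc p hp q hq r hr pq pr qr h1 h2 h3
  obtain ⟨a, a0, a1, a2⟩ := RTwo.pos L g hF hc hp h1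
  obtain ⟨b, b0, b1, b2⟩ := RTwo.pos L g hF hc hq h2
  obtain ⟨c, c0, c1, c2⟩ := RTwo.pos L g hF hc hr h3
  have mr : r ∈ F.erase p := mem_erase.2 ⟨pr.symm, hr⟩
  have s : ∑ x ∈ F, (c p * a r * b x - c p * b r * a x - a r * b p * c x) • v x = 0 := by
    simp only [sub_smul, mul_smul (c p * a r), mul_smul (c p * b r), mul_smul (a r * b p),
      sum_sub_distrib, ← smul_sum, a2, b2, c2, smul_zero, sub_zero]
  rw [← add_sum_erase _ _ hp, ← add_sum_erase _ _ mr, a0, c0,
    show c p * a r * b p - c p * b r * 0 - a r * b p * c p = 0 by ring,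
    show c p * a r * b r - c p * b r * a r - a r * b p * 0 = 0 by ring, zero_smul, zero_smul,
    zero_add, zero_add] at s
  have k := g _ (((erase_subset _ _).trans (erase_subset _ _)).trans hF)
    (by rw [card_erase_of_mem mr, card_erase_of_mem hp]; omega) _ s q
    (mem_erase.2 ⟨qr, mem_erase.2 ⟨pq.symm, hq⟩⟩)
  have u1 := mul_pos (mul_pos (c1 p hp pr) (b1 r hr qr.symm)) (a1 q hq pq.symm)
  have u2 := mul_pos (mul_pos (a1 r hr pr.symm) (b1 p hp pq)) (c1 q hq qr)
  beta_reduce at k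
  rw [b0] at k
  linarith

end Pool.Agent.MP_ff3a4f_co.AD
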