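import Pool.Agent.MP_ff3a4f_co.AD.Spec
import Mathlib.Data.Nat.Choose.Bounds

/-! The upper bound for points from the count of infeasible sets. -/

namespace Pool.Agent.MP_ff3a4f_co.AD

open Finset Pool.Agent.MP_ff3a4f_co.Kirchberger
open scoped Classical

namespace RUpp

theorem num (d N : ℕ) (ρ : ℝ) (hρ : 0 < ρ) :
    (d.factorial : ℝ) * (cd d * ρ ^ (d + 1) * ((2 * N).choose (d + 2) : ℝ)) ≤
      2 * N * (ρ * N) ^ (d + 1) := by
  have h : (((2 * N).choose (d + 2) : ℕ) : ℝ) ≤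
      ((2 * N : ℕ) : ℝ) ^ (d + 2) / ((d + 2).factorial : ℝ) := Nat.choose_le_pow_div _ _
  have f : (0 : ℝ) < d.factorial := by exact_mod_cast d.factorial_pos
  have c : 0 ≤ cd d := by unfold cd; positivity
  calc _ ≤ (d.factorial : ℝ) * (cd d * ρ ^ (d + 1) *
        (((2 * N : ℕ) : ℝ) ^ (d + 2) / ((d + 2).factorial : ℝ))) := by gcongr
    _ = _ := by
      unfold cd
      rw [Nat.factorial_succ, Nat.factorial_succ]
      push_cast
      field_simp
      ring

end RUpp

theorem rupp : CNT → BRG → UPP := by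
  intro hC hB d η hd hη
  obtain ⟨ρ₀, h0, h⟩ := hC d η hd hη
  refine ⟨ρ₀, h0, fun ρ hρ hρ0 N A B hAB cA cB gp hgood => ?_⟩
  obtain ⟨γ, hγ⟩ : ∃ γ, γ = (1 + η) * ρ := ⟨_, rfl⟩
  have γ0 : 0 < γ := by rw [hγ]; positivity
  have cU : #(A ∪ B) = 2 * N := by rw [card_union_of_disjoint hAB, cA, cB]; ring
  rw [← hγ]
  by_cases hN : 2 * N ≤ d
  · have : (1 - γ) * N ≤ N := mul_le_of_le_one_left (Nat.cast_nonneg _) (by linarith)
    exact ⟨A, Subset.rfl, B, Subset.rfl,
      separated_of_affineIndependent hd A B hAB (gp _ Subset.rfl (by omega)), cA ▸ this, cB ▸ this⟩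
  by_contra hcon
  push Not at hcon
  obtain ⟨v, gv, hv⟩ := hB d A B hd hAB gp
  have key : ∀ j : ℕ, j ≤ N → (j : ℝ) < (1 - γ) * N → j + (⌊γ * N⌋₊ + 1) ≤ N := fun j hj h => by
    obtain ⟨i, rfl⟩ := Nat.exists_eq_add_of_le hj
    have : ⌊γ * ((j + i : ℕ) : ℝ)⌋₊ < i := by
      rw [Nat.floor_lt (by positivity)]
      push_cast at h ⊢
      linarith
    omega
  have D : Deep v A B N (⌊γ * N⌋₊ + 1) := by
    refine ⟨hAB, cA, cB, gv, (hv A subset_union_left).2 ?_, (hv B subset_union_right).2 ?_,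
      fun A' hA' B' hB' f => ?_⟩
    · refine separated_of_weak hd _ _ 0 (-1) (fun p _ => by simp) fun q hq => ?_
      exact absurd (mem_inter.1 hq).1 (disjoint_left.1 hAB (mem_inter.1 hq).2)
    · refine separated_of_weak hd _ _ 0 1 (fun q hq => ?_) fun p _ => by simp
      exact absurd (mem_inter.1 hq).2 (disjoint_left.1 hAB (mem_inter.1 hq).1)
    · obtain ⟨w, c, w0, w1, w2⟩ := (hv _ (union_subset_union hA' hB')).1 f
      have hs : Separated A' B' := ⟨w, c, w0,
        fun p hp => w1 p (mem_inter.2 ⟨hA' hp, mem_union_left _ hp⟩),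
        fun p hp => w2 p (mem_inter.2 ⟨hB' hp, mem_union_right _ hp⟩)⟩
      rcases lt_or_ge (#A' : ℝ) ((1 - γ) * N) with k | k
      · exact Or.inl (key _ (cA ▸ card_le_card hA') k)
      · exact Or.inr (key _ (cB ▸ card_le_card hB') (hcon A' hA' B' hB' hs k))
  have hc := h ρ hρ hρ0 _ N _ v A B (by omega) D (by
    rw [← hγ]; push_cast; exact Nat.lt_floor_add_one _)
  have e : #(goodSets A B) + #(bads v (A ∪ B)) = (2 * N).choose (d + 2) := by
    rw [← cU, ← card_powersetCard, ← card_filter_add_card_filter_not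
      (s := powersetCard (d + 2) (A ∪ B)) (fun S => Feas v S)]
    congr 2
    unfold goodSets
    exact filter_congr fun S hS => (hv S (mem_powersetCard.1 hS).1).symm
  have e' : (#(goodSets A B) : ℝ) + #(bads v (A ∪ B)) = (2 * N).choose (d + 2) := by
    exact_mod_cast e
  have b : (#(bads v (A ∪ B)) : ℝ) ≤ cd d * ρ ^ (d + 1) * ((2 * N).choose (d + 2) : ℝ) := by
    linarith
  exact absurd ((mul_le_mul_of_nonneg_left b (Nat.cast_nonneg _)).trans (RUpp.num d N ρ hρ))
    (not_le.2 hc)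

end Pool.Agent.MP_ff3a4f_co.AD
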