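import Pool.Agent.MP_ff3a4f_co.AD.Spec

/-! Row WRC: the number of sets with the wrong parity pattern. -/

namespace Pool.Agent.MP_ff3a4f_co.AD

open Finset
open scoped Classical

namespace RWrc

def rk (T : Finset ℕ) (i : ℕ) : ℕ := #{j ∈ T | j < i}

def ph (T : Finset ℕ) (i : ℕ) : ℕ := (i + rk T i) / 2

variable {T : Finset ℕ} {i j : ℕ}

theorem rk_lt (hi : i ∈ T) (h : i < j) : rk T i < rk T j :=
  card_lt_card ⟨fun _ a => mem_filter.2 ⟨(mem_filter.1 a).1, (mem_filter.1 a).2.trans h⟩,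
    fun a => lt_irrefl i (mem_filter.1 (a (mem_filter.2 ⟨hi, h⟩))).2⟩

theorem rk_add (hi : i ∈ T) : rk T i + (#{j ∈ T | i < j} + 1) = #T := by
  rw [← card_insert_of_notMem (a := i) fun a => lt_irrefl i (mem_filter.1 a).2,
    ← card_filter_add_card_filter_not (s := T) (· < i), rk]
  congr 2
  ext x
  simp only [mem_insert, mem_filter, not_lt]
  exact ⟨fun a => a.elim (fun e => ⟨e ▸ hi, e.ge⟩) fun e => ⟨e.1, e.2.le⟩,
    fun a => a.2.eq_or_lt.imp Eq.symm fun e => ⟨a.1, e⟩⟩

theorem ph_lt (hi : i ∈ T) (h : i < j) : ph T i < ph T j := by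
  have := rk_lt hi h
  unfold ph
  omega

theorem ph_mono : StrictMonoOn (ph T) T := fun _ a _ _ h => ph_lt a h

theorem rk_ph (hi : i ∈ T) : rk (T.image (ph T)) (ph T i) = rk T i := by
  rw [rk, filter_image, card_image_of_injOn (ph_mono.injOn.mono fun _ a => (mem_filter.1 a).1), rk]
  exact congrArg card (filter_congr fun x hx => ph_mono.lt_iff_lt hx hi)

theorem back (h : wrong T) :
    (T.image (ph T)).image (fun s => 2 * s + #T % 2 - rk (T.image (ph T)) s) = T := by
  rw [image_image]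
  refine (image_congr fun i hi => ?_).trans image_id
  have a1 := Nat.odd_iff.1 (h i hi)
  have a2 := rk_add (mem_coe.1 hi)
  simp only [Function.comp_apply, id, rk_ph (mem_coe.1 hi)]
  unfold ph
  omega

end RWrc

open RWrc in
theorem rwrc : WRC := by
  intro d m
  rw [← card_range (m + d), ← card_powersetCard]
  refine card_le_card_of_injOn (fun T => T.image (ph T)) (fun T hT => ?_) fun T hT U hU e => ?_
  · obtain ⟨a1, a2⟩ := mem_powersetCard.1 (mem_filter.1 (mem_coe.1 hT)).1
    refine mem_coe.2 (mem_powersetCard.2 ⟨fun s hs => ?_,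
      (card_image_of_injOn ph_mono.injOn).trans a2⟩)
    obtain ⟨i, hi, rfl⟩ := mem_image.1 hs
    have b1 := mem_range.1 (a1 hi)
    have b2 := rk_add hi
    rw [mem_range, ph]
    omega
  · obtain ⟨a1, a2⟩ := mem_filter.1 (mem_coe.1 hT)
    obtain ⟨b1, b2⟩ := mem_filter.1 (mem_coe.1 hU)
    have e' : T.image (ph T) = U.image (ph U) := e
    rw [← back a2, e', (mem_powersetCard.1 a1).2, ← (mem_powersetCard.1 b1).2, back b2]

end Pool.Agent.MP_ff3a4f_co.AD
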