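import Pool.Agent.MP_ff3a4f_co.AD.RDif
import Pool.Agent.MP_ff3a4f_co.AD.RBet
import Pool.Agent.MP_ff3a4f_co.AD.RFey
import Pool.Agent.MP_ff3a4f_co.AD.RTst
import Pool.Agent.MP_ff3a4f_co.AD.RMob
import Pool.Agent.MP_ff3a4f_co.AD.RLym
import Pool.Agent.MP_ff3a4f_co.AD.RLin
import Pool.Agent.MP_ff3a4f_co.AD.RAff
import Pool.Agent.MP_ff3a4f_co.AD.RTwo
import Pool.Agent.MP_ff3a4f_co.AD.ROth
import Pool.Agent.MP_ff3a4f_co.AD.RKir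
import Pool.Agent.MP_ff3a4f_co.AD.RPve
import Pool.Agent.MP_ff3a4f_co.AD.RPvu
import Pool.Agent.MP_ff3a4f_co.AD.RPvs
import Pool.Agent.MP_ff3a4f_co.AD.RPvv
import Pool.Agent.MP_ff3a4f_co.AD.RPiv
import Pool.Agent.MP_ff3a4f_co.AD.ROne
import Pool.Agent.MP_ff3a4f_co.AD.RSam
import Pool.Agent.MP_ff3a4f_co.AD.RPai
import Pool.Agent.MP_ff3a4f_co.AD.RSum
import Pool.Agent.MP_ff3a4f_co.AD.RGam
import Pool.Agent.MP_ff3a4f_co.AD.RNum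
import Pool.Agent.MP_ff3a4f_co.AD.RCnt
import Pool.Agent.MP_ff3a4f_co.AD.RBrg
import Pool.Agent.MP_ff3a4f_co.AD.RUpp
import Pool.Agent.MP_ff3a4f_co.AD.RPer
import Pool.Agent.MP_ff3a4f_co.AD.ROpn
import Pool.Agent.MP_ff3a4f_co.AD.RRob
import Pool.Agent.MP_ff3a4f_co.AD.RPol
import Pool.Agent.MP_ff3a4f_co.AD.RWrc
import Pool.Agent.MP_ff3a4f_co.AD.RGoo
import Pool.Agent.MP_ff3a4f_co.AD.RBlk
import Pool.Agent.MP_ff3a4f_co.AD.RLow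
import Pool.Agent.MP_ff3a4f_co.AD.RLnu
import Pool.Agent.MP_ff3a4f_co.AD.RDow
import Pool.Agent.MP_ff3a4f_co.AD.RMain

/-! The sharp constant in every dimension: assembly of the rows. -/

namespace Pool.Agent.MP_ff3a4f_co.AD

theorem all : MAIN :=
  Rows.all ⟨rdif, rbet, rfey, rtst, rmob, rlym, rlin, raff, rtwo, roth, rkir, rpve,
    rpvu, rpvs, rpvv, rpiv, rone, rsam, rpai, rsum, rgam, rnum, rcnt, rbrg,
    rupp, rper, ropn, rrob, rpol, rwrc, rgoo, rblk, rlow, rlnu, rdow, rmain⟩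

end Pool.Agent.MP_ff3a4f_co.AD
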