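import Pool.Agent.MP_ff3a4f_co.AD.Spec

/-! Iterated differences of a truncated power. -/

namespace Pool.Agent.MP_ff3a4f_co.AD

open Finset

namespace RDif

theorem hd (m : ℕ) (hm : m ≠ 0) (x : ℝ) :
    HasDerivAt (fun y : ℝ => max y 0 ^ (m + 1)) ((m + 1 : ℕ) * max x 0 ^ m) x := by
  rcases lt_trichotomy x 0 with hx | rfl | hx
  · rw [max_eq_right hx.le, zero_pow hm, mul_zero]
    refine (hasDerivAt_const x (0 : ℝ)).congr_of_eventuallyEq ?_
    filter_upwards [Iio_mem_nhds hx] with y hy
    rw [max_eq_right (le_of_lt hy), zero_pow (Nat.succ_ne_zero m)]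
  · rw [max_self, zero_pow hm, mul_zero]
    have h1 : HasDerivWithinAt (fun y : ℝ => max y 0 ^ (m + 1)) 0 (Set.Iic 0) 0 :=
      (hasDerivAt_const (0 : ℝ) (0 : ℝ)).hasDerivWithinAt.congr
        (fun y hy => by rw [max_eq_right hy, zero_pow (Nat.succ_ne_zero m)])
        (by rw [max_self, zero_pow (Nat.succ_ne_zero m)])
    have h2 : HasDerivWithinAt (fun y : ℝ => max y 0 ^ (m + 1)) 0 (Set.Ici 0) 0 := by
      have h3 := (hasDerivAt_pow (m + 1) (0 : ℝ)).hasDerivWithinAt (s := Set.Ici 0)
      rw [Nat.add_sub_cancel, zero_pow hm, mul_zero] at h3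
      exact h3.congr (fun y hy => by rw [max_eq_left hy]) (by rw [max_self])
    have h4 := h1.union h2
    rwa [Set.Iic_union_Ici, hasDerivWithinAt_univ] at h4
  · rw [max_eq_left hx.le]
    refine (hasDerivAt_pow (m + 1) x).congr_of_eventuallyEq ?_
    filter_upwards [Ioi_mem_nhds hx] with y hy
    rw [max_eq_left (le_of_lt hy)]

end RDif

theorem rdif : DIF := by
  classical
  intro ι U h w hh
  induction U using Finset.induction_on generalizing w with
  | empty => simp
  | insert a U ha ih =>
    have h0 := hh a (mem_insert_self _ _)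
    have ih' := fun w => ih w fun x hx => hh x (mem_insert_of_mem hx)
    obtain ⟨g, hg⟩ : ∃ g : ℝ → ℝ, g = fun y =>
        ∑ R ∈ U.powerset, (-1 : ℝ) ^ #R * max (y - ∑ x ∈ R, h x) 0 ^ (#U + 1) := ⟨_, rfl⟩
    have e : ∑ R ∈ (insert a U).powerset,
        (-1 : ℝ) ^ #R * max (w - ∑ x ∈ R, h x) 0 ^ #(insert a U) = g w - g (w - h a) := by
      rw [sum_powerset_insert ha, card_insert_of_notMem ha, hg, sub_eq_add_neg (∑ _ ∈ _, _),
        ← sum_neg_distrib]
      congr 1
      refine sum_congr rfl fun R hR => ?_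
      have haR : a ∉ R := fun h' => ha (mem_powerset.1 hR h')
      rw [card_insert_of_notMem haR, sum_insert haR, sub_sub]
      ring
    rw [e, card_insert_of_notMem ha, prod_insert ha]
    by_cases hU : U = ∅
    · subst hU
      simp only [hg, powerset_empty, sum_singleton, card_empty, sum_empty, prod_empty, pow_zero,
        zero_add, pow_one, sub_zero, one_mul, mul_one, Nat.factorial_one, Nat.cast_one]
      rcases le_total w 0 with h1 | h1 <;> rcases le_total (w - h a) 0 with h2 | h2 <;>
        simp only [max_eq_left, max_eq_right, h1, h2] <;> constructor <;> linarith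
    have hd : ∀ y, HasDerivAt g (((#U + 1 : ℕ) : ℝ) *
        ∑ R ∈ U.powerset, (-1 : ℝ) ^ #R * max (y - ∑ x ∈ R, h x) 0 ^ #U) y := by
      intro y
      rw [hg, mul_sum]
      refine HasDerivAt.fun_sum fun R _ => ?_
      have h1 := ((RDif.hd #U (card_ne_zero.2 (nonempty_iff_ne_empty.2 hU))
        (y - ∑ x ∈ R, h x)).comp_sub_const y (∑ x ∈ R, h x)).const_mul ((-1 : ℝ) ^ #R)
      exact h1.congr_deriv (by ring)
    have hD : Differentiable ℝ g := fun y => (hd y).differentiableAt
    have hw : w - h a ≤ w := by linarith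
    constructor
    · have := mul_sub_le_image_sub_of_le_deriv hD (C := 0) (fun y => by
        rw [(hd y).deriv]
        exact mul_nonneg (Nat.cast_nonneg _) (ih' y).1) hw
      rwa [zero_mul] at this
    · refine (image_sub_le_mul_sub_of_deriv_le hD
        (C := ((#U + 1 : ℕ) : ℝ) * ((#U).factorial * ∏ x ∈ U, h x)) (fun y => by
        rw [(hd y).deriv]
        exact mul_le_mul_of_nonneg_left (ih' y).2 (Nat.cast_nonneg _)) hw).trans (le_of_eq ?_)
      rw [Nat.factorial_succ]
      push_cast
      ring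

end Pool.Agent.MP_ff3a4f_co.AD
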