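import Pool.Agent.MP_ff3a4f_co.AD.Spec

/-! Row KIR: an infeasible set through two given points contains one with `d + 2` points. -/

namespace Pool.Agent.MP_ff3a4f_co.AD

open Finset
open scoped Classical

theorem rkir : LIN → OTH → KIR := by
  intro L O ι _ d v Y S α h gp hα hh ne
  induction S using Finset.strongInduction with
  | H S ih =>
    intro hS f1 f2
    have m : ∀ x ∈ S, x ≠ h ∧ x ≠ α ∧ x ∈ Y := fun x hx => by simpa using hS hx
    have sub : insert α (insert h S) ⊆ Y :=
      insert_subset hα (insert_subset hh fun x hx => (m x hx).2.2)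
    have c : #(insert α (insert h S)) = #S + 2 := by
      rw [card_insert_of_notMem, card_insert_of_notMem fun a => (m h a).1 rfl]
      simp only [mem_insert, not_or]
      exact ⟨ne.symm, fun a => (m α a).2.1 rfl⟩
    rcases lt_trichotomy #S d with k | k | k
    · obtain ⟨φ, a⟩ := L.pre ι d v Y _ (fun _ => 1) gp sub (by omega)
      exact absurd ⟨φ, fun x hx => a x hx ▸ one_pos⟩ f2
    · exact ⟨S, Subset.rfl, k, f2⟩
    · obtain ⟨q, q1, q2, q3⟩ := O ι d v Y _ gp sub (by omega) α (mem_insert_self _ _) f2
      have qh : q ≠ h := by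
        rintro rfl
        exact q3 (f1.mono fun x hx => by grind)
      have qS : q ∈ S := by grind
      obtain ⟨U, u1, u2⟩ := ih (S.erase q) (erase_ssubset qS) ((erase_subset _ _).trans hS)
        (f1.mono (insert_subset_insert _ (erase_subset _ _)))
        fun a => q3 (a.mono fun x hx => by grind)
      exact ⟨U, u1.trans (erase_subset _ _), u2⟩

end Pool.Agent.MP_ff3a4f_co.AD
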