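import Pool.Agent.MP_ff3a4f_co.AD.Spec

/-! Row `low`: the perturbed configuration. -/

namespace Pool.Agent.MP_ff3a4f_co.AD

open Finset Pool.Agent.MP_ff3a4f_co.Kirchberger
open scoped Classical

theorem rlow : PER → OPN → ROB → GOO → BLK → LOW := by
  intro per opn rob goo blk d K N hd hN
  obtain ⟨e, rfl⟩ : ∃ e, d = e + 1 := ⟨d - 1, by omega⟩
  obtain ⟨δ₁, h1, H1⟩ := opn (e + 1) N (range (2 * N)) (cfg e K N)
  obtain ⟨δ₂, h2, H2⟩ := rob (e + 1) N (range (2 * N)) (cfg e K N)
  obtain ⟨p, hp, inj, gp⟩ := per (e + 1) (range (2 * N)) (cfg e K N) (min δ₁ δ₂) hd (lt_min h1 h2)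
  have G1 := H1 p fun i hi => (hp i hi).trans_le (min_le_left _ _)
  have G2 := H2 p fun i hi => (hp i hi).trans_le (min_le_right _ _)
  have inj' : ∀ i j, i < 2 * N → j < 2 * N → p i = p j → i = j := fun i j hi hj h =>
    inj (mem_coe.2 (mem_range.2 hi)) (mem_coe.2 (mem_range.2 hj)) h
  have hU : (range N).image p ∪ (Ico N (2 * N)).image p = (range (2 * N)).image p := by
    rw [← image_union]
    congr 1
    ext i
    simp only [mem_union, mem_range, mem_Ico]
    omega
  refine ⟨(range N).image p, (Ico N (2 * N)).image p, ?_, ?_, ?_, ?_, ?_, ?_⟩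
  · refine disjoint_left.2 fun x hx hy => ?_
    obtain ⟨i, hi, rfl⟩ := mem_image.1 hx
    obtain ⟨j, hj, hji⟩ := mem_image.1 hy
    have hi' := mem_range.1 hi
    have hj' := mem_Ico.1 hj
    have := inj' j i hj'.2 (by omega) hji
    omega
  · rw [card_image_of_injOn, card_range]
    intro i hi j hj h
    have hi' := mem_range.1 (mem_coe.1 hi)
    have hj' := mem_range.1 (mem_coe.1 hj)
    exact inj' i j (by omega) (by omega) h
  · rw [card_image_of_injOn, Nat.card_Ico]
    · omega
    intro i hi j hj h
    exact inj' i j (mem_Ico.1 (mem_coe.1 hi)).2 (mem_Ico.1 (mem_coe.1 hj)).2 h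
  · rw [hU]
    exact gp
  · have hs := card_filter_add_card_filter_not (s := (range (2 * N)).powersetCard (e + 3))
      (fun S => LSep N (cfg e K N) S)
    rw [card_powersetCard, card_range] at hs
    have hb := goo e K N (by omega)
    have hg : #{S ∈ (range (2 * N)).powersetCard (e + 3) | LSep N (cfg e K N) S} ≤
        #(goodSets ((range N).image p) ((Ico N (2 * N)).image p)) := by
      refine card_le_card_of_injOn (fun S => S.image p) ?_ ?_
      · intro S hS
        obtain ⟨hS, hL⟩ := mem_filter.1 (mem_coe.1 hS)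
        obtain ⟨hS, hc⟩ := mem_powersetCard.1 hS
        obtain ⟨w, c, hw⟩ := G1 S hS hL
        refine mem_coe.2 (mem_filter.2 ⟨mem_powersetCard.2 ⟨?_, ?_⟩, ?_⟩)
        · rw [hU]
          exact image_subset_image hS
        · rw [card_image_of_injOn (inj.mono (coe_subset.2 hS)), hc]
        · refine separated_of_weak hd _ _ w c (fun x hx => ?_) (fun x hx => ?_)
          · obtain ⟨hx, hy⟩ := mem_inter.1 hx
            obtain ⟨i, hi, rfl⟩ := mem_image.1 hx
            obtain ⟨j, hj, hji⟩ := mem_image.1 hy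
            have hi' := mem_range.1 hi
            have := inj' j i (mem_range.1 (hS hj)) (by omega) hji
            subst this
            exact (hw j hj).1 hi'
          · obtain ⟨hx, hy⟩ := mem_inter.1 hx
            obtain ⟨i, hi, rfl⟩ := mem_image.1 hx
            obtain ⟨j, hj, hji⟩ := mem_image.1 hy
            have hi' := mem_Ico.1 hi
            have := inj' j i (mem_range.1 (hS hj)) hi'.2 hji
            subst this
            exact (hw j hj).2 hi'.1
      · intro S hS T hT h
        have hS' := (mem_powersetCard.1 (mem_filter.1 (mem_coe.1 hS)).1).1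
        have hT' := (mem_powersetCard.1 (mem_filter.1 (mem_coe.1 hT)).1).1
        have key : ∀ S T : Finset ℕ, S ⊆ range (2 * N) → T ⊆ range (2 * N) →
            S.image p = T.image p → S ⊆ T := fun S T hS hT h i hi => by
          obtain ⟨j, hj, hji⟩ := mem_image.1 (h ▸ mem_image_of_mem p hi)
          exact inj' j i (mem_range.1 (hT hj)) (mem_range.1 (hS hi)) hji ▸ hj
        exact Subset.antisymm (key S T hS' hT' h) (key T S hT' hS' h.symm)
    have e1 : K + (e + 1) = K + e + 1 := by omega
    rw [e1]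
    change (2 * N).choose (e + 3) ≤ _ + (K * (2 * (K + e + 1)).choose (e + 2) + _)
    omega
  · intro A' hA B' hB ⟨w, c, _, hwA, hwB⟩
    by_contra hcon
    push Not at hcon
    set J := {i ∈ range (2 * N) | (i < N → p i ∈ A') ∧ (N ≤ i → p i ∈ B')} with hJ
    have hA' : #A' ≤ #(range N ∩ J) := by
      refine (card_le_card fun x hx => ?_).trans (card_image_le (f := p))
      obtain ⟨i, hi, rfl⟩ := mem_image.1 (hA hx)
      have hi' := mem_range.1 hi
      exact mem_image_of_mem p (mem_inter.2 ⟨hi, mem_filter.2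
        ⟨mem_range.2 (by omega), fun _ => hx, fun h => by omega⟩⟩)
    have hB' : #B' ≤ #(Ico N (2 * N) ∩ J) := by
      refine (card_le_card fun x hx => ?_).trans (card_image_le (f := p))
      obtain ⟨i, hi, rfl⟩ := mem_image.1 (hB hx)
      have hi' := mem_Ico.1 hi
      exact mem_image_of_mem p (mem_inter.2 ⟨hi, mem_filter.2
        ⟨mem_range.2 hi'.2, fun h => by omega, fun _ => hx⟩⟩)
    have c1 := card_sdiff_add_card_inter (range N) J
    have c2 := card_sdiff_add_card_inter (Ico N (2 * N)) J
    rw [card_range] at c1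
    rw [Nat.card_Ico] at c2
    obtain ⟨T, hT, o, ho, _, hb⟩ := blk e K N J (by omega) (by omega) (by omega)
    have hJs : J ⊆ range (2 * N) := filter_subset _ _
    refine G2 T (hT.trans hJs) o (hJs ho) hb ⟨w, c, fun i hi => ?_⟩
    have hi' := (mem_filter.1 (insert_subset ho hT hi)).2
    exact ⟨fun h => hwA _ (hi'.1 h), fun h => hwB _ (hi'.2 h)⟩

end Pool.Agent.MP_ff3a4f_co.AD
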