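import Mathlib
import Pool.Agent.MP_ff3a4f_co.AD.Spec

/-! Row NUM: the choice of the parameters of the sample. -/

namespace Pool.Agent.MP_ff3a4f_co.AD

open Finset Filter Topology

namespace RNum

theorem small (d : ℕ) (hd : 1 ≤ d) {c δ : ℝ} (hc : 0 < c) (hδ : 0 < δ) :
    ∀ᶠ x : ℝ in atTop, (1 + (2 * x * x ^ (2 * d)) ^ d) * Real.exp (-c * x + 1 / 2) +
      2 * (d + 2) ^ 2 * (x ^ d)⁻¹ < δ := by
  have h1 : ∀ m : ℕ, Tendsto (fun x : ℝ => x ^ m * Real.exp (-c * x)) atTop (𝓝 0) := fun m => by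
    simpa only [Real.rpow_natCast] using tendsto_rpow_mul_exp_neg_mul_atTop_nhds_zero (m : ℝ) c hc
  have h2 : Tendsto (fun x : ℝ => (x ^ d)⁻¹) atTop (𝓝 0) :=
    (tendsto_pow_atTop (by omega)).inv_tendsto_atTop
  have h3 := (((h1 0).add ((h1 ((2 * d + 1) * d)).const_mul (2 ^ d))).mul_const
    (Real.exp (1 / 2))).add (h2.const_mul (2 * ((d : ℝ) + 2) ^ 2))
  simp only [mul_zero, add_zero, zero_mul] at h3
  filter_upwards [h3.eventually (gt_mem_nhds hδ)] with x hx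
  refine lt_of_eq_of_lt ?_ hx
  rw [Real.exp_add]
  ring

theorem tail {η x : ℝ} (hη : 0 < η) (hx : 0 ≤ x) :
    Real.exp (-((1 + η) * x * (1 - (1 + η / 2) / (1 + 3 * η / 4)))) /
      ((1 + η / 2) / (1 + 3 * η / 4)) ^ ⌈(1 + η / 2) * x⌉₊ ≤
      Real.exp (-((η / 4) ^ 2 / (1 + 3 * η / 4)) * x + 1 / 2) := by
  have hθ : 0 < (1 + η / 2) / (1 + 3 * η / 4) := by positivity
  have hk : (⌈(1 + η / 2) * x⌉₊ : ℝ) ≤ (1 + η / 2) * x + 1 := (Nat.ceil_lt_add_one (by positivity)).le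
  set k := ⌈(1 + η / 2) * x⌉₊
  have h1 := Real.one_sub_inv_le_log_of_pos hθ
  have h2 : 1 - ((1 + η / 2) / (1 + 3 * η / 4))⁻¹ = -(η / 4 / (1 + η / 2)) := by
    field_simp; ring
  rw [h2] at h1
  have e : ((1 + η / 2) / (1 + 3 * η / 4)) ^ k =
      Real.exp (k * Real.log ((1 + η / 2) / (1 + 3 * η / 4))) := by
    rw [Real.exp_nat_mul, Real.exp_log hθ]
  rw [e, ← Real.exp_sub]
  refine Real.exp_le_exp.2 ?_
  have h3 : (k : ℝ) * -(η / 4 / (1 + η / 2)) ≤ k * Real.log ((1 + η / 2) / (1 + 3 * η / 4)) :=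
    mul_le_mul_of_nonneg_left h1 (Nat.cast_nonneg _)
  have h4 : (k : ℝ) * (η / 4 / (1 + η / 2)) ≤ ((1 + η / 2) * x + 1) * (η / 4 / (1 + η / 2)) :=
    mul_le_mul_of_nonneg_right hk (by positivity)
  have h5 : ((1 + η / 2) * x + 1) * (η / 4 / (1 + η / 2)) = η / 4 * x + η / 4 / (1 + η / 2) := by
    field_simp
  have h6 : η / 4 / (1 + η / 2) ≤ 1 / 2 := by
    rw [div_le_iff₀ (by positivity)]; linarith
  have h7 : (1 + η) * x * (1 - (1 + η / 2) / (1 + 3 * η / 4)) =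
      η / 4 * x + (η / 4) ^ 2 / (1 + 3 * η / 4) * x := by
    field_simp; ring
  rw [h7]
  linarith

end RNum

theorem rnum : NUM := by
  intro d η hd hη
  have hc : 0 < (η / 4) ^ 2 / (1 + 3 * η / 4) := by positivity
  have hδ : 0 < η / 2 / (1 + η / 2) := by positivity
  obtain ⟨x₀, hx₀⟩ := eventually_atTop.1 ((RNum.small d hd hc hδ).and (eventually_ge_atTop (d : ℝ)))
  have hd1 : (1 : ℝ) ≤ d := by exact_mod_cast hd
  have hm : 0 < max x₀ 1 := lt_max_of_lt_right one_pos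
  refine ⟨(max x₀ 1 ^ (2 * d))⁻¹, by positivity, fun ρ hρ hρ' => ?_⟩
  obtain ⟨x, hx0, hx⟩ : ∃ x : ℝ, 0 < x ∧ x ^ (2 * d) = ρ⁻¹ :=
    ⟨ρ⁻¹ ^ (((2 * d : ℕ) : ℝ)⁻¹), by positivity,
      Real.rpow_inv_natCast_pow (by positivity) (by omega)⟩
  have h1 : max x₀ 1 < x := by
    refine lt_of_pow_lt_pow_left₀ (2 * d) hx0.le ?_
    rw [hx]
    exact (lt_inv_comm₀ hρ (by positivity)).1 hρ'
  obtain ⟨h2, h3⟩ := hx₀ x ((le_max_left _ _).trans h1.le)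
  have e1 : ρ * x ^ d = (x ^ d)⁻¹ := by
    have : ρ = (x ^ (2 * d))⁻¹ := by rw [hx, inv_inv]
    rw [this]
    field_simp
    ring
  have e2 : 2 * x / ρ = 2 * x * x ^ (2 * d) := by rw [hx, div_eq_mul_inv]
  have hk : (1 + η / 2) * x ≤ (⌈(1 + η / 2) * x⌉₊ : ℝ) := Nat.le_ceil _
  have h4 := RNum.tail hη hx0.le
  have hp : 0 ≤ 1 + (2 * x * x ^ (2 * d)) ^ d := by positivity
  have h5 := mul_le_mul_of_nonneg_left h4 hp
  have h6 : 0 ≤ (1 + (2 * x * x ^ (2 * d)) ^ d) *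
    Real.exp (-((η / 4) ^ 2 / (1 + 3 * η / 4)) * x + 1 / 2) := by positivity
  have h7 : (1 + η / 2) * (1 - η / 2 / (1 + η / 2)) = 1 := by field_simp; ring
  have h8 : 0 < 1 - η / 2 / (1 + η / 2) := by
    rw [sub_pos, div_lt_one (by positivity)]; linarith
  refine ⟨x, (1 + η / 2) / (1 + 3 * η / 4), ⌈(1 + η / 2) * x⌉₊, hx0, by positivity, ?_, ?_, ?_, ?_⟩
  · rw [div_le_one (by positivity)]; linarith
  · have : (d : ℝ) ≤ (⌈(1 + η / 2) * x⌉₊ : ℝ) := by nlinarith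
    exact_mod_cast this
  · rw [mul_assoc (2 * ((d : ℝ) + 2) ^ 2), e1]
    have h9 : 1 + η / 2 ≤ (1 + η) ^ (d + 1) :=
      le_trans (by linarith) (le_self_pow₀ (by linarith) (by omega))
    calc (1 : ℝ) = (1 + η / 2) * (1 - η / 2 / (1 + η / 2)) := h7.symm
      _ ≤ _ := mul_le_mul h9 (by linarith) h8.le (by positivity)
  · rw [mul_assoc (2 * ((d : ℝ) + 2) ^ 2), e1, e2]
    have h9 : (1 + η / 2) * x ^ (d + 1) ≤ (⌈(1 + η / 2) * x⌉₊ : ℝ) ^ (d + 1) := by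
      refine le_trans ?_ (pow_le_pow_left₀ (by positivity) hk _)
      rw [mul_pow]
      exact mul_le_mul_of_nonneg_right (le_self_pow₀ (by linarith) (by omega)) (by positivity)
    calc x ^ (d + 1) = (1 + η / 2) * x ^ (d + 1) * (1 - η / 2 / (1 + η / 2)) := by
          rw [mul_right_comm, h7, one_mul]
      _ < _ := mul_lt_mul' h9 (by linarith) h8.le (lt_of_lt_of_le (by positivity) h9)

end Pool.Agent.MP_ff3a4f_co.AD
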